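import Pool.Agent.X284.KS.Tow

/-!
The total order of vanishing over the cyclotomic field of level `q` is bounded by
`C rad(q) ^ (4 + ε)`.
-/

set_option autoImplicit false

namespace Pool.Agent.X284.KS.Tow

open Finset
open Pool.Agent.TH940 (tot GH order_prim order_dvd)

/-- `n ↦ n ^ (-δ)` -/
noncomputable def fpow (δ : ℝ) : ℕ →* ℝ where
  toFun n := (n : ℝ) ^ (-δ)
  map_one' := by simp
  map_mul' a b := by
    push_cast
    exact Real.mul_rpow (Nat.cast_nonneg _) (Nat.cast_nonneg _)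

lemma fpow_apply (δ : ℝ) (n : ℕ) : fpow δ n = (n : ℝ) ^ (-δ) := rfl

/-- the number of integers up to `B` composed of given primes -/
theorem smooth_count {δ : ℝ} (hδ : 0 < δ) : ∃ C : ℝ, 1 ≤ C ∧ ∀ (S : Finset ℕ)
    (_ : ∀ p ∈ S, p.Prime) (B : ℝ) (_ : 1 ≤ B) (T : Finset ℕ)
    (_ : ∀ n ∈ T, n ∈ Nat.factoredNumbers S ∧ (n : ℝ) ≤ B),
    (T.card : ℝ) ≤ C * (B * ∏ p ∈ S, (p : ℝ)) ^ δ := by
  classical
  set M : ℕ := ⌈(2 : ℝ) ^ (1 / δ)⌉₊ with hM
  have h2δ : (2 : ℝ) ^ (-δ) < 1 := Real.rpow_lt_one_of_one_lt_of_neg (by norm_num) (by linarith)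
  have h2δ0 : (0 : ℝ) < (2 : ℝ) ^ (-δ) := by positivity
  set A : ℝ := (1 - (2 : ℝ) ^ (-δ))⁻¹ with hA
  have hA1 : 1 ≤ A := by
    rw [hA, one_le_inv₀ (by linarith)]
    linarith
  have hp1 : ∀ p : ℕ, p.Prime → (p : ℝ) ^ (-δ) ≤ (2 : ℝ) ^ (-δ) := by
    intro p hp
    have h2 : (2 : ℝ) ≤ p := by exact_mod_cast hp.two_le
    exact Real.rpow_le_rpow_of_nonpos (by norm_num) h2 (by linarith)
  refine ⟨A ^ M, one_le_pow₀ hA1, ?_⟩
  intro S hS B hB T hT
  have hsum := (EulerProduct.summable_and_hasSum_factoredNumbers_prod_filter_prime_geometric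
    (f := fpow δ) (fun {p} hp => by
      rw [fpow_apply, Real.norm_of_nonneg (by positivity)]
      exact (hp1 p hp).trans_lt h2δ) S).2
  rw [Finset.filter_true_of_mem hS] at hsum
  have hT1 : ∑ n ∈ T, (n : ℝ) ^ (-δ) ≤ ∏ p ∈ S, (1 - fpow δ p)⁻¹ := by
    have h1 := sum_le_hasSum (T.subtype (· ∈ Nat.factoredNumbers S)) (fun m _ => by
      rw [fpow_apply]; positivity) hsum
    refine le_trans (le_of_eq ?_) h1
    rw [← Finset.sum_subtype_of_mem (fun n : ℕ => (n : ℝ) ^ (-δ)) (fun n hn => (hT n hn).1)]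
    rfl
  have hT2 : (T.card : ℝ) * B ^ (-δ) ≤ ∑ n ∈ T, (n : ℝ) ^ (-δ) := by
    rw [← nsmul_eq_mul, ← Finset.sum_const]
    refine Finset.sum_le_sum fun n hn => ?_
    obtain ⟨h1, h2⟩ := hT n hn
    have h3 : 0 < (n : ℝ) := by
      exact_mod_cast Nat.pos_of_ne_zero (Nat.ne_zero_of_mem_factoredNumbers h1)
    exact Real.rpow_le_rpow_of_nonpos h3 h2 (by linarith)
  have hprod : ∏ p ∈ S, (1 - fpow δ p)⁻¹ ≤ A ^ M * (∏ p ∈ S, (p : ℝ)) ^ δ := by
    have h1 : ∀ p ∈ S, (1 - fpow δ p)⁻¹ ≤ (if p < M then A else 1) * (p : ℝ) ^ δ := by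
      intro p hp
      have hpp := hS p hp
      have hp0 : (0 : ℝ) < p := by exact_mod_cast hpp.pos
      have h3 : 1 ≤ (p : ℝ) ^ δ := Real.one_le_rpow (by exact_mod_cast hpp.one_lt.le) hδ.le
      have h4 := hp1 p hpp
      rw [fpow_apply]
      split_ifs with h
      · have h5 : (1 - (p : ℝ) ^ (-δ))⁻¹ ≤ A := by
          rw [hA]
          exact inv_anti₀ (by linarith) (by linarith)
        nlinarith
      · rw [one_mul]
        push Not at h
        have h5 : (2 : ℝ) ^ (1 / δ) ≤ p := (Nat.le_ceil _).trans (by exact_mod_cast h)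
        have h6 : (2 : ℝ) ≤ (p : ℝ) ^ δ := by
          have h7 := Real.rpow_le_rpow (by positivity) h5 hδ.le
          rwa [← Real.rpow_mul (by norm_num), one_div_mul_cancel hδ.ne', Real.rpow_one] at h7
        rw [Real.rpow_neg hp0.le]
        have h8 : 0 < (p : ℝ) ^ δ := by linarith
        have h9 : 0 < 1 - ((p : ℝ) ^ δ)⁻¹ := by
          have : ((p : ℝ) ^ δ)⁻¹ ≤ 2⁻¹ := inv_anti₀ (by norm_num) h6
          linarith
        rw [inv_le_iff_one_le_mul₀ h9]
        have : (p : ℝ) ^ δ * (1 - ((p : ℝ) ^ δ)⁻¹) = (p : ℝ) ^ δ - 1 := by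
          field_simp
        nlinarith
    have h0 : ∀ p ∈ S, 0 ≤ (1 - fpow δ p)⁻¹ := by
      intro p hp
      rw [fpow_apply, inv_nonneg]
      have := hp1 p (hS p hp)
      linarith
    refine (Finset.prod_le_prod h0 h1).trans ?_
    rw [Finset.prod_mul_distrib, Real.finsetProd_rpow _ _ (fun p _ => Nat.cast_nonneg p)]
    refine mul_le_mul_of_nonneg_right ?_ (by positivity)
    rw [Finset.prod_ite, Finset.prod_const, Finset.prod_const_one, mul_one]
    refine pow_le_pow_right₀ hA1 ?_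
    calc (S.filter (fun p => p < M)).card ≤ (range M).card := by
          refine Finset.card_le_card fun p hp => ?_
          rw [Finset.mem_filter] at hp
          exact Finset.mem_range.2 hp.2
      _ = M := Finset.card_range M
  have hB0 : 0 < B := by linarith
  have h5 : (T.card : ℝ) * B ^ (-δ) ≤ A ^ M * (∏ p ∈ S, (p : ℝ)) ^ δ :=
    (hT2.trans hT1).trans hprod
  have h6 : (T.card : ℝ) = (T.card : ℝ) * B ^ (-δ) * B ^ δ := by
    rw [mul_assoc, ← Real.rpow_add hB0, neg_add_cancel, Real.rpow_zero, mul_one]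
  rw [h6, Real.mul_rpow hB0.le (Finset.prod_nonneg fun p _ => Nat.cast_nonneg p)]
  calc (T.card : ℝ) * B ^ (-δ) * B ^ δ ≤ A ^ M * (∏ p ∈ S, (p : ℝ)) ^ δ * B ^ δ :=
        mul_le_mul_of_nonneg_right h5 (by positivity)
    _ = _ := by ring

/-- the number of characters modulo `d` is at most `d` -/
lemma card_char_le (d : ℕ) [NeZero d] (s : Finset (DirichletCharacter ℂ d)) : s.card ≤ d := by
  classical
  refine (Finset.card_le_univ s).trans ?_
  have h := DirichletCharacter.card_eq_totient_of_hasEnoughRootsOfUnity ℂ d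
  rw [Nat.card_eq_fintype_card] at h
  rw [h]
  exact Nat.totient_le d

/-- a set of characters modulo `q` whose conductors are in `T` -/
lemma card_cond {q : ℕ} [NeZero q] (S : Finset (DirichletCharacter ℂ q)) (T : Finset ℕ) {B : ℝ}
    (hS : ∀ χ ∈ S, χ.conductor ∈ T) (hT : ∀ n ∈ T, n ≠ 0 ∧ (n : ℝ) ≤ B) :
    (S.card : ℝ) ≤ T.card * B := by
  classical
  have h1 : S.card ≤ ∑ n ∈ T, (S.filter (fun χ => χ.conductor = n)).card := by
    rw [Finset.card_eq_sum_card_fiberwise (f := fun χ : DirichletCharacter ℂ q => χ.conductor)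
      (s := S) (t := T) (fun χ hχ => hS χ hχ)]
  have h2 : ∀ n ∈ T, (S.filter (fun χ => χ.conductor = n)).card ≤ n := by
    intro n hn
    have : NeZero n := ⟨(hT n hn).1⟩
    by_cases hnq : n ∣ q
    · have h3 : (S.filter (fun χ => χ.conductor = n)) ⊆
          (Finset.univ : Finset (DirichletCharacter ℂ n)).image
            (DirichletCharacter.changeLevel hnq) := by
        intro χ hχ
        rw [Finset.mem_filter] at hχ
        obtain ⟨-, rfl⟩ := hχ
        rw [Finset.mem_image]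
        exact ⟨χ.primitiveCharacter, Finset.mem_univ _, χ.changeLevel_primitiveCharacter⟩
      refine (Finset.card_le_card h3).trans (Finset.card_image_le.trans ?_)
      exact card_char_le n _
    · rw [Finset.filter_false_of_mem, Finset.card_empty]
      · exact Nat.zero_le n
      · rintro χ - rfl
        exact hnq χ.conductor_dvd_level
  calc (S.card : ℝ) ≤ ((∑ n ∈ T, n : ℕ) : ℝ) := by exact_mod_cast h1.trans (Finset.sum_le_sum h2)
    _ = ∑ n ∈ T, (n : ℝ) := by push_cast; rfl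
    _ ≤ ∑ n ∈ T, B := Finset.sum_le_sum fun n hn => (hT n hn).2
    _ = T.card * B := by rw [Finset.sum_const, nsmul_eq_mul]

/-- the total order of vanishing is bounded in terms of the radical -/
theorem tot_rad {N : ℕ} {K : ℝ} {G : (q : ℕ) → DirichletCharacter ℂ q → ℕ} (hG : GH N K G)
    {ε : ℝ} (hε : 0 < ε) : ∃ C : ℝ, 0 < C ∧ ∀ q : ℕ, 1 ≤ q → Nat.Coprime q N →
      (tot G q : ℝ) ≤ C * (∏ p ∈ q.primeFactors, (p : ℝ)) ^ (4 + ε) := by
  classical
  have hK := hG.pos
  set δ : ℝ := min ε 1 / 128 with hδ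
  have hmin : 0 < min ε 1 := lt_min hε one_pos
  have hδ0 : 0 < δ := by positivity
  have hδ1 : δ ≤ 1 / 128 := by
    rw [hδ]
    have := min_le_right ε 1
    linarith
  have hδε : 128 * δ ≤ ε := by
    rw [hδ]
    have := min_le_left ε 1
    linarith
  obtain ⟨q1, hq1⟩ := hG.nv δ hδ0
  set q0 : ℝ := max q1 2 with hq0
  have hq02 : (2 : ℝ) ≤ q0 := le_max_right _ _
  obtain ⟨C, hC1, hC⟩ := smooth_count hδ0
  refine ⟨K * (1 + 1 / δ) * C * (q0 * 2 ^ (4 + 32 * δ)) ^ (1 + 2 * δ), by positivity, ?_⟩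
  intro q hq hqN
  have hNZ : NeZero q := ⟨by omega⟩
  set rn : ℕ := ∏ p ∈ q.primeFactors, p with hrn
  have hr : (∏ p ∈ q.primeFactors, (p : ℝ)) = (rn : ℝ) := by rw [hrn]; push_cast; rfl
  have hrn1 : 1 ≤ rn := Nat.one_le_iff_ne_zero.2 (Finset.prod_ne_zero_iff.2 fun p hp =>
    (Nat.prime_of_mem_primeFactors hp).ne_zero)
  have hr1 : (1 : ℝ) ≤ rn := by exact_mod_cast hrn1
  set B : ℝ := q0 * (2 * rn) ^ (4 + 32 * δ) with hB
  have h2r : (1 : ℝ) ≤ (2 * rn : ℝ) ^ (4 + 32 * δ) := Real.one_le_rpow (by linarith) (by positivity)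
  have hB1 : 1 ≤ B := by rw [hB]; nlinarith
  have hB0 : 0 < B := by linarith
  unfold tot
  rw [finsum_eq_sum_of_fintype]
  set S := (Finset.univ : Finset (DirichletCharacter ℂ q)).filter
    (fun χ => G χ.conductor χ.primitiveCharacter ≠ 0) with hS
  have hsum : ∑ χ : DirichletCharacter ℂ q, G χ.conductor χ.primitiveCharacter =
      ∑ χ ∈ S, G χ.conductor χ.primitiveCharacter := by
    rw [hS, Finset.sum_filter_ne_zero]
  rw [hsum]
  have hcond : ∀ χ : DirichletCharacter ℂ q, 1 ≤ χ.conductor ∧ χ.conductor ≤ q ∧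
      Nat.Coprime χ.conductor N ∧ χ.primitiveCharacter.IsPrimitive := by
    intro χ
    exact ⟨Nat.one_le_iff_ne_zero.2 χ.conductor_ne_zero, Nat.le_of_dvd (by omega)
      χ.conductor_dvd_level,
      Nat.Coprime.coprime_dvd_left χ.conductor_dvd_level hqN, χ.primitiveCharacter_isPrimitive⟩
  -- the conductors
  have hle : ∀ χ ∈ S, (χ.conductor : ℝ) ≤ B := by
    intro χ hχ
    obtain ⟨h1, h2, h3, h4⟩ := hcond χ
    have hne := (Finset.mem_filter.1 hχ).2
    have hNZc : NeZero χ.conductor := ⟨χ.conductor_ne_zero⟩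
    by_contra hlt
    push Not at hlt
    have hn1 : (1 : ℝ) ≤ χ.conductor := by exact_mod_cast h1
    have hn0 : (0 : ℝ) < χ.conductor := by linarith
    have hm : q0 ≤ χ.conductor := by
      refine le_trans ?_ hlt.le
      rw [hB]
      nlinarith
    apply hne
    refine hq1 χ.conductor ((le_max_left _ _).trans hm) ?_ h3 _ h4 ?_
    · have : (2 : ℝ) ≤ χ.conductor := hq02.trans hm
      have h5 : 2 ≤ χ.conductor := by exact_mod_cast this
      omega
    · have h5 : χ.conductor ∣ 2 * rn * orderOf χ.primitiveCharacter := by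
        refine dvd_order h4 fun p hp hpd => ?_
        rw [hrn]
        refine Finset.dvd_prod_of_mem (fun p => p) ?_
        exact Nat.mem_primeFactors.2 ⟨hp, hpd.trans χ.conductor_dvd_level, by omega⟩
      have h6 : χ.conductor ≤ 2 * rn * orderOf χ.primitiveCharacter := by
        refine Nat.le_of_dvd ?_ h5
        have := orderOf_pos χ.primitiveCharacter
        positivity
      have h7 : (χ.conductor : ℝ) ≤ 2 * rn * orderOf χ.primitiveCharacter := by exact_mod_cast h6
      -- (2 rn) ≤ n ^ (1/4 - δ)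
      have h8 : (2 * rn : ℝ) ≤ (χ.conductor : ℝ) ^ (1 / 4 - δ) := by
        have h9 : (2 * rn : ℝ) ^ (4 + 32 * δ) ≤ χ.conductor := by
          refine le_trans ?_ hlt.le
          rw [hB]
          nlinarith
        have h10 := Real.rpow_le_rpow (by positivity) h9 (show 0 ≤ 1 / 4 - δ by linarith)
        rw [← Real.rpow_mul (by positivity)] at h10
        refine le_trans ?_ h10
        calc (2 * rn : ℝ) = (2 * rn : ℝ) ^ (1 : ℝ) := (Real.rpow_one _).symm
          _ ≤ _ := by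
            refine Real.rpow_le_rpow_of_exponent_le (by linarith) ?_
            nlinarith
      have h11 : (χ.conductor : ℝ) = (χ.conductor : ℝ) ^ (3 / 4 + δ) *
          (χ.conductor : ℝ) ^ (1 / 4 - δ) := by
        rw [← Real.rpow_add hn0]
        norm_num
      have h12 : (χ.conductor : ℝ) ^ (3 / 4 + δ) * (χ.conductor : ℝ) ^ (1 / 4 - δ) ≤
          orderOf χ.primitiveCharacter * (χ.conductor : ℝ) ^ (1 / 4 - δ) := by
        rw [← h11]
        refine h7.trans ?_
        rw [mul_comm (2 * (rn : ℝ))]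
        exact mul_le_mul_of_nonneg_left h8 (Nat.cast_nonneg _)
      exact le_of_mul_le_mul_right h12 (by positivity)
  -- the terms
  have hterm : ∀ χ ∈ S, ((G χ.conductor χ.primitiveCharacter : ℕ) : ℝ) ≤
      K * (1 + 1 / δ) * B ^ δ := by
    intro χ hχ
    obtain ⟨h1, h2, h3, h4⟩ := hcond χ
    refine (hG.bd _ _ h1 h3 h4).trans ?_
    have h5 : Real.log χ.conductor ≤ Real.log B :=
      Real.log_le_log (by exact_mod_cast h1) (hle χ hχ)
    have h6 : Real.log B ≤ B ^ δ / δ := Real.log_le_rpow_div hB0.le hδ0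
    have h7 : 1 ≤ B ^ δ := Real.one_le_rpow hB1 hδ0.le
    have h8 : 1 + Real.log χ.conductor ≤ (1 + 1 / δ) * B ^ δ := by
      have : (1 + 1 / δ) * B ^ δ = B ^ δ + B ^ δ / δ := by ring
      rw [this]; linarith
    calc K * (1 + Real.log χ.conductor) ≤ K * ((1 + 1 / δ) * B ^ δ) :=
          mul_le_mul_of_nonneg_left h8 hK.le
      _ = _ := by ring
  -- the number of terms
  set T : Finset ℕ := S.image (fun χ => χ.conductor) with hT
  have hTm : ∀ n ∈ T, n ∈ Nat.factoredNumbers q.primeFactors ∧ (n : ℝ) ≤ B := by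
    intro n hn
    rw [hT, Finset.mem_image] at hn
    obtain ⟨χ, hχ, rfl⟩ := hn
    refine ⟨?_, hle χ hχ⟩
    rw [Nat.mem_factoredNumbers']
    intro p hp hpd
    exact Nat.mem_primeFactors.2 ⟨hp, hpd.trans χ.conductor_dvd_level, by omega⟩
  have hTc := hC q.primeFactors (fun p hp => Nat.prime_of_mem_primeFactors hp) B hB1 T hTm
  rw [hr] at hTc
  have hSc : (S.card : ℝ) ≤ C * (B * rn) ^ δ * B := by
    refine (card_cond S T (fun χ hχ => Finset.mem_image_of_mem _ hχ) (fun n hn =>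
      ⟨Nat.ne_zero_of_mem_factoredNumbers (hTm n hn).1, (hTm n hn).2⟩)).trans ?_
    exact mul_le_mul_of_nonneg_right hTc hB0.le
  have hrn0 : (0 : ℝ) < rn := by linarith
  rw [hr]
  push_cast
  calc ∑ χ ∈ S, ((G χ.conductor χ.primitiveCharacter : ℕ) : ℝ) ≤
        ∑ χ ∈ S, K * (1 + 1 / δ) * B ^ δ := Finset.sum_le_sum hterm
    _ = S.card * (K * (1 + 1 / δ) * B ^ δ) := by rw [Finset.sum_const, nsmul_eq_mul]
    _ ≤ (C * (B * rn) ^ δ * B) * (K * (1 + 1 / δ) * B ^ δ) :=
        mul_le_mul_of_nonneg_right hSc (by positivity)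
    _ = K * (1 + 1 / δ) * C * (B ^ (1 + 2 * δ) * (rn : ℝ) ^ δ) := by
        rw [Real.mul_rpow hB0.le hrn0.le]
        have : B ^ (1 + 2 * δ) = B ^ δ * B * B ^ δ := by
          rw [show 1 + 2 * δ = δ + 1 + δ by ring, Real.rpow_add hB0, Real.rpow_add hB0,
            Real.rpow_one]
        rw [this]
        ring
    _ ≤ K * (1 + 1 / δ) * C * ((q0 * 2 ^ (4 + 32 * δ)) ^ (1 + 2 * δ) * (rn : ℝ) ^ (4 + ε)) := by
        refine mul_le_mul_of_nonneg_left ?_ (by positivity)
        have e1 : B = (q0 * 2 ^ (4 + 32 * δ)) * (rn : ℝ) ^ (4 + 32 * δ) := by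
          rw [hB, Real.mul_rpow (by norm_num) hrn0.le]
          ring
        rw [e1, Real.mul_rpow (by positivity) (by positivity), ← Real.rpow_mul hrn0.le, mul_assoc,
          ← Real.rpow_add hrn0]
        refine mul_le_mul_of_nonneg_left ?_ (by positivity)
        refine Real.rpow_le_rpow_of_exponent_le hr1 ?_
        nlinarith
    _ = _ := by ring

end Pool.Agent.X284.KS.Tow
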