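import Pool.Agent.X284.KS.Ser

/-!
The cocycle argument: the primitives of an automorphic form of weight `D + 2` times a polynomial of
degree `≤ D` have boundary values in a finitely generated space of periods.
-/

set_option autoImplicit false

open Complex Filter Topology Set Polynomial MatrixGroups CongruenceSubgroup

namespace Pool.Agent.X284.KS

/-! ### the action on polynomials -/

/-- weight `-D` action on polynomials of degree `≤ D` -/
noncomputable def act (D : ℕ) (a b c d : ℚ) : ℚ[X] →ₗ[ℚ] ℚ[X] where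
  toFun P := ∑ j ∈ Finset.range (D + 1), P.coeff j • ((C a * X + C b) ^ j * (C c * X + C d) ^ (D - j))
  map_add' P R := by
    simp only [coeff_add, add_smul, Finset.sum_add_distrib]
  map_smul' r P := by
    simp only [coeff_smul, smul_eq_mul, mul_smul, Finset.smul_sum, RingHom.id_apply]

lemma act_apply (D : ℕ) (a b c d : ℚ) (P : ℚ[X]) : act D a b c d P =
    ∑ j ∈ Finset.range (D + 1), P.coeff j • ((C a * X + C b) ^ j * (C c * X + C d) ^ (D - j)) := rfl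

lemma act_deg (D : ℕ) (a b c d : ℚ) (P : ℚ[X]) : (act D a b c d P).natDegree ≤ D := by
  rw [act_apply]
  refine natDegree_sum_le_of_forall_le _ _ fun j hj => ?_
  have hj' : j ≤ D := by
    have := Finset.mem_range.1 hj
    omega
  refine (natDegree_smul_le _ _).trans ?_
  refine natDegree_mul_le.trans ?_
  have h1 : ∀ (a b : ℚ) (n : ℕ), ((C a * X + C b : ℚ[X]) ^ n).natDegree ≤ n := by
    intro a b n
    refine natDegree_pow_le.trans ?_
    have := natDegree_linear_le (a := a) (b := b)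
    nlinarith
  have h2 := h1 a b j
  have h3 := h1 c d (D - j)
  omega

lemma aeval_lin (a b : ℚ) (z : ℂ) : aeval z (C a * X + C b : ℚ[X]) = (a : ℂ) * z + (b : ℂ) := by
  rw [map_add, map_mul, aeval_C, aeval_C, aeval_X]
  rfl

lemma act_eval {D : ℕ} (a b c d : ℚ) {P : ℚ[X]} (hP : P.natDegree ≤ D) {z : ℂ}
    (hz : (c : ℂ) * z + d ≠ 0) : aeval z (act D a b c d P) =
      ((c : ℂ) * z + d) ^ D * aeval (((a : ℂ) * z + b) / ((c : ℂ) * z + d)) P := by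
  rw [act_apply, aeval_eq_sum_range' (show P.natDegree < D + 1 by omega), map_sum, Finset.mul_sum]
  refine Finset.sum_congr rfl fun j hj => ?_
  have hj' : j ≤ D := by
    have := Finset.mem_range.1 hj
    omega
  rw [map_smul, map_mul, map_pow, map_pow, aeval_lin, aeval_lin, mul_smul_comm]
  congr 1
  rw [div_pow]
  generalize (c : ℂ) * z + d = t at hz ⊢
  have h1 : t ^ D = t ^ j * t ^ (D - j) := by
    rw [← pow_add]
    congr 1
    omega
  rw [h1]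
  have h2 : t ^ j ≠ 0 := pow_ne_zero _ hz
  field_simp

lemma poly_ext {P R : ℚ[X]} (h : ∀ z : ℂ, 0 < z.im → aeval z P = aeval z R) : P = R := by
  apply Polynomial.map_injective (algebraMap ℚ ℂ) (algebraMap ℚ ℂ).injective
  apply Polynomial.eq_of_infinite_eval_eq
  have h1 : Set.range (fun n : ℕ => ((n : ℂ) + 1) * Complex.I) ⊆
      {x | eval x (P.map (algebraMap ℚ ℂ)) = eval x (R.map (algebraMap ℚ ℂ))} := by
    rintro _ ⟨n, rfl⟩
    show eval _ _ = eval _ _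
    rw [eval_map_algebraMap, eval_map_algebraMap]
    apply h
    simp
    positivity
  refine Set.Infinite.mono h1 (Set.infinite_range_of_injective ?_)
  intro n m hnm
  have h2 := mul_right_cancel₀ Complex.I_ne_zero hnm
  have h3 := add_right_cancel h2
  exact_mod_cast h3

/-- a rational linear functional on polynomials of degree `≤ D` with values in `W` -/
lemma lin_mem {D : ℕ} (W : Submodule ℚ ℂ) (Φ : ℚ[X] →ₗ[ℚ] ℂ) (h : ∀ j ≤ D, Φ (X ^ j) ∈ W)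
    {P : ℚ[X]} (hP : P.natDegree ≤ D) : Φ P ∈ W := by
  rw [as_sum_range_C_mul_X_pow' P (show P.natDegree < D + 1 by omega), map_sum]
  refine Submodule.sum_mem _ fun j hj => ?_
  rw [← smul_eq_C_mul, map_smul]
  refine Submodule.smul_mem _ _ (h j ?_)
  have := Finset.mem_range.1 hj
  omega

/-- `E` as a linear map -/
noncomputable def EL (D : ℕ) (b : ℕ → ℂ) (z : ℂ) : ℚ[X] →ₗ[ℚ] ℂ where
  toFun P := E D b P z
  map_add' P R := E_add D b P R z
  map_smul' r P := by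
    rw [smul_eq_C_mul, E_C_mul, RingHom.id_apply, Algebra.smul_def]
    rfl

lemma EL_apply (D : ℕ) (b : ℕ → ℂ) (z : ℂ) (P : ℚ[X]) : EL D b z P = E D b P z := rfl

/-! ### constancy -/

lemma const_of_deriv {g : ℂ → ℂ} (h : ∀ z : ℂ, 0 < z.im → HasDerivAt g 0 z) {z w : ℂ}
    (hz : 0 < z.im) (hw : 0 < w.im) : g z = g w := by
  have hopen : IsOpen {w : ℂ | 0 < w.im} := isOpen_lt continuous_const Complex.continuous_im
  have hpre : IsPreconnected {w : ℂ | 0 < w.im} := (convex_halfSpace_im_gt 0).isPreconnected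
  exact hopen.is_const_of_deriv_eq_zero hpre
    (fun z (hz : 0 < z.im) => (h z hz).differentiableAt.differentiableWithinAt)
    (fun z (hz : 0 < z.im) => (h z hz).deriv) (x := z) (y := w) hz hw

/-! ### Moebius transformations -/

/-- the denominator -/
noncomputable def den (γ : SL(2, ℤ)) (z : ℂ) : ℂ := ((γ 1 0 : ℤ) : ℂ) * z + ((γ 1 1 : ℤ) : ℂ)

/-- the Moebius transformation -/
noncomputable def mob (γ : SL(2, ℤ)) (z : ℂ) : ℂ :=
  (((γ 0 0 : ℤ) : ℂ) * z + ((γ 0 1 : ℤ) : ℂ)) / den γ z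

lemma det_int (γ : SL(2, ℤ)) : γ 0 0 * γ 1 1 - γ 0 1 * γ 1 0 = 1 := by
  have h := γ.det_coe
  rw [Matrix.det_fin_two] at h
  exact h

lemma det_cplx (γ : SL(2, ℤ)) : ((γ 0 0 : ℤ) : ℂ) * ((γ 1 1 : ℤ) : ℂ) -
    ((γ 0 1 : ℤ) : ℂ) * ((γ 1 0 : ℤ) : ℂ) = 1 := by
  exact_mod_cast det_int γ

lemma den_ne {γ : SL(2, ℤ)} {z : ℂ} (hz : 0 < z.im) : den γ z ≠ 0 := by
  intro h
  unfold den at h
  have h1 := congrArg Complex.im h
  simp at h1
  have hc : γ 1 0 = 0 := by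
    rcases h1 with h1 | h1
    · exact_mod_cast h1
    · exact absurd h1 hz.ne'
  rw [hc] at h
  simp at h
  have h2 := det_int γ
  rw [hc, h] at h2
  simp at h2

lemma mob_im {γ : SL(2, ℤ)} {z : ℂ} (hz : 0 < z.im) : 0 < (mob γ z).im := by
  have h0 := den_ne (γ := γ) hz
  have h1 : (mob γ z).im = z.im / Complex.normSq (den γ z) := by
    unfold mob
    rw [Complex.div_im]
    have h2 : ((γ 0 0 : ℤ) : ℝ) * ((γ 1 1 : ℤ) : ℝ) - ((γ 0 1 : ℤ) : ℝ) * ((γ 1 0 : ℤ) : ℝ) = 1 := by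
      exact_mod_cast det_int γ
    have h3 : Complex.normSq (den γ z) ≠ 0 := fun h => h0 (Complex.normSq_eq_zero.1 h)
    have e1 : (den γ z).re = ((γ 1 0 : ℤ) : ℝ) * z.re + ((γ 1 1 : ℤ) : ℝ) := by
      unfold den; simp
    have e2 : (den γ z).im = ((γ 1 0 : ℤ) : ℝ) * z.im := by
      unfold den; simp
    rw [e1, e2]
    have e3 : (((γ 0 0 : ℤ) : ℂ) * z + ((γ 0 1 : ℤ) : ℂ)).im = ((γ 0 0 : ℤ) : ℝ) * z.im := by simp
    have e4 : (((γ 0 0 : ℤ) : ℂ) * z + ((γ 0 1 : ℤ) : ℂ)).re =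
        ((γ 0 0 : ℤ) : ℝ) * z.re + ((γ 0 1 : ℤ) : ℝ) := by simp
    rw [e3, e4]
    field_simp
    linear_combination h2
  rw [h1]
  have h3 : 0 < Complex.normSq (den γ z) := Complex.normSq_pos.2 h0
  positivity

lemma aux_div (c d u t : ℂ) (ht : t ≠ 0) : (c * (u / t) + d) * t = c * u + d * t := by
  field_simp

lemma den_mul {γ δ : SL(2, ℤ)} {z : ℂ} (hz : 0 < z.im) :
    den (γ * δ) z = den γ (mob δ z) * den δ z := by
  have h0 := den_ne (γ := δ) hz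
  unfold mob
  have e : den γ ((((δ 0 0 : ℤ) : ℂ) * z + ((δ 0 1 : ℤ) : ℂ)) / den δ z) * den δ z =
      ((γ 1 0 : ℤ) : ℂ) * (((δ 0 0 : ℤ) : ℂ) * z + ((δ 0 1 : ℤ) : ℂ)) +
        ((γ 1 1 : ℤ) : ℂ) * den δ z := aux_div _ _ _ _ h0
  rw [e]
  unfold den
  simp only [Matrix.SpecialLinearGroup.coe_mul, Matrix.mul_apply, Fin.sum_univ_two]
  push_cast
  ring

lemma mob_mul {γ δ : SL(2, ℤ)} {z : ℂ} (hz : 0 < z.im) :
    mob (γ * δ) z = mob γ (mob δ z) := by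
  have h0 := den_ne (γ := δ) hz
  have h1 := den_ne (γ := γ) (mob_im (γ := δ) hz)
  have h2 : mob (γ * δ) z = (((γ 0 0 : ℤ) : ℂ) * (((δ 0 0 : ℤ) : ℂ) * z + ((δ 0 1 : ℤ) : ℂ)) +
        ((γ 0 1 : ℤ) : ℂ) * den δ z) / (den γ (mob δ z) * den δ z) := by
    rw [← den_mul hz]
    rw [mob]
    congr 1
    unfold den
    simp only [Matrix.SpecialLinearGroup.coe_mul, Matrix.mul_apply, Fin.sum_univ_two]
    push_cast
    ring
  rw [h2]
  conv_rhs => rw [mob]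
  rw [div_eq_div_iff (mul_ne_zero h1 h0) h1]
  have e : mob δ z * den δ z = ((δ 0 0 : ℤ) : ℂ) * z + ((δ 0 1 : ℤ) : ℂ) := by
    unfold mob
    field_simp
  rw [← e]
  ring

lemma mob_one (z : ℂ) : mob 1 z = z := by
  unfold mob den
  simp

lemma mob_deriv {γ : SL(2, ℤ)} {z : ℂ} (hz : 0 < z.im) :
    HasDerivAt (mob γ) (1 / den γ z ^ 2) z := by
  have h0 := den_ne (γ := γ) hz
  have h1 : HasDerivAt (fun z : ℂ => ((γ 0 0 : ℤ) : ℂ) * z + ((γ 0 1 : ℤ) : ℂ))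
      ((γ 0 0 : ℤ) : ℂ) z := by
    simpa using ((hasDerivAt_id z).const_mul ((γ 0 0 : ℤ) : ℂ)).add_const ((γ 0 1 : ℤ) : ℂ)
  have h2 : HasDerivAt (den γ) ((γ 1 0 : ℤ) : ℂ) z := by
    show HasDerivAt (fun z : ℂ => ((γ 1 0 : ℤ) : ℂ) * z + ((γ 1 1 : ℤ) : ℂ)) _ z
    simpa using ((hasDerivAt_id z).const_mul ((γ 1 0 : ℤ) : ℂ)).add_const ((γ 1 1 : ℤ) : ℂ)
  refine (h1.div h2 h0).congr_deriv ?_
  congr 1
  unfold den
  linear_combination det_cplx γ

/-- the action on polynomials -/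
noncomputable def actG (D : ℕ) (γ : SL(2, ℤ)) : ℚ[X] →ₗ[ℚ] ℚ[X] :=
  act D (γ 0 0 : ℤ) (γ 0 1 : ℤ) (γ 1 0 : ℤ) (γ 1 1 : ℤ)

lemma actG_deg (D : ℕ) (γ : SL(2, ℤ)) (P : ℚ[X]) : (actG D γ P).natDegree ≤ D := act_deg _ _ _ _ _ _

lemma actG_eval {D : ℕ} (γ : SL(2, ℤ)) {P : ℚ[X]} (hP : P.natDegree ≤ D) {z : ℂ} (hz : 0 < z.im) :
    aeval z (actG D γ P) = den γ z ^ D * aeval (mob γ z) P := by
  unfold actG
  rw [act_eval _ _ _ _ hP (by
    have := den_ne (γ := γ) hz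
    unfold den at this
    push_cast
    exact this)]
  unfold mob den
  push_cast
  rfl

lemma actG_comp {D : ℕ} (γ δ : SL(2, ℤ)) {P : ℚ[X]} (hP : P.natDegree ≤ D) :
    actG D δ (actG D γ P) = actG D (γ * δ) P := by
  apply poly_ext
  intro z hz
  rw [actG_eval δ (actG_deg D γ P) hz, actG_eval γ hP (mob_im hz), actG_eval (γ * δ) hP hz,
    den_mul hz, mob_mul hz, mul_pow]
  ring

lemma actG_one {D : ℕ} {P : ℚ[X]} (hP : P.natDegree ≤ D) : actG D 1 P = P := by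
  apply poly_ext
  intro z hz
  rw [actG_eval 1 hP hz, mob_one]
  have : den 1 z = 1 := by unfold den; simp
  rw [this]
  simp

/-- the basic relation for a matrix -/
lemma slash_const {D : ℕ} {b : ℕ → ℂ} (hb : Bd b) {γ : SL(2, ℤ)} {ν : ℂ}
    (h : ∀ z : ℂ, 0 < z.im → Q b (mob γ z) = ν * den γ z ^ (D + 2) * Q b z) {P : ℚ[X]}
    (hP : P.natDegree ≤ D) {z w : ℂ} (hz : 0 < z.im) (hw : 0 < w.im) :
    E D b P (mob γ z) - ν * E D b (actG D γ P) z = E D b P (mob γ w) - ν * E D b (actG D γ P) w := by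
  refine const_of_deriv (g := fun z => E D b P (mob γ z) - ν * E D b (actG D γ P) z) ?_ hz hw
  intro z hz
  have h1 := (E_deriv hb hP (mob_im (γ := γ) hz)).comp z (mob_deriv (γ := γ) hz)
  have h2 := (E_deriv hb (actG_deg D γ P) hz).const_mul ν
  refine (h1.sub h2).congr_deriv ?_
  rw [h z hz, actG_eval γ hP hz]
  have h0 := den_ne (γ := γ) hz
  rw [pow_add]
  field_simp
  ring

/-- matrices with all periods in `W` -/
def Good (D : ℕ) (b : ℕ → ℂ) (W : Submodule ℚ ℂ) (M0 : ℕ) (γ : SL(2, ℤ)) : Prop :=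
  ∃ ν : ℂ, ν ^ M0 = 1 ∧ ∀ P : ℚ[X], P.natDegree ≤ D → ∃ w ∈ W, ∀ z : ℂ, 0 < z.im →
    E D b P (mob γ z) = ν * E D b (actG D γ P) z + w

lemma good_one (D : ℕ) (b : ℕ → ℂ) (W : Submodule ℚ ℂ) (M0 : ℕ) : Good D b W M0 1 := by
  refine ⟨1, one_pow _, fun P hP => ⟨0, W.zero_mem, fun z hz => ?_⟩⟩
  rw [mob_one, actG_one hP]
  ring

lemma good_mul {D : ℕ} {b : ℕ → ℂ} {W : Submodule ℚ ℂ} {M0 : ℕ}
    (hW : ∀ ν : ℂ, ν ^ M0 = 1 → ∀ w ∈ W, ν * w ∈ W) {γ δ : SL(2, ℤ)} (hγ : Good D b W M0 γ)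
    (hδ : Good D b W M0 δ) : Good D b W M0 (γ * δ) := by
  obtain ⟨ν, hν, h⟩ := hγ
  obtain ⟨μ, hμ, h'⟩ := hδ
  refine ⟨ν * μ, by rw [mul_pow, hν, hμ, one_mul], fun P hP => ?_⟩
  obtain ⟨w, hw, e⟩ := h P hP
  obtain ⟨w', hw', e'⟩ := h' (actG D γ P) (actG_deg D γ P)
  refine ⟨ν * w' + w, W.add_mem (hW ν hν w' hw') hw, fun z hz => ?_⟩
  rw [mob_mul hz, e _ (mob_im hz), e' z hz, actG_comp γ δ hP]
  ring

lemma good_inv {D : ℕ} {b : ℕ → ℂ} {W : Submodule ℚ ℂ} {M0 : ℕ} (hM0 : M0 ≠ 0)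
    (hW : ∀ ν : ℂ, ν ^ M0 = 1 → ∀ w ∈ W, ν * w ∈ W) {γ : SL(2, ℤ)} (hγ : Good D b W M0 γ) :
    Good D b W M0 γ⁻¹ := by
  obtain ⟨ν, hν, h⟩ := hγ
  have hν0 : ν ≠ 0 := by
    rintro rfl
    rw [zero_pow hM0] at hν
    exact zero_ne_one hν
  have hνi : ν⁻¹ ^ M0 = 1 := by rw [inv_pow, hν, inv_one]
  refine ⟨ν⁻¹, hνi, fun P hP => ?_⟩
  obtain ⟨w, hw, e⟩ := h (actG D γ⁻¹ P) (actG_deg D γ⁻¹ P)
  refine ⟨-(ν⁻¹ * w), W.neg_mem (hW _ hνi w hw), fun z hz => ?_⟩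
  have e1 := e _ (mob_im (γ := γ⁻¹) hz)
  rw [← mob_mul hz, mul_inv_cancel, mob_one, actG_comp _ _ hP, inv_mul_cancel, actG_one hP] at e1
  rw [e1]
  field_simp
  ring

/-- closure -/
lemma good_closure {D : ℕ} {b : ℕ → ℂ} {W : Submodule ℚ ℂ} {M0 : ℕ} (hM0 : M0 ≠ 0)
    (hW : ∀ ν : ℂ, ν ^ M0 = 1 → ∀ w ∈ W, ν * w ∈ W) {S : Set SL(2, ℤ)}
    (hS : ∀ γ ∈ S, Good D b W M0 γ) {γ : SL(2, ℤ)} (hγ : γ ∈ Subgroup.closure S) :
    Good D b W M0 γ :=
  Subgroup.closure_induction (p := fun γ _ => Good D b W M0 γ) hS (good_one D b W M0)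
    (fun _ _ _ _ h h' => good_mul hW h h') (fun _ _ h => good_inv hM0 hW h) hγ

/-- a finitely generated space containing a finite set, stable under roots of unity -/
lemma exists_W (M0 : ℕ) (hM0 : 0 < M0) (G : Finset ℂ) : ∃ W : Submodule ℚ ℂ, W.FG ∧
    (∀ g ∈ G, g ∈ W) ∧ ∀ ν : ℂ, ν ^ M0 = 1 → ∀ w ∈ W, ν * w ∈ W := by
  classical
  set R : Finset ℂ := Polynomial.nthRootsFinset M0 (1 : ℂ) with hR
  have hmem : ∀ ν : ℂ, ν ∈ R ↔ ν ^ M0 = 1 := fun ν => Polynomial.mem_nthRootsFinset hM0 1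
  set S : Set ℂ := {x | ∃ ζ ∈ R, ∃ g ∈ G, x = ζ * g} with hS
  have hfin : S.Finite := by
    refine ((R ×ˢ G).image (fun p : ℂ × ℂ => p.1 * p.2)).finite_toSet.subset ?_
    rintro x ⟨ζ, hζ, g, hg, rfl⟩
    simp only [Finset.coe_image, Set.mem_image, Finset.mem_coe, Finset.mem_product, Prod.exists]
    exact ⟨ζ, g, ⟨hζ, hg⟩, rfl⟩
  refine ⟨Submodule.span ℚ S, Submodule.fg_span hfin, ?_, ?_⟩
  · intro g hg
    exact Submodule.subset_span ⟨1, (hmem 1).2 (one_pow _), g, hg, (one_mul g).symm⟩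
  · intro ν hν w hw
    have h1 : Submodule.span ℚ S ≤ (Submodule.span ℚ S).comap (LinearMap.mulLeft ℚ ν) := by
      rw [Submodule.span_le]
      rintro x ⟨ζ, hζ, g, hg, rfl⟩
      refine Submodule.subset_span ⟨ν * ζ, (hmem _).2 ?_, g, hg, ?_⟩
      · rw [mul_pow, hν, (hmem ζ).1 hζ, one_mul]
      · show ν * (ζ * g) = _
        ring
    exact h1 hw

/-! ### the Fricke involution -/

lemma fr_im {N : ℕ} (hN : 0 < N) {z : ℂ} (hz : 0 < z.im) : 0 < (-1 / ((N : ℂ) * z)).im := by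
  have hN' : (0 : ℝ) < N := by exact_mod_cast hN
  rw [Complex.div_im]
  have h1 : ((N : ℂ) * z).im = N * z.im := by simp
  have h2 : ((N : ℂ) * z).re = N * z.re := by simp
  have h3 : 0 < Complex.normSq ((N : ℂ) * z) := by
    apply Complex.normSq_pos.2
    intro h
    have := congrArg Complex.im h
    rw [h1] at this
    simp at this
    rcases this with h | h
    · exact hN.ne' h
    · exact hz.ne' h
  have h4 : (-1 : ℂ).im = 0 := by simp
  have h5 : (-1 : ℂ).re = -1 := by simp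
  rw [h1, h2, h4, h5, zero_mul, zero_div, zero_sub, neg_mul, one_mul, neg_div, neg_neg]
  positivity

/-- the action of the Fricke involution on polynomials -/
noncomputable def actF (D N : ℕ) : ℚ[X] →ₗ[ℚ] ℚ[X] := act D 0 (-1 / (N : ℚ)) 1 0

lemma fricke_const {D N : ℕ} (hN : 0 < N) {b b' : ℕ → ℂ} (hb : Bd b) (hb' : Bd b') {c1 : ℂ}
    (h : ∀ z : ℂ, 0 < z.im → Q b (-1 / ((N : ℂ) * z)) = c1 * z ^ (D + 2) * Q b' z) {P : ℚ[X]}
    (hP : P.natDegree ≤ D) {z w : ℂ} (hz : 0 < z.im) (hw : 0 < w.im) :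
    E D b P (-1 / ((N : ℂ) * z)) - c1 / N * E D b' (actF D N P) z =
      E D b P (-1 / ((N : ℂ) * w)) - c1 / N * E D b' (actF D N P) w := by
  refine const_of_deriv (g := fun z => E D b P (-1 / ((N : ℂ) * z)) -
    c1 / N * E D b' (actF D N P) z) ?_ hz hw
  intro z hz
  have hN' : (N : ℂ) ≠ 0 := by exact_mod_cast hN.ne'
  have hz0 : z ≠ 0 := by
    rintro rfl
    simp at hz
  have hm : HasDerivAt (fun z : ℂ => -1 / ((N : ℂ) * z)) (1 / (N * z ^ 2)) z := by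
    have h1 : HasDerivAt (fun z : ℂ => (N : ℂ) * z) (N : ℂ) z := by
      simpa using (hasDerivAt_id z).const_mul (N : ℂ)
    refine ((hasDerivAt_const z (-1 : ℂ)).div h1 (mul_ne_zero hN' hz0)).congr_deriv ?_
    field_simp
    ring
  have h1 := (E_deriv hb hP (fr_im hN hz)).comp z hm
  have h2 := (E_deriv hb' (act_deg D 0 (-1 / (N : ℚ)) 1 0 P) hz).const_mul (c1 / N)
  refine (h1.sub h2).congr_deriv ?_
  rw [h z hz]
  have h3 := act_eval (D := D) 0 (-1 / (N : ℚ)) 1 0 hP (z := z) (by push_cast; simpa using hz0)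
  rw [h3]
  have e1 : ((((0 : ℚ) : ℂ)) * z + ((-1 / (N : ℚ) : ℚ) : ℂ)) / ((((1 : ℚ) : ℂ)) * z + ((0 : ℚ) : ℂ)) =
      -1 / ((N : ℂ) * z) := by
    push_cast
    rw [zero_mul, zero_add, one_mul, add_zero, div_div]
  have e2 : (((1 : ℚ) : ℂ)) * z + ((0 : ℚ) : ℂ) = z := by push_cast; ring
  rw [e1, e2, pow_add]
  field_simp
  ring

end Pool.Agent.X284.KS
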