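import Pool.Agent.W192.CY.Stneb
import Pool.Agent.W804.CY.NCoef
import Pool.Agent.W216.CY.Div

/-!
Dirichlet series of newforms with nebentypus: convergence, Euler product, lower bound.
-/

set_option autoImplicit false

open Complex Filter Topology Set

namespace Pool.Agent.X284.KS

open Pool.Agent.W192.CY

/-! ### Euler products -/

/-- the Euler product of a multiplicative function with a recursion of order two -/
lemma euler_gen (g y : ℕ → ℂ) (h0 : g 0 = 0) (h1 : g 1 = 1)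
    (hmul : ∀ a b : ℕ, Nat.Coprime a b → g (a * b) = g a * g b)
    (hrec : ∀ p j : ℕ, p.Prime → g (p ^ (j + 2)) = g p * g (p ^ (j + 1)) - y p * g (p ^ j))
    (hs : Summable (fun n => ‖g n‖)) :
    HasProd (fun p : Nat.Primes => (1 - g p + y p)⁻¹) (∑' n, g n) := by
  have h := EulerProduct.eulerProduct_hasProd h1 (fun {m n} hmn => hmul m n hmn) hs h0
  refine h.congr_fun ?_
  intro p
  have hp := p.2
  have hsp : Summable (fun e : ℕ => g ((p : ℕ) ^ e)) := by
    have h2 := hs.comp_injective (Nat.pow_right_injective hp.two_le)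
    exact Summable.of_norm h2
  set S := ∑' e : ℕ, g ((p : ℕ) ^ e) with hS
  have e1 : S = g 1 + ∑' e : ℕ, g ((p : ℕ) ^ (e + 1)) := by
    rw [hS, hsp.tsum_eq_zero_add]
    simp
  have hsp1 : Summable (fun e : ℕ => g ((p : ℕ) ^ (e + 1))) :=
    (summable_nat_add_iff 1).2 hsp
  have e2 : ∑' e : ℕ, g ((p : ℕ) ^ (e + 1)) = g p + ∑' e : ℕ, g ((p : ℕ) ^ (e + 2)) := by
    rw [hsp1.tsum_eq_zero_add]
    simp
  have e3 : ∑' e : ℕ, g ((p : ℕ) ^ (e + 2)) = g p * (S - 1) - y p * S := by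
    have e4 : ∀ e : ℕ, g ((p : ℕ) ^ (e + 2)) = g p * g ((p : ℕ) ^ (e + 1)) -
        y p * g ((p : ℕ) ^ e) := fun e => hrec p e hp
    simp only [e4]
    rw [Summable.tsum_sub (hsp1.mul_left _) (hsp.mul_left _), tsum_mul_left, tsum_mul_left, ← hS]
    congr 2
    rw [e1, h1]
    ring
  have e5 : S * (1 - g p + y p) = 1 := by
    have : S = 1 + (g p + (g p * (S - 1) - y p * S)) := by
      rw [← e3, ← e2, ← h1]
      exact e1
    linear_combination this
  exact (eq_inv_of_mul_eq_one_left e5).symm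

/-! ### summability -/

lemma tau_sum {r : ℝ} (hr : r < -1) : Summable (fun n : ℕ => (n.divisors.card : ℝ) * (n : ℝ) ^ r) := by
  obtain ⟨C, hC, hC1, -⟩ := Pool.Agent.W216.CY.t_div ((-1 - r) / 2) (by linarith)
  have h1 : Summable (fun n : ℕ => C * (n : ℝ) ^ ((r - 1) / 2)) :=
    (Real.summable_nat_rpow.2 (by linarith)).mul_left _
  refine Summable.of_nonneg_of_le (fun n => by positivity) (fun n => ?_) h1
  rcases Nat.eq_zero_or_pos n with rfl | hn
  · simp only [Nat.divisors_zero, Finset.card_empty, Nat.cast_zero, zero_mul]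
    positivity
  · have hn' : (0 : ℝ) < n := by exact_mod_cast hn
    calc (n.divisors.card : ℝ) * (n : ℝ) ^ r ≤ (C * (n : ℝ) ^ ((-1 - r) / 2)) * (n : ℝ) ^ r := by
          gcongr
          exact hC1 n hn
      _ = C * ((n : ℝ) ^ ((-1 - r) / 2) * (n : ℝ) ^ r) := by ring
      _ = _ := by
          rw [← Real.rpow_add hn']
          congr 2
          ring

lemma sqrt_rpow {n : ℕ} (hn : 1 ≤ n) (r : ℝ) : Real.sqrt n * (n : ℝ) ^ r = (n : ℝ) ^ (r + 1 / 2) := by
  have hn' : (0 : ℝ) < n := by exact_mod_cast hn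
  rw [Real.sqrt_eq_rpow, ← Real.rpow_add hn', add_comm]

/-- summability for the normalised coefficients -/
lemma summ_c2 {c : ℕ → ℂ} (h0 : c 0 = 0)
    (hc : ∀ n : ℕ, 1 ≤ n → ‖c n‖ ≤ n.divisors.card * Real.sqrt n) {q : ℕ}
    (χ : DirichletCharacter ℂ q) {s : ℂ} (hs : 3 / 2 < s.re) :
    Summable (fun n : ℕ => ‖χ (n : ZMod q) * c n * (n : ℂ) ^ (-s)‖) ∧
      ∑' n : ℕ, ‖χ (n : ZMod q) * c n * (n : ℂ) ^ (-s)‖ ≤
        ∑' n : ℕ, (n.divisors.card : ℝ) * (n : ℝ) ^ (1 / 2 - s.re) := by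
  have hb : ∀ n : ℕ, ‖χ (n : ZMod q) * c n * (n : ℂ) ^ (-s)‖ ≤
      (n.divisors.card : ℝ) * (n : ℝ) ^ (1 / 2 - s.re) := by
    intro n
    rcases Nat.eq_zero_or_pos n with rfl | hn
    · rw [h0]; simp
    · have hn' : (0 : ℝ) < n := by exact_mod_cast hn
      rw [norm_mul, norm_mul]
      have e : ‖(n : ℂ) ^ (-s)‖ = (n : ℝ) ^ (-s.re) := by
        have := Complex.norm_cpow_eq_rpow_re_of_pos hn' (-s)
        rw [Complex.neg_re] at this
        exact_mod_cast this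
      rw [e]
      calc ‖χ (n : ZMod q)‖ * ‖c n‖ * (n : ℝ) ^ (-s.re) ≤
            1 * (n.divisors.card * Real.sqrt n) * (n : ℝ) ^ (-s.re) := by
            have h1 := χ.norm_le_one (n : ZMod q)
            have h2 := hc n hn
            gcongr
        _ = n.divisors.card * (Real.sqrt n * (n : ℝ) ^ (-s.re)) := by ring
        _ = _ := by
            rw [sqrt_rpow hn]
            congr 2
            ring
  have hS := tau_sum (r := 1 / 2 - s.re) (by linarith)
  have h1 := Summable.of_nonneg_of_le (fun n => norm_nonneg _) hb hS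
  exact ⟨h1, Summable.tsum_le_tsum hb h1 hS⟩

/-! ### lower bound -/

/-- lower bound for the Dirichlet series at `5 / 2` -/
lemma inv_lower {c μ : ℕ → ℂ} (h : NInv c μ) : ∃ B : ℝ, 1 ≤ B ∧
    ∀ (q : ℕ) (χ : DirichletCharacter ℂ q),
      B⁻¹ ≤ ‖∑' n : ℕ, χ (n : ZMod q) * c n * (n : ℂ) ^ (-(5 / 2 : ℂ))‖ := by
  have hre : (5 / 2 : ℂ).re = 5 / 2 := by norm_num
  set B : ℝ := 1 + ∑' n : ℕ, (n.divisors.card : ℝ) * (n : ℝ) ^ (1 / 2 - (5 / 2 : ℂ).re) with hB
  have hB0 : 0 ≤ ∑' n : ℕ, (n.divisors.card : ℝ) * (n : ℝ) ^ (1 / 2 - (5 / 2 : ℂ).re) :=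
    tsum_nonneg fun n => by positivity
  refine ⟨B, by rw [hB]; linarith, fun q χ => ?_⟩
  set μ' : ℕ → ℂ := fun n => if n = 0 then 0 else μ n with hμ'
  have hμ0 : μ' 0 = 0 := by simp [hμ']
  have hμn : ∀ n : ℕ, 1 ≤ n → μ' n = μ n := fun n hn => by
    simp [hμ', show n ≠ 0 by omega]
  have hμb : ∀ n : ℕ, 1 ≤ n → ‖μ' n‖ ≤ n.divisors.card * Real.sqrt n := fun n hn => by
    rw [hμn n hn]
    exact h.mle n hn
  have s1 := summ_c2 h.zero h.cle χ (s := 5 / 2) (by rw [hre]; norm_num)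
  have s2 := summ_c2 hμ0 hμb χ (s := 5 / 2) (by rw [hre]; norm_num)
  set f1 : ℕ → ℂ := fun n => χ (n : ZMod q) * c n with hf1
  set f2 : ℕ → ℂ := fun n => χ (n : ZMod q) * μ' n with hf2
  have hterm : ∀ (f : ℕ → ℂ), f 0 = 0 → ∀ n, LSeries.term f (5 / 2) n =
      f n * (n : ℂ) ^ (-(5 / 2 : ℂ)) := by
    intro f hf n
    unfold LSeries.term
    split_ifs with h0
    · rw [h0, hf]; ring
    · rw [Complex.cpow_neg, div_eq_mul_inv]
  have g1 : f1 0 = 0 := by simp only [hf1]; rw [h.zero, mul_zero]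
  have g2 : f2 0 = 0 := by simp only [hf2]; rw [hμ0, mul_zero]
  have L1 : LSeries f1 (5 / 2) = ∑' n : ℕ, f1 n * (n : ℂ) ^ (-(5 / 2 : ℂ)) :=
    tsum_congr fun n => hterm f1 g1 n
  have L2 : LSeries f2 (5 / 2) = ∑' n : ℕ, f2 n * (n : ℂ) ^ (-(5 / 2 : ℂ)) :=
    tsum_congr fun n => hterm f2 g2 n
  have S1 : LSeriesSummable f1 (5 / 2) := (s1.1.of_norm).congr fun n => (hterm f1 g1 n).symm
  have S2 : LSeriesSummable f2 (5 / 2) := (s2.1.of_norm).congr fun n => (hterm f2 g2 n).symm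
  have hconv := LSeries_convolution' S2 S1
  have hdelta : LSeries (LSeries.convolution f2 f1) (5 / 2) = 1 := by
    have h1 : ∀ n : ℕ, n ≠ 0 → LSeries.convolution f2 f1 n = if n = 1 then 1 else 0 := by
      intro n hn
      rw [LSeries.convolution_def]
      have h2 := h.inv n (by omega)
      have h3 : ∑ p ∈ n.divisorsAntidiagonal, f2 p.1 * f1 p.2 =
          χ (n : ZMod q) * ∑ x ∈ n.divisorsAntidiagonal, μ x.1 * c x.2 := by
        rw [Finset.mul_sum]
        refine Finset.sum_congr rfl fun x hx => ?_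
        obtain ⟨hx1, hx2⟩ := Nat.mem_divisorsAntidiagonal.1 hx
        have hx0 : x.1 ≠ 0 := by
          intro h0
          rw [h0, zero_mul] at hx1
          exact hx2 hx1.symm
        simp only [hf1, hf2]
        rw [hμn x.1 (by omega), ← hx1, Nat.cast_mul, map_mul]
        ring
      show ∑ p ∈ n.divisorsAntidiagonal, f2 p.1 * f1 p.2 = _
      rw [h3, h2]
      by_cases h4 : n = 1
      · rw [if_pos h4, h4]; simp
      · rw [if_neg h4, mul_zero]
    unfold LSeries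
    rw [tsum_eq_single 1]
    · rw [LSeries.term_of_ne_zero one_ne_zero, h1 1 one_ne_zero, if_pos rfl]
      simp
    · intro n hn
      unfold LSeries.term
      split_ifs with h0
      · rfl
      · rw [h1 n h0, if_neg hn, zero_div]
  rw [hdelta, L1, L2] at hconv
  have hn1 := congrArg norm hconv
  rw [norm_one, norm_mul] at hn1
  have hM : ‖∑' n : ℕ, f2 n * (n : ℂ) ^ (-(5 / 2 : ℂ))‖ ≤ B := by
    refine (norm_tsum_le_tsum_norm s2.1).trans (s2.2.trans ?_)
    rw [hB]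
    linarith
  have hBpos : 0 < B := by rw [hB]; linarith
  rw [inv_le_iff_one_le_mul₀ hBpos, hn1]
  rw [mul_comm]
  exact mul_le_mul_of_nonneg_left hM (norm_nonneg _)

/-! ### newforms -/

variable {N : ℕ}

lemma cf_zero {k : ℤ} (f : CuspForm (CongruenceSubgroup.Gamma1 N : Subgroup (GL (Fin 2) ℝ)) k) :
    cf f 0 = 0 := Pool.Agent.W804.CY.coeff_zeroC f

/-- the relation to the normalised coefficients -/
lemma cf_eq {m : ℕ} {f : CuspForm (CongruenceSubgroup.Gamma1 N : Subgroup (GL (Fin 2) ℝ))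
    (2 * m : ℤ)} {n : ℕ} (hn : 1 ≤ n) :
    cf f n = (cf f n / (n : ℂ) ^ (m - 1)) * (n : ℂ) ^ (m - 1) := by
  have hn' : (n : ℂ) ≠ 0 := by exact_mod_cast (by omega : n ≠ 0)
  field_simp

/-- change of normalisation in a Dirichlet series -/
lemma term_eq {m : ℕ} (hm : 1 ≤ m) {f : CuspForm (CongruenceSubgroup.Gamma1 N : Subgroup (GL (Fin 2) ℝ))
    (2 * m : ℤ)} (z : ℂ) (n : ℕ) (s : ℂ) :
    z * cf f n * (n : ℂ) ^ (-s) =
      z * (cf f n / (n : ℂ) ^ (m - 1)) * (n : ℂ) ^ (-(s - (m - 1 : ℂ))) := by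
  rcases Nat.eq_zero_or_pos n with rfl | hn
  · rw [cf_zero]; simp
  · have hn' : (n : ℂ) ≠ 0 := by exact_mod_cast hn.ne'
    have e : (n : ℂ) ^ (-(s - (m - 1 : ℂ))) = (n : ℂ) ^ (-s) * (n : ℂ) ^ (m - 1) := by
      rw [← Complex.cpow_natCast, ← Complex.cpow_add _ _ hn']
      congr 1
      push_cast [Nat.cast_sub hm]
      ring
    rw [e]
    field_simp

theorem n_eul : N_EUL := by
  intro m hm N _ η f w hf q χ s hs
  obtain ⟨μ, hμ⟩ := Pool.Agent.W804.CY.n_coef m hm N η f w hf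
  have hre : (s - (m - 1 : ℂ)).re = s.re - (m - 1) := by
    rw [Complex.sub_re, Complex.sub_re, Complex.natCast_re, Complex.one_re]
  have h1 := (summ_c2 hμ.zero hμ.cle χ (s := s - (m - 1 : ℂ)) (by rw [hre]; linarith)).1
  have h2 : Summable (fun n : ℕ => ‖χ (n : ZMod q) * cf f n * (n : ℂ) ^ (-s)‖) :=
    h1.congr fun n => by rw [term_eq hm]
  refine ⟨h2, ?_⟩
  have h3 := euler_gen (fun n => χ (n : ZMod q) * cf f n * (n : ℂ) ^ (-s))
    (fun p => χ ((p : ℕ) : ZMod q) ^ 2 * η ((p : ℕ) : ZMod N) *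
        ((p : ℕ) : ℂ) ^ (2 * (m : ℂ) - 1 - 2 * s)) (by simp [cf_zero]) (by
      simp [hf.one]) (by
      intro a b hab
      rw [hf.mul a b hab, Nat.cast_mul, map_mul, Nat.cast_mul, Complex.natCast_mul_natCast_cpow]
      ring) (by
      intro p j hp
      have hp0 : (p : ℂ) ≠ 0 := by exact_mod_cast hp.ne_zero
      rw [hf.pow p j hp]
      have e0 : ∀ i : ℕ, χ ((p ^ i : ℕ) : ZMod q) = χ (p : ZMod q) ^ i := by
        intro i
        rw [Nat.cast_pow, map_pow]
      have e1 : ∀ i : ℕ, ((p ^ i : ℕ) : ℂ) ^ (-s) = ((p : ℂ) ^ (-s)) ^ i := by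
        intro i
        rw [Nat.cast_pow, ← Complex.natCast_cpow_natCast_mul, mul_comm,
          Complex.cpow_mul_nat]
      have e2 : ((p : ℕ) : ℂ) ^ (2 * (m : ℂ) - 1 - 2 * s) = (p : ℂ) ^ (2 * m - 1) *
          ((p : ℂ) ^ (-s)) ^ 2 := by
        rw [← Complex.cpow_nat_mul, ← Complex.cpow_natCast, ← Complex.cpow_add _ _ hp0]
        congr 1
        push_cast [Nat.cast_sub (show 1 ≤ 2 * m by omega)]
        ring
      simp only [e0, e1, e2]
      ring) h2
  refine h3.congr_fun ?_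
  intro p
  rfl

end Pool.Agent.X284.KS
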