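import Pool.Agent.W165.CE.Euler
import Pool.Agent.X284.KS.EulN

/-!
The Euler product over the primes of the cyclotomic field of level `q` of the product over the
characters modulo `q` of a degree two Euler product.  Adapted from `Pool.Agent.W165.CE.Euler`.
-/

set_option autoImplicit false

namespace Pool.Agent.X284.KS

open NumberField IsDedekindDomain Filter
open Pool.Agent.H921R2.TatePole
open Pool.Agent.H82R3.EK (deg_and_count prod_prim nm_cpow prime_cpow)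
open W165.CE (prod_quad')

/-- the power sum `α ^ n + β ^ n` of the roots `α`, `β` of `X ^ 2 - t X + u` -/
noncomputable def pws (t u : ℂ) : ℕ → ℂ
  | 0 => 2
  | 1 => t
  | n + 2 => t * pws t u (n + 1) - u * pws t u n

lemma pws_eq (t u : ℂ) : ∀ n : ℕ, pws t u n = W165.CE.pw t u n
  | 0 => rfl
  | 1 => rfl
  | n + 2 => by
    rw [pws, W165.CE.pw, pws_eq t u (n + 1), pws_eq t u n]

section
variable {K : Type} [Field K] [NumberField K]

/-- the local factor at a prime `v` of `K` of norm `p ^ d`: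
`(1 - (α ^ d + β ^ d) (Nv)^(-s) + (α β) ^ d (Nv)^(-2s))⁻¹`, where `α`, `β` are the roots of
`X ^ 2 - t(p) X + u(p)` -/
noncomputable def lf (t u : ℕ → ℂ) (s : ℂ) (v : HeightOneSpectrum (𝓞 K)) : ℂ :=
  (1 - pws (t (Ideal.absNorm v.asIdeal).minFac) (u (Ideal.absNorm v.asIdeal).minFac)
      ((Ideal.absNorm v.asIdeal).factorization (Ideal.absNorm v.asIdeal).minFac) *
        ((Ideal.absNorm v.asIdeal : ℕ) : ℂ) ^ (-s) +
    u (Ideal.absNorm v.asIdeal).minFac ^
      ((Ideal.absNorm v.asIdeal).factorization (Ideal.absNorm v.asIdeal).minFac) *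
      ((Ideal.absNorm v.asIdeal : ℕ) : ℂ) ^ (-2 * s))⁻¹

lemma lf_eq (t u : ℕ → ℂ) (v : HeightOneSpectrum (𝓞 K)) (s : ℂ) :
    lf t u s v = (1 - W165.CE.pw (t (below v)) (u (below v)) (deg v) *
        (((below v : ℕ) : ℂ) ^ (-s)) ^ deg v +
      u (below v) ^ deg v * (((below v : ℕ) : ℂ) ^ (-s)) ^ (2 * deg v))⁻¹ := by
  have hb : (Ideal.absNorm v.asIdeal).minFac = (below v : ℕ) := rfl
  have hd : (Ideal.absNorm v.asIdeal).factorization (Ideal.absNorm v.asIdeal).minFac = deg v := rfl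
  have h2 : ((Ideal.absNorm v.asIdeal : ℕ) : ℂ) ^ (-2 * s) =
      (((below v : ℕ) : ℂ) ^ (-s)) ^ (2 * deg v) := by
    rw [show -2 * s = ((2 : ℕ) : ℂ) * (-s) by push_cast; ring, Complex.cpow_nat_mul, nm_cpow,
      ← pow_mul, mul_comm]
  unfold lf
  rw [hd, hb, pws_eq, h2, nm_cpow]

variable (K) in
/-- the residue degrees are at most `q` -/
lemma deg_le (q : ℕ) [NeZero q] [IsCyclotomicExtension {q} ℚ K] (v : HeightOneSpectrum (𝓞 K)) :
    deg v ≤ q := by
  obtain ⟨k, m, hm, hqm⟩ := Nat.exists_eq_pow_mul_and_not_dvd (NeZero.ne q) (below v : ℕ)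
    (below v).2.ne_one
  have : NeZero m := ⟨by rintro rfl; exact hm (dvd_zero _)⟩
  rw [(deg_and_count K q (below v) m k hqm hm).1 v rfl]
  have hu : IsUnit (((below v : ℕ) : ℕ) : ZMod m) :=
    (ZMod.isUnit_iff_coprime (below v : ℕ) m).2 ((Nat.Prime.coprime_iff_not_dvd (below v).2).2 hm)
  obtain ⟨w, hw⟩ := hu
  rw [← hw, orderOf_units]
  have h1 : orderOf w ≤ Nat.totient m := by
    have h2 := orderOf_dvd_card (x := w)
    rw [ZMod.card_units_eq_totient] at h2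
    exact Nat.le_of_dvd (Nat.totient_pos.2 (Nat.pos_of_ne_zero (NeZero.ne m))) h2
  refine h1.trans ((Nat.totient_le m).trans ?_)
  rw [hqm]
  exact Nat.le_mul_of_pos_left m (pow_pos (below v).2.pos k)

/-- growth of the local parameters -/
structure Gr (ρ A : ℝ) (t u : ℕ → ℂ) : Prop where
  pos : 0 ≤ A
  pw : ∀ p d : ℕ, p.Prime → 1 ≤ d → ‖pws (t p) (u p) d‖ ≤ A * d * (p : ℝ) ^ (ρ * d)
  u : ∀ p : ℕ, p.Prime → ‖u p‖ ≤ (p : ℝ) ^ (2 * ρ)

lemma lf_sub_bound {ρ A : ℝ} {t u : ℕ → ℂ} (h : Gr ρ A t u) (v : HeightOneSpectrum (𝓞 K)) {D : ℕ}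
    (hD : deg v ≤ D) (s : ℂ) (hs : ρ + 1 < s.re)
    (hsmall : (nm v : ℝ) ^ (-(s.re - ρ)) ≤ (2 * (A * D + 1))⁻¹) :
    ‖lf t u s v - 1‖ ≤ 2 * (A * D + 1) * (nm v : ℝ) ^ (-(s.re - ρ)) := by
  have hA := h.pos
  have hb : (Ideal.absNorm v.asIdeal).minFac = (below v : ℕ) := rfl
  have hd : (Ideal.absNorm v.asIdeal).factorization (Ideal.absNorm v.asIdeal).minFac = deg v := rfl
  have hdeg : 1 ≤ deg v := (nm_eq v).2.1
  have hnm : (nm v : ℝ) = ((below v : ℕ) : ℝ) ^ deg v := by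
    exact_mod_cast (nm_eq v).1
  have hp0 : (0 : ℝ) < (below v : ℕ) := by exact_mod_cast (below v).2.pos
  have hn0 : (0 : ℝ) < nm v := by
    have := two_le_nm v
    exact_mod_cast (by omega : 0 < nm v)
  have hn1 : (1 : ℝ) ≤ nm v := by
    have := two_le_nm v
    exact_mod_cast (by omega : 1 ≤ nm v)
  set w : ℝ := (nm v : ℝ) ^ (-(s.re - ρ)) with hw
  have hw0 : 0 ≤ w := by rw [hw]; positivity
  have e1 : ‖((Ideal.absNorm v.asIdeal : ℕ) : ℂ) ^ (-s)‖ = (nm v : ℝ) ^ (-s.re) := by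
    have := Complex.norm_natCast_cpow_of_pos (n := nm v) (by exact_mod_cast hn0) (-s)
    rw [Complex.neg_re] at this
    exact this
  have e2 : ‖((Ideal.absNorm v.asIdeal : ℕ) : ℂ) ^ (-2 * s)‖ = (nm v : ℝ) ^ (-2 * s.re) := by
    have := Complex.norm_natCast_cpow_of_pos (n := nm v) (by exact_mod_cast hn0) (-2 * s)
    have h2 : (-2 * s).re = -2 * s.re := by simp
    rw [h2] at this
    exact this
  have hpr : ∀ r : ℝ, ((below v : ℕ) : ℝ) ^ (r * deg v) = (nm v : ℝ) ^ r := by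
    intro r
    rw [hnm, ← Real.rpow_natCast, ← Real.rpow_mul hp0.le, mul_comm]
  unfold lf
  rw [hd, hb]
  set x : ℂ := -(pws (t (below v)) (u (below v)) (deg v) *
    ((Ideal.absNorm v.asIdeal : ℕ) : ℂ) ^ (-s)) +
    u (below v) ^ deg v * ((Ideal.absNorm v.asIdeal : ℕ) : ℂ) ^ (-2 * s) with hx
  have hx1 : ‖x‖ ≤ (A * D + 1) * w := by
    have h1 : ‖pws (t (below v)) (u (below v)) (deg v) *
        ((Ideal.absNorm v.asIdeal : ℕ) : ℂ) ^ (-s)‖ ≤ A * D * w := by
      rw [norm_mul, e1]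
      have h2 := h.pw (below v) (deg v) (below v).2 hdeg
      rw [hpr] at h2
      have h3 : (deg v : ℝ) ≤ D := by exact_mod_cast hD
      calc ‖pws (t (below v)) (u (below v)) (deg v)‖ * (nm v : ℝ) ^ (-s.re) ≤
            (A * deg v * (nm v : ℝ) ^ ρ) * (nm v : ℝ) ^ (-s.re) :=
            mul_le_mul_of_nonneg_right h2 (by positivity)
        _ = A * deg v * ((nm v : ℝ) ^ ρ * (nm v : ℝ) ^ (-s.re)) := by ring
        _ = A * deg v * w := by
            rw [hw, ← Real.rpow_add hn0]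
            congr 2
            ring
        _ ≤ A * D * w := by gcongr
    have h2 : ‖u (below v) ^ deg v * ((Ideal.absNorm v.asIdeal : ℕ) : ℂ) ^ (-2 * s)‖ ≤ w := by
      rw [norm_mul, e2, norm_pow]
      have h3 := h.u (below v) (below v).2
      have h4 : ‖u (below v)‖ ^ deg v ≤ (nm v : ℝ) ^ (2 * ρ) := by
        refine (pow_le_pow_left₀ (norm_nonneg _) h3 _).trans (le_of_eq ?_)
        rw [← Real.rpow_natCast, ← Real.rpow_mul hp0.le, hpr]
      calc ‖u (below v)‖ ^ deg v * (nm v : ℝ) ^ (-2 * s.re) ≤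
            (nm v : ℝ) ^ (2 * ρ) * (nm v : ℝ) ^ (-2 * s.re) :=
            mul_le_mul_of_nonneg_right h4 (by positivity)
        _ = (nm v : ℝ) ^ (2 * ρ + -2 * s.re) := by rw [← Real.rpow_add hn0]
        _ ≤ w := by
            rw [hw]
            apply Real.rpow_le_rpow_of_exponent_le hn1
            linarith
    calc ‖x‖ ≤ ‖-(pws (t (below v)) (u (below v)) (deg v) *
          ((Ideal.absNorm v.asIdeal : ℕ) : ℂ) ^ (-s))‖ + _ := norm_add_le _ _
      _ ≤ A * D * w + w := add_le_add (by rwa [norm_neg]) h2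
      _ = (A * D + 1) * w := by ring
  have e3 : (1 - pws (t (below v)) (u (below v)) (deg v) *
    ((Ideal.absNorm v.asIdeal : ℕ) : ℂ) ^ (-s) +
    u (below v) ^ deg v * ((Ideal.absNorm v.asIdeal : ℕ) : ℂ) ^ (-2 * s)) = 1 + x := by
    rw [hx]; ring
  rw [e3]
  have hAD : 0 < A * D + 1 := by positivity
  have hx2 : ‖x‖ ≤ 1 / 2 := by
    refine hx1.trans ?_
    calc (A * D + 1) * w ≤ (A * D + 1) * (2 * (A * D + 1))⁻¹ :=
          mul_le_mul_of_nonneg_left hsmall hAD.le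
      _ = 1 / 2 := by field_simp
  have h3 : 1 / 2 ≤ ‖1 + x‖ := by
    have := norm_sub_norm_le (1 : ℂ) (-x)
    rw [sub_neg_eq_add, norm_neg, norm_one] at this
    linarith
  have hne : 1 + x ≠ 0 := by
    intro h
    rw [h, norm_zero] at h3
    linarith
  have e4 : (1 + x)⁻¹ - 1 = -x / (1 + x) := by field_simp; ring
  rw [e4, norm_div, norm_neg, div_le_iff₀ (by linarith)]
  have h5 : 0 ≤ 2 * (A * D + 1) * w := by positivity
  calc ‖x‖ ≤ (A * D + 1) * w := hx1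
    _ = 2 * (A * D + 1) * w * (1 / 2) := by ring
    _ ≤ 2 * (A * D + 1) * w * ‖1 + x‖ := mul_le_mul_of_nonneg_left h3 h5

variable (K) in
lemma multipliable_lf {ρ A : ℝ} {t u : ℕ → ℂ} (h : Gr ρ A t u) (q : ℕ) [NeZero q]
    [IsCyclotomicExtension {q} ℚ K] (s : ℂ) (hs : ρ + 1 < s.re) :
    Multipliable (lf (K := K) t u s) := by
  have hA := h.pos
  have hsum := nm_summable (K := K) (x := s.re - ρ) (by linarith)
  have hpos : 0 < (2 * (A * q + 1))⁻¹ := by positivity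
  have h1 : Summable (fun v : HeightOneSpectrum (𝓞 K) => ‖lf t u s v - 1‖) := by
    refine Summable.of_norm_bounded_eventually (hsum.mul_left (2 * (A * q + 1))) ?_
    have h2 := hsum.tendsto_cofinite_zero.eventually (Iio_mem_nhds hpos)
    filter_upwards [h2] with v hv
    rw [norm_norm]
    exact lf_sub_bound h v (deg_le K q v) s hs (le_of_lt hv)
  have h2 := multipliable_one_add_of_summable h1
  refine h2.congr (fun v => ?_)
  ring

open Classical in
variable (K) in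
/-- product over the places above `p` -/
lemma fiber_prodN (t u : ℕ → ℂ) (q : ℕ) [NeZero q] [IsCyclotomicExtension {q} ℚ K]
    (p : Nat.Primes) (m k : ℕ) [NeZero m] (hq : q = (p : ℕ) ^ k * m) (hm : ¬ (p : ℕ) ∣ m) (s : ℂ) :
    ∏ v : {v : HeightOneSpectrum (𝓞 K) // below v = p}, lf t u s v.1 =
      ((1 - W165.CE.pw (t p) (u p) (orderOf ((p : ℕ) : ZMod m)) *
        (((p : ℕ) : ℂ) ^ (-s)) ^ orderOf ((p : ℕ) : ZMod m) +
        u p ^ orderOf ((p : ℕ) : ZMod m) *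
          (((p : ℕ) : ℂ) ^ (-s)) ^ (2 * orderOf ((p : ℕ) : ZMod m))) ^
          (Nat.totient m / orderOf ((p : ℕ) : ZMod m)))⁻¹ := by
  obtain ⟨h1, h2⟩ := deg_and_count K q p m k hq hm
  have h3 : ∀ v : {v : HeightOneSpectrum (𝓞 K) // below v = p}, lf t u s v.1 =
      (1 - W165.CE.pw (t p) (u p) (orderOf ((p : ℕ) : ZMod m)) *
        (((p : ℕ) : ℂ) ^ (-s)) ^ orderOf ((p : ℕ) : ZMod m) +
        u p ^ orderOf ((p : ℕ) : ZMod m) *
          (((p : ℕ) : ℂ) ^ (-s)) ^ (2 * orderOf ((p : ℕ) : ZMod m)))⁻¹ := by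
    rintro ⟨v, hv⟩
    have h4 := h1 v hv
    subst hv
    rw [lf_eq, h4]
  rw [Finset.prod_congr rfl (fun v _ => h3 v), Finset.prod_const, Finset.card_univ, h2, inv_pow]

end

/-- the Euler factor of the twist by a Dirichlet character -/
noncomputable def eulN (t u : ℕ → ℂ) (q : ℕ) (χ : DirichletCharacter ℂ q) (s : ℂ) (p : ℕ) : ℂ :=
  (1 - χ ((p : ℕ) : ZMod q) * t p * (p : ℂ) ^ (-s) +
    χ ((p : ℕ) : ZMod q) ^ 2 * (u p * ((p : ℂ) ^ (-s)) ^ 2))⁻¹

open Classical in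
/-- product over the characters -/
lemma char_prodN (t u : ℕ → ℂ) (q : ℕ) [NeZero q] (p : ℕ) (hpp : p.Prime)
    (m k : ℕ) [NeZero m] (hq : q = p ^ k * m) (hm : ¬ p ∣ m) (s : ℂ) :
    ∏ χ : DirichletCharacter ℂ q, eulN t u χ.conductor χ.primitiveCharacter s p =
      ((1 - W165.CE.pw (t p) (u p) (orderOf ((p : ℕ) : ZMod m)) *
        (((p : ℕ) : ℂ) ^ (-s)) ^ orderOf ((p : ℕ) : ZMod m) +
        u p ^ orderOf ((p : ℕ) : ZMod m) *
          (((p : ℕ) : ℂ) ^ (-s)) ^ (2 * orderOf ((p : ℕ) : ZMod m))) ^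
          (Nat.totient m / orderOf ((p : ℕ) : ZMod m)))⁻¹ := by
  have h1 : ∀ χ : DirichletCharacter ℂ q, eulN t u χ.conductor χ.primitiveCharacter s p =
      (fun z : ℂ => (1 - z * t p * (p : ℂ) ^ (-s) + z ^ 2 * (u p * ((p : ℂ) ^ (-s)) ^ 2))⁻¹)
        (χ.primitiveCharacter ((p : ℕ) : ZMod χ.conductor)) := fun χ => rfl
  simp_rw [h1]
  rw [prod_prim p hpp q m k hq hm (fun z : ℂ => (1 - z * t p * (p : ℂ) ^ (-s) +
        z ^ 2 * (u p * ((p : ℂ) ^ (-s)) ^ 2))⁻¹) (by simp)]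
  have hu : IsUnit ((p : ℕ) : ZMod m) :=
    (ZMod.isUnit_iff_coprime p m).2 ((Nat.Prime.coprime_iff_not_dvd hpp).2 hm)
  rw [Finset.prod_inv_distrib, prod_quad' m ((p : ℕ) : ZMod m) hu]

/-- the Euler product over the primes of the cyclotomic field -/
theorem hasProd_K {ρ A : ℝ} {t u : ℕ → ℂ} (h : Gr ρ A t u) {N : ℕ}
    (L : (q : ℕ) → DirichletCharacter ℂ q → ℂ → ℂ)
    (hL : ∀ (q : ℕ) (χ : DirichletCharacter ℂ q), 1 ≤ q → Nat.Coprime q N → χ.IsPrimitive →
        ∀ s : ℂ, ρ + 1 < s.re → HasProd (fun p : Nat.Primes => eulN t u q χ s p) (L q χ s))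
    (q : ℕ) [NeZero q] (hq : Nat.Coprime q N) (K : Type) [Field K] [NumberField K]
    [IsCyclotomicExtension {q} ℚ K] (s : ℂ) (hs : ρ + 1 < s.re) :
    HasProd (lf (K := K) t u s)
      (∏ χ : DirichletCharacter ℂ q, L χ.conductor χ.primitiveCharacter s) := by
  classical
  have h1 : HasProd (fun p : Nat.Primes => ∏ χ : DirichletCharacter ℂ q,
      eulN t u χ.conductor χ.primitiveCharacter s p)
      (∏ χ : DirichletCharacter ℂ q, L χ.conductor χ.primitiveCharacter s) := by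
    apply hasProd_prod
    intro χ _
    exact hL χ.conductor χ.primitiveCharacter (Nat.one_le_iff_ne_zero.2 χ.conductor_ne_zero)
      (Nat.Coprime.coprime_dvd_left χ.conductor_dvd_level hq) χ.primitiveCharacter_isPrimitive _ hs
  have h2 : ∀ p : Nat.Primes, ∏ χ : DirichletCharacter ℂ q,
      eulN t u χ.conductor χ.primitiveCharacter s p =
      ∏ v : {v : HeightOneSpectrum (𝓞 K) // below v = p}, lf t u s v.1 := by
    intro p
    obtain ⟨k, m, hm, hqm⟩ := Nat.exists_eq_pow_mul_and_not_dvd (NeZero.ne q) (p : ℕ) p.2.ne_one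
    have : NeZero m := ⟨by rintro rfl; exact hm (dvd_zero _)⟩
    rw [char_prodN t u q p p.2 m k hqm hm s, fiber_prodN K t u q p m k hqm hm s]
  simp_rw [h2] at h1
  have h3 : Multipliable (lf (K := K) t u s) := multipliable_lf K h q s hs
  rw [← (Equiv.sigmaFiberEquiv (below (K := K))).hasProd_iff]
  refine HasProd.sigma_of_hasProd h1 (fun p => ?_) ?_
  · exact hasProd_fintype _
  · exact (Equiv.sigmaFiberEquiv (below (K := K))).multipliable_iff.2 h3

end Pool.Agent.X284.KS
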