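import Pool.Agent.X284.KS.PackN
import Pool.Agent.X284.KS.EulK
import Pool.Agent.X309.DC

/-!
Finite families of newforms with Tate twists.
-/

set_option autoImplicit false

open Complex Filter Topology Set UpperHalfPlane MatrixGroups CongruenceSubgroup NumberField
  IsDedekindDomain

namespace Pool.Agent.X284.KS

open Pool.Agent.W192.CY

/-- A newform `f` of even weight `2m`, level `N` and character `η`; `w` is the eigenvalue of the
Fricke involution. -/
structure Newform where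
  /-- the level -/
  N : ℕ
  [N_ne : NeZero N]
  /-- half of the weight -/
  m : ℕ
  m_pos : 1 ≤ m
  /-- the character -/
  η : DirichletCharacter ℂ N
  /-- the form -/
  f : CuspForm (Gamma1 N : Subgroup (GL (Fin 2) ℝ)) (2 * m : ℤ)
  /-- the eigenvalue of the Fricke involution -/
  w : ℂ
  newf : NNewf m N η f w

attribute [instance] Newform.N_ne

/-- the determinant `η(p) p ^ (2m - 1)` of the Frobenius at `p` -/
noncomputable def Newform.u (P : Newform) (p : ℕ) : ℂ :=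
  P.η (p : ZMod P.N) * (p : ℂ) ^ (2 * P.m - 1)

/-- the local factor at the prime `v` of `K` of the `L`-function of `f` over `K`:
`(1 - (α ^ d + β ^ d) (Nv)^(-s) + (α β) ^ d (Nv)^(-2s))⁻¹` for `Nv = p ^ d`, where `α`, `β` are the
roots of `X ^ 2 - a(p) X + η(p) p ^ (2m - 1)` -/
noncomputable def Newform.factor (P : Newform) {K : Type} [Field K] [NumberField K] (s : ℂ)
    (v : HeightOneSpectrum (𝓞 K)) : ℂ := lf (cf P.f) P.u s v

/-! ### growth -/

lemma cf_pow_bound (P : Newform) {p : ℕ} (hp : p.Prime) (j : ℕ) :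
    ‖cf P.f (p ^ j)‖ ≤ (j + 1) * (p : ℝ) ^ (((P.m : ℝ) - 1 / 2) * j) := by
  obtain ⟨μ, hμ⟩ := Pool.Agent.W804.CY.n_coef P.m P.m_pos P.N P.η P.f P.w P.newf
  have hp0 : (0 : ℝ) < p := by exact_mod_cast hp.pos
  have hn : 1 ≤ p ^ j := Nat.one_le_pow _ _ hp.pos
  have h1 := hμ.cle (p ^ j) hn
  have h2 : (p ^ j).divisors.card = j + 1 := by
    rw [Nat.divisors_prime_pow hp, Finset.card_map, Finset.card_range]
  rw [h2] at h1
  rw [cf_eq (f := P.f) hn, norm_mul, norm_pow, Complex.norm_natCast]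
  have h3 : Real.sqrt ((p ^ j : ℕ) : ℝ) * ((p ^ j : ℕ) : ℝ) ^ (P.m - 1) =
      (p : ℝ) ^ (((P.m : ℝ) - 1 / 2) * j) := by
    rw [Real.sqrt_eq_rpow, ← Real.rpow_natCast ((p ^ j : ℕ) : ℝ), ← Real.rpow_add (by positivity)]
    push_cast [Nat.cast_sub P.m_pos]
    rw [← Real.rpow_natCast (p : ℝ) j, ← Real.rpow_mul hp0.le]
    congr 1
    ring
  calc ‖cf P.f (p ^ j) / ((p ^ j : ℕ) : ℂ) ^ (P.m - 1)‖ * ((p ^ j : ℕ) : ℝ) ^ (P.m - 1) ≤
        (((j + 1 : ℕ) : ℝ) * Real.sqrt ((p ^ j : ℕ) : ℝ)) * ((p ^ j : ℕ) : ℝ) ^ (P.m - 1) :=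
        mul_le_mul_of_nonneg_right h1 (by positivity)
    _ = ((j + 1 : ℕ) : ℝ) * (Real.sqrt ((p ^ j : ℕ) : ℝ) * ((p ^ j : ℕ) : ℝ) ^ (P.m - 1)) := by ring
    _ = _ := by
        rw [h3]
        push_cast
        ring

lemma u_bound (P : Newform) {p : ℕ} (hp : p.Prime) :
    ‖P.u p‖ ≤ (p : ℝ) ^ (2 * ((P.m : ℝ) - 1 / 2)) := by
  unfold Newform.u
  rw [norm_mul, norm_pow, Complex.norm_natCast]
  have h1 := P.η.norm_le_one (p : ZMod P.N)
  have hm := P.m_pos
  have hp0 : (0 : ℝ) < p := by exact_mod_cast hp.pos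
  have h2 : (p : ℝ) ^ (2 * P.m - 1) = (p : ℝ) ^ (2 * ((P.m : ℝ) - 1 / 2)) := by
    rw [← Real.rpow_natCast]
    congr 1
    push_cast [Nat.cast_sub (show 1 ≤ 2 * P.m by omega)]
    ring
  rw [h2]
  exact mul_le_of_le_one_left (by positivity) h1

lemma pws_coef (P : Newform) {p : ℕ} (hp : p.Prime) :
    ∀ n : ℕ, pws (cf P.f p) (P.u p) (n + 2) = cf P.f (p ^ (n + 2)) - P.u p * cf P.f (p ^ n) := by
  have hrec := P.newf.pow
  have hone := P.newf.one
  have hr : ∀ j, cf P.f (p ^ (j + 2)) = cf P.f p * cf P.f (p ^ (j + 1)) - P.u p * cf P.f (p ^ j) :=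
    fun j => by rw [hrec p j hp]; rfl
  have key : ∀ n : ℕ, pws (cf P.f p) (P.u p) (n + 2) =
        cf P.f (p ^ (n + 2)) - P.u p * cf P.f (p ^ n) ∧
      pws (cf P.f p) (P.u p) (n + 3) =
        cf P.f (p ^ (n + 3)) - P.u p * cf P.f (p ^ (n + 1)) := by
    intro n
    induction n with
    | zero =>
      have e2 : pws (cf P.f p) (P.u p) 2 = cf P.f p * cf P.f p - P.u p * 2 := rfl
      have e3 : pws (cf P.f p) (P.u p) 3 = cf P.f p * pws (cf P.f p) (P.u p) 2 -
        P.u p * cf P.f p := rfl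
      have r0 := hr 0
      have r1 := hr 1
      simp only [zero_add, pow_one, pow_zero, hone] at r0 r1 ⊢
      have e4 : (1 + 1 : ℕ) = 2 := rfl
      have e5 : (1 + 2 : ℕ) = 3 := rfl
      rw [e4, e5] at r1
      constructor
      · rw [e2, r0]; ring
      · rw [e3, e2, r1, r0]; ring
    | succ n ih =>
      refine ⟨ih.2, ?_⟩
      have e : pws (cf P.f p) (P.u p) (n + 1 + 3) = cf P.f p * pws (cf P.f p) (P.u p) (n + 3) -
        P.u p * pws (cf P.f p) (P.u p) (n + 2) := rfl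
      rw [e, ih.1, ih.2]
      have r1 := hr (n + 2)
      have r2 := hr n
      have e6 : n + 1 + 3 = n + 2 + 2 := rfl
      have e7 : n + 2 + 1 = n + 3 := rfl
      have e8 : n + 1 + 1 = n + 2 := rfl
      rw [e6, r1, e7, e8, r2]
      ring
  exact fun n => (key n).1

lemma gr_newf (P : Newform) : Gr ((P.m : ℝ) - 1 / 2) 2 (cf P.f) P.u where
  pos := by norm_num
  u p hp := u_bound P hp
  pw p d hp hd := by
    have hp0 : (0 : ℝ) < p := by exact_mod_cast hp.pos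
    set ρ : ℝ := (P.m : ℝ) - 1 / 2 with hρ
    rcases Nat.lt_or_ge d 2 with h | h
    · obtain rfl : d = 1 := by omega
      have h1 := cf_pow_bound P hp 1
      rw [pow_one] at h1
      show ‖cf P.f p‖ ≤ _
      refine h1.trans (le_of_eq ?_)
      push_cast
      ring
    · obtain ⟨n, rfl⟩ : ∃ n, d = n + 2 := ⟨d - 2, by omega⟩
      rw [pws_coef P hp n]
      have h1 := cf_pow_bound P hp (n + 2)
      have h2 := cf_pow_bound P hp n
      have h3 := u_bound P hp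
      have h4 : ‖P.u p * cf P.f (p ^ n)‖ ≤ (n + 1) * (p : ℝ) ^ (ρ * ((n + 2 : ℕ) : ℝ)) := by
        rw [norm_mul]
        calc ‖P.u p‖ * ‖cf P.f (p ^ n)‖ ≤ (p : ℝ) ^ (2 * ρ) * ((n + 1) * (p : ℝ) ^ (ρ * n)) :=
              mul_le_mul h3 h2 (norm_nonneg _) (by positivity)
          _ = (n + 1) * ((p : ℝ) ^ (2 * ρ) * (p : ℝ) ^ (ρ * n)) := by ring
          _ = _ := by
              rw [← Real.rpow_add hp0]
              congr 2
              push_cast
              ring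
      calc ‖cf P.f (p ^ (n + 2)) - P.u p * cf P.f (p ^ n)‖ ≤ _ := norm_sub_le _ _
        _ ≤ (((n + 2 : ℕ) : ℝ) + 1) * (p : ℝ) ^ (ρ * ((n + 2 : ℕ) : ℝ)) +
            (n + 1) * (p : ℝ) ^ (ρ * ((n + 2 : ℕ) : ℝ)) := add_le_add h1 h4
        _ = 2 * ((n + 2 : ℕ) : ℝ) * (p : ℝ) ^ (ρ * ((n + 2 : ℕ) : ℝ)) := by
            push_cast
            ring

/-! ### the L-functions -/

/-- the family of the L-functions of the twists of one newform -/
theorem single (P : Newform) :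
    ∃ (K : ℝ) (L : (q : ℕ) → DirichletCharacter ℂ q → ℂ → ℂ), 0 < K ∧
      (∀ (q : ℕ) (χ : DirichletCharacter ℂ q), 1 ≤ q → Nat.Coprime q P.N → χ.IsPrimitive →
        Differentiable ℂ (L q χ) ∧
        (∀ s : ℂ, (P.m : ℝ) + 1 / 2 < s.re →
          HasProd (fun p : Nat.Primes => eulN (cf P.f) P.u q χ s p) (L q χ s)) ∧
        analyticOrderAt (L q χ) P.m ≠ ⊤) ∧
      Pool.Agent.TH940.GH P.N K (fun q χ => analyticOrderNatAt (L q χ) P.m) := by
  obtain ⟨K, F, hK, hF, hnv⟩ := packN P.m_pos P.newf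
  refine ⟨K, F, hK, ?_, ?_⟩
  · intro q χ hq hqN hχ
    obtain ⟨h1, h2, h3, h4⟩ := hF q χ hq hqN hχ
    refine ⟨h1, fun s hs => ?_, fun htop => ?_⟩
    · refine (congrArg (fun g => HasProd g (F q χ s)) (funext fun p => ?_)).mpr (h2 s hs)
      unfold eulN Newform.u
      have hp0 : ((p : ℕ) : ℂ) ≠ 0 := by exact_mod_cast p.2.ne_zero
      have e2 : ((p : ℕ) : ℂ) ^ (2 * (P.m : ℂ) - 1 - 2 * s) = ((p : ℕ) : ℂ) ^ (2 * P.m - 1) *
          (((p : ℕ) : ℂ) ^ (-s)) ^ 2 := by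
        rw [← Complex.cpow_nat_mul, ← Complex.cpow_natCast, ← Complex.cpow_add _ _ hp0]
        congr 1
        push_cast [Nat.cast_sub (show 1 ≤ 2 * P.m by have := P.m_pos; omega)]
        ring
      rw [e2]
      ring
    · apply h3
      have h5 : ∀ z : ℂ, F q χ z = 0 := by
        have h6 : AnalyticOnNhd ℂ (F q χ) Set.univ := fun z _ => h1.analyticAt z
        have h7 := h6.eqOn_zero_of_preconnected_of_eventuallyEq_zero isPreconnected_univ
          (Set.mem_univ (P.m : ℂ)) (analyticOrderAt_eq_top.1 htop)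
        exact fun z => h7 (Set.mem_univ z)
      exact h5 _
  · refine ⟨hK, fun q χ hq hqN hχ => (hF q χ hq hqN hχ).2.2.2, fun δ hδ => ?_⟩
    obtain ⟨q0, hq0⟩ := hnv δ hδ
    refine ⟨q0, fun q h1 h2 h3 χ hχ h4 => ?_⟩
    have h5 := hq0 q h1 h2 h3 χ hχ h4
    have h6 := (hF q χ (by omega) h3 hχ).1.analyticAt (P.m : ℂ)
    show analyticOrderNatAt _ _ = 0
    unfold analyticOrderNatAt
    rw [h6.analyticOrderAt_eq_zero.2 h5]
    rfl

end Pool.Agent.X284.KS
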