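import Pool.Agent.X284.KS.Fam
import Pool.Agent.X309.TwPack
import Pool.Agent.X309.DG

/-!
Finite families of newforms with Tate twists: the L-functions over the cyclotomic fields.
-/

set_option autoImplicit false

open Complex Filter Topology Set UpperHalfPlane MatrixGroups CongruenceSubgroup NumberField
  IsDedekindDomain

namespace Pool.Agent.X284.KS

open Pool.Agent.W192.CY

lemma order_shift {f : ℂ → ℂ} (a z : ℂ) :
    analyticOrderAt (fun s => f (s - a)) z = analyticOrderAt f (z - a) := by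
  have h1 : AnalyticAt ℂ (fun s : ℂ => s - a) z := by fun_prop
  have h2 : deriv (fun s : ℂ => s - a) z ≠ 0 := by
    rw [deriv_sub_const, deriv_id'']
    exact one_ne_zero
  exact analyticOrderAt_comp_of_deriv_ne_zero (f := f) h1 h2

/-- the family of the L-functions of the twists of finitely many newforms, shifted by `t j` -/
theorem family {ι : Type} [Fintype ι] (P : ι → Newform) (t : ι → ℕ) (c : ℕ)
    (hc : ∀ j, (P j).m + t j = c) :
    ∃ (K : ℝ) (L : ι → (q : ℕ) → DirichletCharacter ℂ q → ℂ → ℂ),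
      (∀ (j : ι) (q : ℕ) (χ : DirichletCharacter ℂ q), 1 ≤ q → Nat.Coprime q (∏ j, (P j).N) →
        χ.IsPrimitive → Differentiable ℂ (L j q χ) ∧
        (∀ s : ℂ, (c : ℝ) + 1 / 2 < s.re →
          HasProd (fun p : Nat.Primes => eulN (cf (P j).f) (P j).u q χ (s - t j) p) (L j q χ s)) ∧
        analyticOrderAt (L j q χ) c ≠ ⊤) ∧
      Pool.Agent.TH940.GH (∏ j, (P j).N) K
        (fun q χ => ∑ j, analyticOrderNatAt (L j q χ) c) := by
  choose K L hK hL hG using fun j => single (P j)
  have hcc : ∀ j, (c : ℂ) - t j = (P j).m := by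
    intro j
    rw [← hc j]
    push_cast
    ring
  have hsh : ∀ (j : ι) (q : ℕ) (χ : DirichletCharacter ℂ q),
      analyticOrderAt (fun s => L j q χ (s - t j)) (c : ℂ) = analyticOrderAt (L j q χ) (P j).m := by
    intro j q χ
    rw [order_shift, hcc]
  refine ⟨1 + ∑ j, K j, fun j q χ s => L j q χ (s - t j), ?_, ?_⟩
  · intro j q χ hq hqN hχ
    have hcop : Nat.Coprime q (P j).N :=
      Nat.Coprime.coprime_dvd_right (Finset.dvd_prod_of_mem (fun j => (P j).N)
        (Finset.mem_univ j)) hqN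
    obtain ⟨h1, h2, h3⟩ := hL j q χ hq hcop hχ
    refine ⟨h1.comp (differentiable_id.sub_const _), fun s hs => h2 _ ?_, ?_⟩
    · rw [Complex.sub_re, Complex.natCast_re]
      have : (c : ℝ) = (P j).m + t j := by exact_mod_cast (hc j).symm
      linarith
    · rw [hsh]
      exact h3
  · have h1 := Pool.Agent.X309.DC.gh_sum (G := fun j q χ => analyticOrderNatAt (L j q χ) (P j).m) hG
    refine (congrArg (Pool.Agent.TH940.GH _ _) ?_).mp h1
    funext q χ
    refine Finset.sum_congr rfl fun j _ => ?_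
    unfold analyticOrderNatAt
    rw [hsh]

/-- the L-functions over the cyclotomic fields -/
theorem fam_K {ι : Type} [Fintype ι] (P : ι → Newform) (t : ι → ℕ) (c : ℕ)
    (hc : ∀ j, (P j).m + t j = c) :
    ∃ (K0 : ℝ) (G : (q : ℕ) → DirichletCharacter ℂ q → ℕ) (Z : ℕ → ℂ → ℂ),
      Pool.Agent.TH940.GH (∏ j, (P j).N) K0 G ∧
      ∀ q : ℕ, 1 ≤ q → Nat.Coprime q (∏ j, (P j).N) → Differentiable ℂ (Z q) ∧
        analyticOrderAt (Z q) c = ((Pool.Agent.TH940.tot G q : ℕ) : ℕ∞) ∧
        ∀ (K : Type) [Field K] [NumberField K] [IsCyclotomicExtension {q} ℚ K] (s : ℂ),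
          (c : ℝ) + 1 / 2 < s.re →
          HasProd (fun v : HeightOneSpectrum (𝓞 K) => ∏ j, (P j).factor (s - t j) v) (Z q s) := by
  classical
  obtain ⟨K0, L, hL, hG⟩ := family P t c hc
  set M : ℕ := ∏ j, (P j).N with hM
  set G : (q : ℕ) → DirichletCharacter ℂ q → ℕ := fun q χ =>
    ∑ j, analyticOrderNatAt (L j q χ) c with hGd
  refine ⟨K0, G, fun q s => ∏ᶠ χ : DirichletCharacter ℂ q,
    ∏ j, L j χ.conductor χ.primitiveCharacter s, hG, ?_⟩
  intro q hq hqM
  have : NeZero q := ⟨by omega⟩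
  have hcd : ∀ χ : DirichletCharacter ℂ q,
      1 ≤ χ.conductor ∧ Nat.Coprime χ.conductor M ∧ χ.primitiveCharacter.IsPrimitive := fun χ =>
    ⟨Nat.one_le_iff_ne_zero.2 χ.conductor_ne_zero,
      Nat.Coprime.coprime_dvd_left χ.conductor_dvd_level hqM, χ.primitiveCharacter_isPrimitive⟩
  have e1 : (fun s => ∏ᶠ χ : DirichletCharacter ℂ q,
      ∏ j, L j χ.conductor χ.primitiveCharacter s) = fun s : ℂ => ∏ χ : DirichletCharacter ℂ q,
        ∏ j, L j χ.conductor χ.primitiveCharacter s := by
    funext s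
    exact finprod_eq_prod_of_fintype _
  have hLc : ∀ (j : ι) (χ : DirichletCharacter ℂ q), _ := fun j χ =>
    hL j χ.conductor χ.primitiveCharacter (hcd χ).1 (hcd χ).2.1 (hcd χ).2.2
  have hdiff : ∀ χ : DirichletCharacter ℂ q,
      Differentiable ℂ (fun s => ∏ j, L j χ.conductor χ.primitiveCharacter s) := fun χ =>
    Differentiable.fun_finsetProd fun j _ => (hLc j χ).1
  have hin : ∀ χ : DirichletCharacter ℂ q,
      analyticOrderAt (fun s => ∏ j, L j χ.conductor χ.primitiveCharacter s) (c : ℂ) =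
        ((G χ.conductor χ.primitiveCharacter : ℕ) : ℕ∞) := fun χ =>
    Pool.Agent.X309.TwDefs.order_prod Finset.univ
      (fun j => L j χ.conductor χ.primitiveCharacter) c
      (fun j _ => (hLc j χ).1.analyticAt _) (fun j _ => (hLc j χ).2.2)
  refine ⟨?_, ?_, ?_⟩
  · simp only [e1]
    exact Differentiable.fun_finsetProd fun χ _ => hdiff χ
  · show analyticOrderAt (fun s => ∏ᶠ χ : DirichletCharacter ℂ q,
      ∏ j, L j χ.conductor χ.primitiveCharacter s) (c : ℂ) = _
    rw [e1, Pool.Agent.X309.TwDefs.order_prod Finset.univ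
      (fun χ : DirichletCharacter ℂ q => fun s => ∏ j, L j χ.conductor χ.primitiveCharacter s) c
      (fun χ _ => (hdiff χ).analyticAt _)
      (fun χ _ => by rw [hin χ]; exact ENat.coe_ne_top _)]
    unfold Pool.Agent.TH940.tot
    rw [finsum_eq_sum_of_fintype]
    congr 2
    funext χ
    unfold analyticOrderNatAt
    rw [hin χ]
    rfl
  · intro K _ _ _ s hs
    show HasProd _ (∏ᶠ χ : DirichletCharacter ℂ q, ∏ j, L j χ.conductor χ.primitiveCharacter s)
    rw [finprod_eq_prod_of_fintype, Finset.prod_comm]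
    apply hasProd_prod
    intro j _
    have hcj : (c : ℝ) = (P j).m + t j := by exact_mod_cast (hc j).symm
    have hre : ((s - t j : ℂ)).re = s.re - t j := by
      rw [Complex.sub_re, Complex.natCast_re]
    have h1 := hasProd_K (gr_newf (P j)) (N := M)
      (fun q χ z => L j q χ (z + t j)) (by
        intro q χ h1 h2 h3 z hz
        have h4 := (hL j q χ h1 h2 h3).2.1 (z + t j) (by
          rw [Complex.add_re, Complex.natCast_re]
          linarith)
        rw [add_sub_cancel_right] at h4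
        exact h4) q hqM K (s - t j) (by rw [hre]; linarith)
    simp only [sub_add_cancel] at h1
    exact h1

end Pool.Agent.X284.KS
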