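import Pool.Agent.W192.CY.Stneb
import Pool.Agent.W55.CY.MainpK
import Pool.Agent.W372.CY.MainpM

set_option autoImplicit false
set_option maxHeartbeats 1000000

/-!
# The mollified first moment with complex coefficients (`N_MAINP`)

Adapted from `Pool.Agent.W55.CY.MainpK` and `Pool.Agent.W372.CY.MainpM`.
-/

namespace Pool.Agent.X284.KS

open Finset
open Pool.Agent.W192.CY
open Pool.Agent.W916.CY (ai ai_abs ai_one EE EE_pos summ_EE filt_card tau_le tau_mono)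
open Pool.Agent.W55.CY (VV VV_abs VV_one)
open Pool.Agent.W372.CY (AA AA_norm AA_one sum_cg ai_nonneg)

theorem c_boundN {c m : ℕ → ℂ} (h : NInv c m) (n : ℕ) : ‖c n‖ ≤ (n : ℝ) ^ 2 := by
  rcases Nat.eq_zero_or_pos n with h0 | h0
  · subst h0; rw [h.zero]; simp
  · refine (h.cle n h0).trans ?_
    have h1 : (n.divisors.card : ℝ) ≤ n := by exact_mod_cast tau_le n
    have h2 : Real.sqrt n ≤ n := by
      have hn : (1 : ℝ) ≤ n := by exact_mod_cast h0
      rw [Real.sqrt_le_left (by linarith)]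
      nlinarith
    rw [pow_two]
    exact mul_le_mul h1 h2 (Real.sqrt_nonneg _) (by positivity)

theorem term_boundN {c m : ℕ → ℂ} (h : NInv c m) {b k : ℕ} (hk : 1 ≤ k) (hb : b ∣ k) :
    ‖m b * c (k / b)‖ ≤ (k.divisors.card : ℝ) ^ 2 * Real.sqrt k := by
  have hb1 : 1 ≤ b := Nat.pos_of_dvd_of_pos hb hk
  have hkb : 1 ≤ k / b := Nat.div_pos (Nat.le_of_dvd hk hb) hb1
  have hkb' : k / b ∣ k := Nat.div_dvd_of_dvd hb
  have t1 : (b.divisors.card : ℝ) ≤ k.divisors.card := by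
    exact_mod_cast tau_mono (by omega) hb
  have t2 : ((k / b).divisors.card : ℝ) ≤ k.divisors.card := by
    exact_mod_cast tau_mono (by omega) hkb'
  rw [norm_mul]
  calc ‖m b‖ * ‖c (k / b)‖ ≤ (b.divisors.card * Real.sqrt b) *
        ((k / b).divisors.card * Real.sqrt ((k / b : ℕ) : ℝ)) :=
        mul_le_mul (h.mle b hb1) (h.cle _ hkb) (norm_nonneg _) (by positivity)
    _ = b.divisors.card * (k / b).divisors.card * (Real.sqrt b * Real.sqrt ((k / b : ℕ) : ℝ)) := by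
        ring
    _ = b.divisors.card * (k / b).divisors.card * Real.sqrt k := by
        have e : (b : ℝ) * ((k / b : ℕ) : ℝ) = k := by
          rw [← Nat.cast_mul, Nat.mul_div_cancel' hb]
        rw [← Real.sqrt_mul (by positivity), e]
    _ ≤ k.divisors.card * k.divisors.card * Real.sqrt k := by gcongr
    _ = _ := by ring

/-- the coefficients after multiplication by the mollifier -/
noncomputable def HN (V : ℝ → ℝ) (c m : ℕ → ℂ) (B : ℕ) (X : ℝ) (k : ℕ) : ℂ :=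
  ∑ b ∈ (Icc 1 B).filter (fun b => b ∣ k), m b * c (k / b) * (VV V X (k / b) : ℂ)

theorem summ_cN {V : ℝ → ℝ} {CV : ℝ} (hV : VW V CV) {c m : ℕ → ℂ} (h : NInv c m) (X : ℝ)
    (hX : 0 < X) (a : ℕ → ℂ) (A : ℝ) (ha : ∀ n, ‖a n‖ ≤ A) :
    Summable (fun n : ℕ => a n * c n / n * (VV V X n : ℂ)) := by
  have hA : 0 ≤ A := (norm_nonneg _).trans (ha 0)
  have hC := hV.pos
  refine Summable.of_norm_bounded (g := fun n : ℕ => A * CV * ((n : ℝ) ^ 1 * EE X n))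
    ((summ_EE X hX 1).mul_left (A * CV)) (fun n => ?_)
  rw [norm_mul, norm_div, norm_mul, Complex.norm_natCast, Complex.norm_real, Real.norm_eq_abs]
  have h1 : ‖c n‖ / n ≤ n := by
    rcases Nat.eq_zero_or_pos n with h0 | h0
    · subst h0; simp
    · rw [div_le_iff₀ (by exact_mod_cast h0), ← pow_two]
      exact c_boundN h n
  rw [pow_one]
  calc ‖a n‖ * ‖c n‖ / n * |VV V X n| = ‖a n‖ * (‖c n‖ / n) * |VV V X n| := by ring
    _ ≤ A * n * (CV * EE X n) := by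
        have := VV_abs hV X hX n
        gcongr
        exact ha n
    _ = _ := by ring

/-- reindexing -/
theorem reindexN {V : ℝ → ℝ} {CV : ℝ} (hV : VW V CV) {c m : ℕ → ℂ} (h : NInv c m) (B : ℕ) (X : ℝ)
    (hX : 0 < X) (W : ℕ → ℂ) (A : ℝ) (hW : ∀ n, ‖W n‖ ≤ A) :
    Summable (fun k : ℕ => W k * HN V c m B X k / k) ∧
    ∑ b ∈ Icc 1 B, m b / b * ∑' n : ℕ, W (b * n) * c n / n * (VV V X n : ℂ) =
      ∑' k : ℕ, W k * HN V c m B X k / k := by
  classical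
  let hb : ℕ → ℕ → ℂ := fun b k =>
    if b ∣ k then W k * (m b * c (k / b) * (VV V X (k / b) : ℂ)) / k else 0
  have key : ∀ b ∈ Icc 1 B, Summable (hb b) ∧
      m b / b * ∑' n : ℕ, W (b * n) * c n / n * (VV V X n : ℂ) = ∑' k, hb b k := by
    intro b hbm
    have hb1 : 1 ≤ b := (mem_Icc.1 hbm).1
    have hb0 : b ≠ 0 := by omega
    have hinj : Function.Injective (fun n : ℕ => b * n) := fun x y hxy =>
      Nat.eq_of_mul_eq_mul_left hb1 hxy
    have hcomp : ∀ n, hb b (b * n) = m b / b * (W (b * n) * c n / n * (VV V X n : ℂ)) := by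
      intro n
      show (if b ∣ b * n then W (b * n) * (m b * c (b * n / b) * (VV V X (b * n / b) : ℂ)) /
        ((b * n : ℕ) : ℂ) else 0) = _
      rw [if_pos (Dvd.intro n rfl), Nat.mul_div_cancel_left n hb1]
      push_cast
      have hbR : (b : ℂ) ≠ 0 := by exact_mod_cast hb0
      rcases Nat.eq_zero_or_pos n with h0 | h0
      · subst h0; simp
      · have hnR : (n : ℂ) ≠ 0 := by exact_mod_cast h0.ne'
        field_simp
    have hout : ∀ x ∉ Set.range (fun n : ℕ => b * n), hb b x = 0 := by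
      intro x hx
      show (if b ∣ x then _ else 0) = _
      rw [if_neg]
      rintro ⟨y, rfl⟩
      exact hx ⟨y, rfl⟩
    have hs1 : Summable (fun n => hb b (b * n)) := by
      have := (summ_cN hV h X hX (fun n => W (b * n)) A (fun n => hW _)).mul_left (m b / b)
      exact this.congr (fun n => (hcomp n).symm)
    constructor
    · exact (hinj.summable_iff hout).1 hs1
    · rw [← tsum_mul_left]
      rw [← hinj.tsum_eq (f := hb b)]
      · exact tsum_congr (fun n => (hcomp n).symm)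
      · intro x hx
        by_contra hcon
        exact hx (hout x hcon)
  have hpt : ∀ k, ∑ b ∈ Icc 1 B, hb b k = W k * HN V c m B X k / k := by
    intro k
    show ∑ b ∈ Icc 1 B, (if b ∣ k then W k * (m b * c (k / b) * (VV V X (k / b) : ℂ)) / k else 0) = _
    rw [← sum_filter]
    unfold HN
    rw [mul_sum, sum_div]
  constructor
  · have := summable_sum (s := Icc 1 B) (f := hb) (fun b hb' => (key b hb').1)
    refine this.congr (fun k => ?_)
    rw [hpt k]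
  · rw [sum_congr rfl (fun b hb' => (key b hb').2), ← Summable.tsum_finsetSum
      (fun b hb' => (key b hb').1)]
    exact tsum_congr hpt

/-- large k -/
theorem HN_large {V : ℝ → ℝ} {CV : ℝ} (hV : VW V CV) {c m : ℕ → ℂ} (h : NInv c m) (B : ℕ)
    (Bx X : ℝ) (hX : 0 < X) (hB : (B : ℝ) ≤ Bx) (hBx : 0 < Bx) {k : ℕ} (hk : 1 ≤ k) :
    ‖HN V c m B X k‖ ≤
      CV * ((k.divisors.card : ℝ) ^ 3 * Real.sqrt k * Real.exp (-((k : ℝ) / (Bx * X)))) := by
  have hC := hV.pos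
  unfold HN
  calc ‖∑ b ∈ (Icc 1 B).filter (fun b => b ∣ k), m b * c (k / b) * (VV V X (k / b) : ℂ)‖ ≤
        ∑ b ∈ (Icc 1 B).filter (fun b => b ∣ k), ‖m b * c (k / b) * (VV V X (k / b) : ℂ)‖ :=
        norm_sum_le _ _
    _ ≤ ∑ b ∈ (Icc 1 B).filter (fun b => b ∣ k),
        (k.divisors.card : ℝ) ^ 2 * Real.sqrt k * (CV * Real.exp (-((k : ℝ) / (Bx * X)))) := by
        refine sum_le_sum (fun b hb => ?_)
        rw [mem_filter, mem_Icc] at hb
        obtain ⟨⟨hb1, hbB⟩, hbk⟩ := hb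
        rw [norm_mul, Complex.norm_real, Real.norm_eq_abs]
        have hE : EE X (k / b) ≤ Real.exp (-((k : ℝ) / (Bx * X))) := by
          unfold EE
          apply Real.exp_le_exp.2
          apply neg_le_neg
          have hbR : (0 : ℝ) < b := by exact_mod_cast hb1
          have e1 : (((k / b : ℕ)) : ℝ) = (k : ℝ) / b := by
            rw [Nat.cast_div hbk hbR.ne']
          rw [e1, div_div, mul_comm Bx X, mul_comm (b : ℝ) X]
          have hbB' : (b : ℝ) ≤ Bx := le_trans (by exact_mod_cast hbB) hB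
          gcongr
        have hE2 : |VV V X (k / b)| ≤ CV * Real.exp (-((k : ℝ) / (Bx * X))) :=
          (VV_abs hV X hX _).trans (mul_le_mul_of_nonneg_left hE hC.le)
        exact mul_le_mul (term_boundN h hk hbk) hE2 (abs_nonneg _) (by positivity)
    _ = ((Icc 1 B).filter (fun b => b ∣ k)).card *
        ((k.divisors.card : ℝ) ^ 2 * Real.sqrt k * (CV * Real.exp (-((k : ℝ) / (Bx * X))))) := by
        rw [sum_const, nsmul_eq_mul]
    _ ≤ k.divisors.card *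
        ((k.divisors.card : ℝ) ^ 2 * Real.sqrt k * (CV * Real.exp (-((k : ℝ) / (Bx * X))))) := by
        have : (((Icc 1 B).filter (fun b => b ∣ k)).card : ℝ) ≤ k.divisors.card := by
          exact_mod_cast filt_card hk
        gcongr
    _ = _ := by ring

/-- small k -/
theorem HN_small {V : ℝ → ℝ} {CV : ℝ} (hV : VW V CV) {c m : ℕ → ℂ} (h : NInv c m) (B : ℕ) (X : ℝ)
    (hX : 0 < X) {k : ℕ} (hk : 2 ≤ k)
    (hkB : k ≤ B) : ‖HN V c m B X k‖ ≤ 2 * CV * ((k : ℝ) ^ 5 / X) := by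
  have hC := hV.pos
  have hf : (Icc 1 B).filter (fun b => b ∣ k) = k.divisors := by
    ext b
    rw [mem_filter, mem_Icc, Nat.mem_divisors]
    constructor
    · rintro ⟨_, hb⟩; exact ⟨hb, by omega⟩
    · rintro ⟨hb, _⟩
      exact ⟨⟨Nat.pos_of_dvd_of_pos hb (by omega), (Nat.le_of_dvd (by omega) hb).trans hkB⟩, hb⟩
  have h0 : ∑ b ∈ k.divisors, m b * c (k / b) = 0 := by
    have h1 := h.inv k (by omega)
    rw [if_neg (by omega)] at h1
    rw [← Nat.sum_divisorsAntidiagonal (fun a b => m a * c b)]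
    exact h1
  have hG : HN V c m B X k = ∑ b ∈ k.divisors, m b * c (k / b) * ((VV V X (k / b) - 1 : ℝ) : ℂ) := by
    unfold HN
    rw [hf]
    have : ∑ b ∈ k.divisors, m b * c (k / b) * ((VV V X (k / b) - 1 : ℝ) : ℂ) =
        ∑ b ∈ k.divisors, m b * c (k / b) * (VV V X (k / b) : ℂ) -
          ∑ b ∈ k.divisors, m b * c (k / b) := by
      rw [← sum_sub_distrib]
      exact sum_congr rfl (fun b _ => by push_cast; ring)
    rw [this, h0, sub_zero]
  have hkR : (1 : ℝ) ≤ k := by exact_mod_cast (by omega : 1 ≤ k)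
  have htk : (k.divisors.card : ℝ) ≤ k := by exact_mod_cast tau_le k
  have hsq : Real.sqrt k ≤ k := by
    rw [Real.sqrt_le_left (by linarith)]
    nlinarith
  rw [hG]
  calc ‖∑ b ∈ k.divisors, m b * c (k / b) * ((VV V X (k / b) - 1 : ℝ) : ℂ)‖ ≤
        ∑ b ∈ k.divisors, ‖m b * c (k / b) * ((VV V X (k / b) - 1 : ℝ) : ℂ)‖ := norm_sum_le _ _
    _ ≤ ∑ b ∈ k.divisors, (k : ℝ) ^ 2 * k * (2 * CV * ((k : ℝ) / X)) := by
        refine sum_le_sum (fun b hb => ?_)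
        rw [Nat.mem_divisors] at hb
        rw [norm_mul, Complex.norm_real, Real.norm_eq_abs]
        have e1 : ‖m b * c (k / b)‖ ≤ (k : ℝ) ^ 2 * k := by
          refine (term_boundN h (by omega) hb.1).trans ?_
          gcongr
        have e2 : |VV V X (k / b) - 1| ≤ 2 * CV * ((k : ℝ) / X) := by
          refine (VV_one hV X hX _).trans ?_
          have : ((k / b : ℕ) : ℝ) ≤ k := by exact_mod_cast Nat.div_le_self k b
          gcongr
        exact mul_le_mul e1 e2 (abs_nonneg _) (by positivity)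
    _ = k.divisors.card * ((k : ℝ) ^ 2 * k * (2 * CV * ((k : ℝ) / X))) := by
        rw [sum_const, nsmul_eq_mul]
    _ ≤ k * ((k : ℝ) ^ 2 * k * (2 * CV * ((k : ℝ) / X))) := by gcongr
    _ = _ := by ring

theorem HN_one (V : ℝ → ℝ) {c m : ℕ → ℂ} (h : NInv c m) (hc : c 1 = 1) (B : ℕ) (X : ℝ)
    (hB : 1 ≤ B) : HN V c m B X 1 = (VV V X 1 : ℂ) := by
  have hf : (Icc 1 B).filter (fun b => b ∣ 1) = {1} := by
    ext b
    rw [mem_filter, mem_Icc, mem_singleton, Nat.dvd_one]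
    constructor
    · rintro ⟨_, hb⟩; exact hb
    · rintro rfl; exact ⟨⟨le_rfl, hB⟩, rfl⟩
  unfold HN
  rw [hf, sum_singleton, h.one]
  norm_num [hc]

theorem pe_genN {V : ℝ → ℝ} {CV : ℝ} (hV : VW V CV) {c m : ℕ → ℂ} (h : NInv c m) (hc : c 1 = 1)
    (η C1 : ℝ) (hη1 : η < 1 / 8)
    (hC1pos : 0 < C1) (hC1 : ∀ n : ℕ, 1 ≤ n → (n.divisors.card : ℝ) ^ 3 ≤ C1 * (n : ℝ) ^ η)
    (q : ℕ) (H : Subgroup (ZMod q)ˣ) (Bx X : ℝ) (hBx : 1 ≤ Bx) (hX : 0 < X) (a : ℕ → ℂ)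
    (ha : ∀ k, ‖a k‖ ≤ ai q H k) :
    ‖∑' k : ℕ, a k * HN V c m ⌊Bx⌋₊ X k / k - a 1 * (VV V X 1 : ℂ)‖ ≤
      2 * CV * (Bx ^ 5 / X) + CV * C1 * tail q H Bx (Bx * X) η := by
  classical
  have hCp := hV.pos
  obtain ⟨B, hB⟩ : ∃ B : ℕ, B = ⌊Bx⌋₊ := ⟨_, rfl⟩
  rw [← hB]
  have hB1 : 1 ≤ B := by rw [hB]; exact Nat.le_floor (by simpa using hBx)
  have hBle : (B : ℝ) ≤ Bx := by rw [hB]; exact Nat.floor_le (by linarith)
  have hBiff : ∀ k : ℕ, k ≤ B ↔ (k : ℝ) ≤ Bx := by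
    intro k; rw [hB]; exact Nat.le_floor_iff (by linarith)
  have ha1 : ∀ k, ‖a k‖ ≤ 1 := fun k => (ha k).trans ((le_abs_self _).trans (ai_abs q H k))
  obtain ⟨hs, _⟩ := reindexN hV h B X hX a 1 ha1
  let p : ℕ → ℂ := fun k => a k * HN V c m B X k / k
  have hs' : Summable p := hs
  let f1 : ℕ → ℂ := fun k => if k ≤ B then p k else 0
  let f2 : ℕ → ℂ := fun k => if k ≤ B then 0 else p k
  have hf1 : Summable f1 := by
    refine summable_of_ne_finset_zero (s := range (B + 1)) (fun k hk => ?_)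
    rw [mem_range] at hk
    exact if_neg (by omega)
  have hf2 : Summable f2 := by
    have : f2 = fun k => p k - f1 k := by
      funext k
      show (if k ≤ B then (0 : ℂ) else p k) = p k - (if k ≤ B then p k else 0)
      split_ifs <;> simp
    rw [this]
    exact hs'.sub hf1
  have hsplit : ∑' k, p k = ∑' k, f1 k + ∑' k, f2 k := by
    rw [← hf1.tsum_add hf2]
    refine tsum_congr (fun k => ?_)
    show p k = (if k ≤ B then p k else 0) + (if k ≤ B then (0 : ℂ) else p k)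
    split_ifs <;> simp
  have ht1 : ∑' k, f1 k = ∑ k ∈ range (B + 1), f1 k := by
    refine tsum_eq_sum (fun k hk => ?_)
    rw [mem_range] at hk
    exact if_neg (by omega)
  have hp0 : f1 0 = 0 := by
    show (if 0 ≤ B then a 0 * HN V c m B X 0 / ((0 : ℕ) : ℂ) else 0) = 0
    simp
  have hp1 : f1 1 = a 1 * (VV V X 1 : ℂ) := by
    show (if 1 ≤ B then a 1 * HN V c m B X 1 / ((1 : ℕ) : ℂ) else 0) = a 1 * (VV V X 1 : ℂ)
    rw [if_pos hB1, HN_one V h hc B X hB1]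
    simp
  have hsum1 : ‖∑ k ∈ range (B + 1), f1 k - a 1 * (VV V X 1 : ℂ)‖ ≤ 2 * CV * (Bx ^ 5 / X) := by
    have e1 : ∑ k ∈ range (B + 1), f1 k - a 1 * (VV V X 1 : ℂ) = ∑ k ∈ Ico 2 (B + 1), f1 k := by
      rw [range_eq_Ico, ← sum_Ico_consecutive f1 (Nat.zero_le 2) (by omega : 2 ≤ B + 1)]
      have : ∑ k ∈ Ico 0 2, f1 k = f1 0 + f1 1 := by
        rw [← range_eq_Ico, sum_range_succ, sum_range_one]
      rw [this, hp0, hp1]
      ring
    rw [e1]
    calc ‖∑ k ∈ Ico 2 (B + 1), f1 k‖ ≤ ∑ k ∈ Ico 2 (B + 1), ‖f1 k‖ := norm_sum_le _ _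
      _ ≤ ∑ k ∈ Ico 2 (B + 1), 2 * CV * ((B : ℝ) ^ 4 / X) := by
          refine sum_le_sum (fun k hk => ?_)
          rw [mem_Ico] at hk
          have hkB : k ≤ B := by omega
          have hkpos : (0 : ℝ) < k := by exact_mod_cast (by omega : 0 < k)
          show ‖if k ≤ B then a k * HN V c m B X k / (k : ℂ) else 0‖ ≤ _
          rw [if_pos hkB, norm_div, norm_mul, Complex.norm_natCast]
          have g1 := HN_small hV h B X hX hk.1 hkB
          have g2 := ha1 k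
          calc ‖a k‖ * ‖HN V c m B X k‖ / k ≤ 1 * (2 * CV * ((k : ℝ) ^ 5 / X)) / k := by
                gcongr
            _ = 2 * CV * ((k : ℝ) ^ 4 / X) := by field_simp
            _ ≤ 2 * CV * ((B : ℝ) ^ 4 / X) := by
                have : (k : ℝ) ≤ B := by exact_mod_cast hkB
                gcongr
      _ = (B - 1 : ℕ) * (2 * CV * ((B : ℝ) ^ 4 / X)) := by
          rw [sum_const, Nat.card_Ico, nsmul_eq_mul]
          congr 2
      _ ≤ B * (2 * CV * ((B : ℝ) ^ 4 / X)) := by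
          have : ((B - 1 : ℕ) : ℝ) ≤ B := by exact_mod_cast Nat.sub_le B 1
          gcongr
      _ = 2 * CV * ((B : ℝ) ^ 5 / X) := by ring
      _ ≤ 2 * CV * (Bx ^ 5 / X) := by gcongr
  -- the tail
  let tf : ℕ → ℝ := fun k => Set.indicator {k : ℕ | Bx < k ∧ ∃ u ∈ H,
    ((u : (ZMod q)ˣ) : ZMod q) = (k : ZMod q)}
    (fun k : ℕ => (k : ℝ) ^ (-1 / 2 + η) * Real.exp (-(k / (Bx * X)))) k
  have htf0 : ∀ k, 0 ≤ tf k := by
    intro k
    refine Set.indicator_nonneg (fun k _ => ?_) k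
    positivity
  have hstf : Summable tf := by
    refine Summable.of_norm_bounded (g := fun n : ℕ => (n : ℝ) ^ 0 * EE (Bx * X) n)
      (summ_EE (Bx * X) (by positivity) 0) (fun k => ?_)
    rw [Real.norm_eq_abs, abs_of_nonneg (htf0 k), pow_zero, one_mul]
    show Set.indicator _ _ k ≤ _
    rw [Set.indicator_apply]
    split_ifs with hk
    · have hk1 : (1 : ℝ) ≤ k := hBx.trans hk.1.le
      have : (k : ℝ) ^ (-1 / 2 + η) ≤ 1 := Real.rpow_le_one_of_one_le_of_nonpos hk1 (by linarith)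
      have h2 := Real.exp_pos (-((k : ℝ) / (Bx * X)))
      unfold EE
      nlinarith
    · exact (EE_pos _ _).le
  have hCC : 0 < CV * C1 := by positivity
  have ht2 : ‖∑' k, f2 k‖ ≤ CV * C1 * tail q H Bx (Bx * X) η := by
    have hsumtail : HasSum (fun k => CV * C1 * tf k) (CV * C1 * tail q H Bx (Bx * X) η) :=
      hstf.hasSum.mul_left (CV * C1)
    refine tsum_of_norm_bounded hsumtail (fun k => ?_)
    show ‖if k ≤ B then (0 : ℂ) else a k * HN V c m B X k / k‖ ≤ _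
    by_cases hkB : k ≤ B
    · rw [if_pos hkB, norm_zero]
      exact mul_nonneg hCC.le (htf0 k)
    · rw [if_neg hkB]
      have hkBx : Bx < k := by
        by_contra hcon
        exact hkB ((hBiff k).2 (not_lt.1 hcon))
      by_cases hu : ∃ u ∈ H, ((u : (ZMod q)ˣ) : ZMod q) = (k : ZMod q)
      · have hk1 : 1 ≤ k := by omega
        have hkpos : (0 : ℝ) < k := by exact_mod_cast hk1
        have e1 := ha1 k
        have e2 : tf k = (k : ℝ) ^ (-1 / 2 + η) * Real.exp (-(k / (Bx * X))) := by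
          show Set.indicator _ _ k = _
          rw [Set.indicator_of_mem]
          exact ⟨hkBx, hu⟩
        rw [e2, norm_div, norm_mul, Complex.norm_natCast, div_le_iff₀ hkpos]
        refine (mul_le_of_le_one_left (norm_nonneg _) e1).trans ?_
        refine (HN_large hV h B Bx X hX hBle (by linarith) hk1).trans ?_
        have e3 : (k : ℝ) ^ (-1 / 2 + η) * k = (k : ℝ) ^ η * Real.sqrt k := by
          rw [Real.sqrt_eq_rpow, ← Real.rpow_add hkpos]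
          nth_rewrite 2 [← Real.rpow_one (k : ℝ)]
          rw [← Real.rpow_add hkpos]
          congr 1
          ring
        calc CV * ((k.divisors.card : ℝ) ^ 3 * Real.sqrt k * Real.exp (-((k : ℝ) / (Bx * X)))) ≤
              CV * ((C1 * (k : ℝ) ^ η) * Real.sqrt k * Real.exp (-((k : ℝ) / (Bx * X)))) := by
              have := hC1 k hk1
              gcongr
          _ = CV * (C1 * ((k : ℝ) ^ η * Real.sqrt k) * Real.exp (-((k : ℝ) / (Bx * X)))) := by ring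
          _ = CV * (C1 * ((k : ℝ) ^ (-1 / 2 + η) * k) * Real.exp (-((k : ℝ) / (Bx * X)))) := by
              rw [e3]
          _ = _ := by ring
      · have e0 : ai q H k = 0 := by unfold ai; rw [if_neg hu]
        have e1 : a k = 0 := by
          have := ha k
          rw [e0] at this
          exact norm_eq_zero.1 (le_antisymm this (norm_nonneg _))
        rw [e1]
        simp only [zero_mul, zero_div, norm_zero]
        exact mul_nonneg hCC.le (htf0 k)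
  have hfin : ∑' k : ℕ, a k * HN V c m B X k / k - a 1 * (VV V X 1 : ℂ) =
      (∑ k ∈ range (B + 1), f1 k - a 1 * (VV V X 1 : ℂ)) + ∑' k, f2 k := by
    have : ∑' k : ℕ, a k * HN V c m B X k / k = ∑' k, p k := rfl
    rw [this, hsplit, ht1]
    ring
  rw [hfin]
  exact (norm_add_le _ _).trans (add_le_add hsum1 ht2)

/-- the double sum for one `r` -/
theorem one_rN {V : ℝ → ℝ} {CV : ℝ} (hV : VW V CV) (h2 : G_ORTH) {c m : ℕ → ℂ}
    (h : NInv c m) (q : ℕ) [NeZero q] (χ₀ : DirichletCharacter ℂ q) (B : ℕ) (X : ℝ) (hX : 0 < X)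
    (t e : ℕ) (hed : e ∣ orderOf χ₀) :
    ∑ b ∈ Icc 1 B, (m b / b) * ∑ ψ ∈ Cg q χ₀ e,
      (χ₀ ^ t * ψ) (b : ZMod q) * (∑' n : ℕ, (χ₀ ^ t * ψ) (n : ZMod q) * c n / n *
        (V (n / (X / 2)) : ℂ)) =
    (e : ℂ) * ∑' k : ℕ, AA q χ₀ t e k * HN V c m B X k / k := by
  classical
  have hC := hV.pos
  have hsχ : ∀ χ : DirichletCharacter ℂ q, Summable (fun n : ℕ => χ (n : ZMod q) * c n / n *
      (V (n / (X / 2)) : ℂ)) := fun χ =>
    summ_cN hV h X hX (fun n => χ (n : ZMod q)) 1 (fun n => χ.norm_le_one _)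
  have hb : ∀ b : ℕ, ∑ ψ ∈ Cg q χ₀ e, (χ₀ ^ t * ψ) (b : ZMod q) *
      (∑' n : ℕ, (χ₀ ^ t * ψ) (n : ZMod q) * c n / n * (V (n / (X / 2)) : ℂ)) =
      (e : ℂ) * ∑' n : ℕ, AA q χ₀ t e (b * n) * c n / n * (VV V X n : ℂ) := by
    intro b
    have e1 : ∀ ψ ∈ Cg q χ₀ e, (χ₀ ^ t * ψ) (b : ZMod q) * (∑' n : ℕ,
        (χ₀ ^ t * ψ) (n : ZMod q) * c n / n * (V (n / (X / 2)) : ℂ)) =
        ∑' n : ℕ, (χ₀ ^ t * ψ) (b : ZMod q) * ((χ₀ ^ t * ψ) (n : ZMod q) * c n / n *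
        (V (n / (X / 2)) : ℂ)) := fun ψ _ => tsum_mul_left.symm
    rw [sum_congr rfl e1, ← Summable.tsum_finsetSum (fun ψ _ => (hsχ (χ₀ ^ t * ψ)).mul_left _),
      ← tsum_mul_left]
    refine tsum_congr (fun n => ?_)
    have e2 : ∀ ψ ∈ Cg q χ₀ e, (χ₀ ^ t * ψ) (b : ZMod q) * ((χ₀ ^ t * ψ) (n : ZMod q) *
        c n / n * (V (n / (X / 2)) : ℂ)) =
        (χ₀ ^ t * ψ) ((b * n : ℕ) : ZMod q) * (c n / n * (V (n / (X / 2)) : ℂ)) := by
      intro ψ _
      rw [Nat.cast_mul, map_mul]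
      ring
    rw [sum_congr rfl e2, ← sum_mul, sum_cg h2 q χ₀ t e hed]
    unfold VV
    ring
  rw [← (reindexN hV h B X hX (AA q χ₀ t e) 1 (fun n => (AA_norm q χ₀ t e n).trans
    ((le_abs_self _).trans (ai_abs _ _ _)))).2, mul_sum]
  refine sum_congr rfl fun b _ => ?_
  rw [hb b]
  ring

theorem aa_boundN {V : ℝ → ℝ} {CV : ℝ} (hV : VW V CV) {c m : ℕ → ℂ} (h : NInv c m) (hc : c 1 = 1)
    (η C1 : ℝ) (hη1 : η < 1 / 8)
    (hC1pos : 0 < C1) (hC1 : ∀ n : ℕ, 1 ≤ n → (n.divisors.card : ℝ) ^ 3 ≤ C1 * (n : ℝ) ^ η)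
    (q : ℕ) (χ₀ : DirichletCharacter ℂ q) (t e : ℕ) (Bx X : ℝ) (hBx : 1 ≤ Bx) (hX : 0 < X) :
    ‖∑' k : ℕ, AA q χ₀ t e k * HN V c m ⌊Bx⌋₊ X k / k - (VV V X 1 : ℂ)‖ ≤
      2 * CV * (Bx ^ 5 / X) + CV * C1 * tail q (Hg q χ₀ e) Bx (Bx * X) η := by
  have b1 := pe_genN hV h hc η C1 hη1 hC1pos hC1 q (Hg q χ₀ e) Bx X hBx hX
    (AA q χ₀ t e) (AA_norm q χ₀ t e)
  rwa [AA_one, one_mul] at b1

theorem n_mainp (h1 : S_DIV) (h2 : G_ORTH) (h3 : M_MOB) (h4 : G_TAIL) : N_MAINP := by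
  classical
  intro V CV hV c m hc hInv ε hε hε4
  have hCV := hV.pos
  obtain ⟨η, δ0, C0, hη, hη8, hδ0, hC0, htail⟩ := h4 ε hε hε4
  obtain ⟨Ca, hCa, hdiv, _⟩ := h1 (η / 3) (by positivity)
  obtain ⟨ρ, hρ, hρ1, hρ2⟩ : ∃ ρ : ℝ, 0 < ρ ∧ 2 * ρ ≤ δ0 ∧ 2 * ρ ≤ 1 / 2 := by
    refine ⟨min δ0 (1 / 2) / 2, by positivity, ?_, ?_⟩
    · linarith [min_le_left δ0 (1 / 2)]
    · linarith [min_le_right δ0 (1 / 2)]
  obtain ⟨Cb, hCb, hdivb, _⟩ := h1 ρ hρ
  obtain ⟨C1, hC1⟩ : ∃ C1 : ℝ, C1 = Ca ^ 3 := ⟨_, rfl⟩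
  have hC1pos : 0 < C1 := by rw [hC1]; positivity
  have hC1b : ∀ n : ℕ, 1 ≤ n → (n.divisors.card : ℝ) ^ 3 ≤ C1 * (n : ℝ) ^ η := by
    intro n hn
    have := hdiv n hn
    calc (n.divisors.card : ℝ) ^ 3 ≤ (Ca * (n : ℝ) ^ (η / 3)) ^ 3 := by gcongr
      _ = C1 * ((n : ℝ) ^ (η / 3)) ^ 3 := by rw [mul_pow, hC1]
      _ = C1 * (n : ℝ) ^ η := by
          rw [← Real.rpow_natCast, ← Real.rpow_mul (by positivity)]
          congr 2
          push_cast
          ring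
  refine ⟨ρ, 2 * Cb * (2 * CV + CV * C1 * C0) + 2 * CV, 1, hρ, by positivity, ?_⟩
  intro q hq _ χ₀ hdq M hM1 hMd
  obtain ⟨t, hcardM, hmob⟩ := h3 q χ₀ M hM1 hMd
  obtain ⟨d, hddef⟩ : ∃ d : ℕ, d = orderOf χ₀ := ⟨_, rfl⟩
  have hq1 : 1 ≤ q := Nat.one_le_iff_ne_zero.2 (NeZero.ne q)
  have hqR : (1 : ℝ) ≤ q := by exact_mod_cast hq1
  have hqpos : (0 : ℝ) < q := by linarith
  obtain ⟨X, hXdef⟩ : ∃ X : ℝ, X = (q : ℝ) ^ (3 / 2 : ℝ) := ⟨_, rfl⟩
  have hX : 0 < X := by rw [hXdef]; positivity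
  obtain ⟨Bx, hBxdef⟩ : ∃ Bx : ℝ, Bx = (q : ℝ) ^ (ε / 2) := ⟨_, rfl⟩
  have hBx : 1 ≤ Bx := by rw [hBxdef]; exact Real.one_le_rpow hqR (by positivity)
  have hdpos : 0 < d := by
    rw [hddef]
    exact orderOf_pos χ₀
  have hcard : ∀ e : ℕ, e ∣ orderOf χ₀ → e * Nat.card (Hg q χ₀ e) ≤ q := fun e he =>
    (h2 q χ₀ e he).1.le.trans (Nat.totient_le q)
  have hdle : d ≤ q := by
    have g1 := hcard (orderOf χ₀) dvd_rfl
    have g2 : 0 < Nat.card (Hg q χ₀ (orderOf χ₀)) := Nat.card_pos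
    rw [← hddef] at g1 g2
    exact (Nat.le_mul_of_pos_right d g2).trans g1
  have hdR : (0 : ℝ) < d := by exact_mod_cast hdpos
  -- the divisors
  obtain ⟨R, hRdef⟩ : ∃ R : Finset ℕ, R = (orderOf χ₀).divisors.filter
    (fun r => Nat.Coprime r M) := ⟨_, rfl⟩
  have hRd : ∀ r ∈ R, (orderOf χ₀ / (r * M)) ∣ orderOf χ₀ := by
    intro r hr
    rw [hRdef, mem_filter, Nat.mem_divisors] at hr
    exact Nat.div_dvd_of_dvd (Nat.Coprime.mul_dvd_of_dvd_of_dvd hr.2 hr.1.1 hMd)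
  have hRcard : R.card ≤ (orderOf χ₀).divisors.card := by
    rw [hRdef]
    exact card_filter_le _ _
  -- the number of characters
  have hEm : ((Em q χ₀ M).card : ℂ) = ∑ r ∈ R, ((ArithmeticFunction.moebius r : ℤ) : ℂ) *
      ((orderOf χ₀ / (r * M) : ℕ) : ℂ) := by
    have g1 := hmob (fun _ => 1)
    rw [← hRdef] at g1
    simp only [sum_const, nsmul_eq_mul, mul_one] at g1
    rw [g1]
    refine sum_congr rfl fun r hr => ?_
    congr 1
    have g2 := ((h2 q χ₀ _ (hRd r hr)).2 1).1 (one_mem _)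
    simpa using g2
  have hEmle : ((Em q χ₀ M).card : ℝ) ≤ d := by
    have g1 : 0 < Nat.totient M := Nat.totient_pos.2 hM1
    have g2 : (Em q χ₀ M).card ≤ (Em q χ₀ M).card * Nat.totient M := Nat.le_mul_of_pos_right _ g1
    have g3 := Nat.totient_le (orderOf χ₀)
    rw [hcardM] at g2
    rw [← hddef] at g2 g3
    exact_mod_cast g2.trans g3
  -- the sum
  have hS : ∑ b ∈ Icc 1 ⌊Bx⌋₊, (m b / b) * ∑ χ ∈ Em q χ₀ M,
      χ (b : ZMod q) * (∑' n : ℕ, χ (n : ZMod q) * c n / n *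
        (V (n / (X / 2)) : ℂ)) =
      ∑ r ∈ R, ((ArithmeticFunction.moebius r : ℤ) : ℂ) *
        (((orderOf χ₀ / (r * M) : ℕ) : ℂ) * ∑' k : ℕ,
          AA q χ₀ (t r) (orderOf χ₀ / (r * M)) k * HN V c m ⌊Bx⌋₊ X k / k) := by
    have g1 : ∀ b ∈ Icc 1 ⌊Bx⌋₊, (m b / b) * ∑ χ ∈ Em q χ₀ M,
        χ (b : ZMod q) * (∑' n : ℕ, χ (n : ZMod q) * c n / n *
          (V (n / (X / 2)) : ℂ)) =
        ∑ r ∈ R, ((ArithmeticFunction.moebius r : ℤ) : ℂ) * ((m b / b) *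
          ∑ ψ ∈ Cg q χ₀ (orderOf χ₀ / (r * M)),
          (χ₀ ^ (t r) * ψ) (b : ZMod q) * (∑' n : ℕ, (χ₀ ^ (t r) * ψ) (n : ZMod q) *
            c n / n * (V (n / (X / 2)) : ℂ))) := by
      intro b _
      rw [hmob (fun χ => χ (b : ZMod q) * (∑' n : ℕ, χ (n : ZMod q) * c n / n *
          (V (n / (X / 2)) : ℂ))), ← hRdef, mul_sum]
      refine sum_congr rfl fun r _ => ?_
      ring
    rw [sum_congr rfl g1, sum_comm]
    refine sum_congr rfl fun r hr => ?_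
    rw [← mul_sum, one_rN hV h2 hInv q χ₀ ⌊Bx⌋₊ X hX (t r) _ (hRd r hr)]
  rw [← hXdef, ← hBxdef, hS, hEm]
  -- the terms
  have htl : ∀ e : ℕ, 0 ≤ tail q (Hg q χ₀ e) Bx (Bx * X) η := by
    intro e
    unfold tail
    refine tsum_nonneg fun k => Set.indicator_nonneg (fun k _ => ?_) k
    positivity
  have hP : ∀ r ∈ R, ((orderOf χ₀ / (r * M) : ℕ) : ℝ) * ‖∑' k : ℕ,
      AA q χ₀ (t r) (orderOf χ₀ / (r * M)) k * HN V c m ⌊Bx⌋₊ X k / k - (VV V X 1 : ℂ)‖ ≤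
      2 * (2 * CV * (d * (Bx ^ 5 / X)) + CV * C1 * (C0 * d * (q : ℝ) ^ (-δ0))) := by
    intro r hr
    obtain ⟨e, he⟩ : ∃ e : ℕ, e = orderOf χ₀ / (r * M) := ⟨_, rfl⟩
    have hed := hRd r hr
    rw [← he] at hed ⊢
    have hele : (e : ℝ) ≤ d := by
      rw [hddef]
      exact_mod_cast Nat.le_of_dvd (orderOf_pos χ₀) hed
    have b1 := aa_boundN hV hInv hc η C1 hη8 hC1pos hC1b q χ₀ (t r) e Bx X hBx hX
    have b0 := htl e
    have b2 := htail q d e (hddef ▸ hed) hdle (hddef ▸ hdq) (Hg q χ₀ e) (hcard e hed)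
    have b3 : Bx * X = (q : ℝ) ^ (3 / 2 + ε / 2) := by
      rw [hBxdef, hXdef, ← Real.rpow_add hqpos]
      congr 1
      ring
    rw [b3] at b1 b0
    rw [← hBxdef] at b2
    calc (e : ℝ) * ‖∑' k : ℕ, AA q χ₀ (t r) e k * HN V c m ⌊Bx⌋₊ X k / k - (VV V X 1 : ℂ)‖ ≤
          e * (2 * CV * (Bx ^ 5 / X) +
            CV * C1 * tail q (Hg q χ₀ e) Bx ((q : ℝ) ^ (3 / 2 + ε / 2)) η) := by gcongr
      _ ≤ 2 * (e * (2 * CV * (Bx ^ 5 / X) +
            CV * C1 * tail q (Hg q χ₀ e) Bx ((q : ℝ) ^ (3 / 2 + ε / 2)) η)) := by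
            have : 0 ≤ (e : ℝ) * (2 * CV * (Bx ^ 5 / X) +
              CV * C1 * tail q (Hg q χ₀ e) Bx ((q : ℝ) ^ (3 / 2 + ε / 2)) η) := by positivity
            linarith
      _ = 2 * (2 * CV * (e * (Bx ^ 5 / X)) +
            CV * C1 * (e * tail q (Hg q χ₀ e) Bx ((q : ℝ) ^ (3 / 2 + ε / 2)) η)) := by ring
      _ ≤ 2 * (2 * CV * (d * (Bx ^ 5 / X)) + CV * C1 * (C0 * d * (q : ℝ) ^ (-δ0))) := by gcongr
  have hsplit : ∑ r ∈ R, ((ArithmeticFunction.moebius r : ℤ) : ℂ) *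
        (((orderOf χ₀ / (r * M) : ℕ) : ℂ) * ∑' k : ℕ,
          AA q χ₀ (t r) (orderOf χ₀ / (r * M)) k * HN V c m ⌊Bx⌋₊ X k / k) -
      ∑ r ∈ R, ((ArithmeticFunction.moebius r : ℤ) : ℂ) * ((orderOf χ₀ / (r * M) : ℕ) : ℂ) =
      ∑ r ∈ R, ((ArithmeticFunction.moebius r : ℤ) : ℂ) *
        (((orderOf χ₀ / (r * M) : ℕ) : ℂ) * (∑' k : ℕ,
          AA q χ₀ (t r) (orderOf χ₀ / (r * M)) k * HN V c m ⌊Bx⌋₊ X k / k -
            (VV V X 1 : ℂ))) +
      ((VV V X 1 : ℂ) - 1) * ((Em q χ₀ M).card : ℂ) := by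
    rw [hEm, mul_sum, ← sum_add_distrib, ← sum_sub_distrib]
    refine sum_congr rfl (fun e _ => ?_)
    ring
  rw [hsplit]
  have hE1 : ‖(VV V X 1 : ℂ) - 1‖ ≤ 2 * CV * (1 / X) := by
    have g1 := VV_one hV X hX 1
    push_cast at g1
    have g2 : (VV V X 1 : ℂ) - 1 = ((VV V X 1 - 1 : ℝ) : ℂ) := by push_cast; rfl
    rw [g2, Complex.norm_real, Real.norm_eq_abs]
    exact g1
  have hτ : (R.card : ℝ) ≤ Cb * (q : ℝ) ^ ρ := by
    have g0 : (R.card : ℝ) ≤ (d.divisors.card : ℝ) := by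
      rw [hddef]
      exact_mod_cast hRcard
    refine g0.trans ((hdivb d hdpos).trans ?_)
    have : (d : ℝ) ≤ q := by exact_mod_cast hdle
    gcongr
  have hmain : ‖∑ r ∈ R, ((ArithmeticFunction.moebius r : ℤ) : ℂ) *
        (((orderOf χ₀ / (r * M) : ℕ) : ℂ) * (∑' k : ℕ,
          AA q χ₀ (t r) (orderOf χ₀ / (r * M)) k * HN V c m ⌊Bx⌋₊ X k / k -
            (VV V X 1 : ℂ)))‖ ≤
      R.card * (2 * (2 * CV * (d * (Bx ^ 5 / X)) + CV * C1 * (C0 * d * (q : ℝ) ^ (-δ0)))) := by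
    calc _ ≤ ∑ r ∈ R, ‖((ArithmeticFunction.moebius r : ℤ) : ℂ) *
        (((orderOf χ₀ / (r * M) : ℕ) : ℂ) * (∑' k : ℕ,
          AA q χ₀ (t r) (orderOf χ₀ / (r * M)) k * HN V c m ⌊Bx⌋₊ X k / k -
            (VV V X 1 : ℂ)))‖ := norm_sum_le _ _
      _ ≤ ∑ r ∈ R,
          (2 * (2 * CV * (d * (Bx ^ 5 / X)) + CV * C1 * (C0 * d * (q : ℝ) ^ (-δ0)))) := by
          refine sum_le_sum (fun r hr => ?_)
          rw [norm_mul, norm_mul, Complex.norm_natCast, Complex.norm_intCast]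
          have g1 : |((ArithmeticFunction.moebius r : ℤ) : ℝ)| ≤ 1 := by
            have := ArithmeticFunction.abs_moebius_le_one (n := r)
            exact_mod_cast this
          have g2 := hP r hr
          refine (mul_le_of_le_one_left ?_ g1).trans g2
          positivity
      _ = _ := by rw [sum_const, nsmul_eq_mul]
  -- numerical estimates
  have hn1 : Bx ^ 5 / X ≤ (q : ℝ) ^ (-(2 * ρ)) := by
    rw [hBxdef, hXdef, ← Real.rpow_natCast, ← Real.rpow_mul hqpos.le, ← Real.rpow_sub hqpos]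
    apply Real.rpow_le_rpow_of_exponent_le hqR
    push_cast
    linarith
  have hn2 : (q : ℝ) ^ (-δ0) ≤ (q : ℝ) ^ (-(2 * ρ)) :=
    Real.rpow_le_rpow_of_exponent_le hqR (by linarith)
  have hn3 : 1 / X ≤ (q : ℝ) ^ (-ρ) := by
    rw [hXdef, one_div, ← Real.rpow_neg hqpos.le]
    exact Real.rpow_le_rpow_of_exponent_le hqR (by linarith)
  have hn4 : (q : ℝ) ^ ρ * (q : ℝ) ^ (-(2 * ρ)) = (q : ℝ) ^ (-ρ) := by
    rw [← Real.rpow_add hqpos]
    congr 1
    ring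
  have hQ : 0 < (q : ℝ) ^ (-ρ) := by positivity
  rw [← hddef]
  rw [← hddef] at hmain
  calc _ ≤ R.card * (2 * (2 * CV * (d * (Bx ^ 5 / X)) + CV * C1 * (C0 * d * (q : ℝ) ^ (-δ0)))) +
        2 * CV * (1 / X) * ((Em q χ₀ M).card : ℝ) := by
        refine (norm_add_le _ _).trans (add_le_add hmain ?_)
        rw [norm_mul, Complex.norm_natCast]
        gcongr
    _ ≤ (Cb * (q : ℝ) ^ ρ) * (2 * (2 * CV * (d * (q : ℝ) ^ (-(2 * ρ))) +
          CV * C1 * (C0 * d * (q : ℝ) ^ (-(2 * ρ))))) +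
        2 * CV * (q : ℝ) ^ (-ρ) * d := by gcongr
    _ = 2 * Cb * (2 * CV + CV * C1 * C0) * d * ((q : ℝ) ^ ρ * (q : ℝ) ^ (-(2 * ρ))) +
        2 * CV * (q : ℝ) ^ (-ρ) * d := by ring
    _ = (2 * Cb * (2 * CV + CV * C1 * C0) + 2 * CV) * d * (q : ℝ) ^ (-ρ) := by rw [hn4]; ring

end Pool.Agent.X284.KS
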