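import Pool.Agent.X284.KS.FinnN
import Pool.Agent.TH940.Pack
import Pool.Agent.W904.CY.Dualp
import Pool.Agent.W804.CY.NCoef
import Pool.Agent.W597.CY.TwistN

/-! All the analytic parts for newforms with nebentypus. -/

set_option autoImplicit false

namespace Pool.Agent.X284.KS

open Pool.Agent.W192.CY

theorem nfinn : N_FINN := by
  have hdiv := Pool.Agent.W216.CY.t_div
  have horth := Pool.Agent.W230.CY.t_orth
  have hweil := Pool.Agent.W305.CY.t_weil Pool.Agent.W74.CY.wpp hdiv
  have htail := Pool.Agent.W736.CY.GTAIL.t_gtail (Pool.Agent.W143.CY.g_count hdiv)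
  have hmob := Pool.Agent.W155.CY.m_mob
  have hkloo := Pool.Agent.W976.CYKloom.m_kloo horth hweil
  exact n_finn hdiv hmob (n_mainp hdiv horth hmob htail)
    (Pool.Agent.W904.CYNDualp.n_dualp hdiv hmob hkloo)

end Pool.Agent.X284.KS
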