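import Pool.Agent.X284.KS.SpN
import Pool.Agent.X284.KS.MelB
import Pool.Agent.X284.KS.Nf
import Pool.Agent.TH936.NF.Gal
import Pool.Agent.TH936.HK.AFE

/-!
The twists of a newform of weight `2 m` with nebentypus: nonvanishing at the centre for all
characters of large order, and the order of vanishing.
-/

set_option autoImplicit false

open Complex Filter Topology Set UpperHalfPlane MatrixGroups CongruenceSubgroup ZMod

namespace Pool.Agent.X284.KS

open Pool.Agent.W192.CY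
open Pool.Agent.W440.TW (inv_primitive gauss_ne_zero gauss_conj)

/-- the values of `χ` at units are roots of unity of order dividing the order of `χ` -/
lemma chi_root {q : ℕ} (χ : DirichletCharacter ℂ q) (u : (ZMod q)ˣ) :
    χ (u : ZMod q) ^ (orderOf χ) = 1 := by
  have h2 : (χ ^ (orderOf χ)) (u : ZMod q) = 1 := by
    rw [pow_orderOf_eq_one, MulChar.one_apply_coe]
  rwa [MulChar.pow_apply_coe] at h2

theorem packN {m N : ℕ} [NeZero N] (hm : 1 ≤ m) {η : DirichletCharacter ℂ N}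
    {f : CuspForm (Gamma1 N : Subgroup (GL (Fin 2) ℝ)) (2 * m : ℤ)} {w : ℂ}
    (hf : NNewf m N η f w) :
    ∃ (K : ℝ) (F : (q : ℕ) → DirichletCharacter ℂ q → ℂ → ℂ), 0 < K ∧
      (∀ (q : ℕ) (χ : DirichletCharacter ℂ q), 1 ≤ q → Nat.Coprime q N → χ.IsPrimitive →
        Differentiable ℂ (F q χ) ∧ (∀ s : ℂ, (m : ℝ) + 1 / 2 < s.re →
          HasProd (fun p : Nat.Primes =>
            (1 - χ ((p : ℕ) : ZMod q) * cf f p * ((p : ℕ) : ℂ) ^ (-s) +
              χ ((p : ℕ) : ZMod q) ^ 2 * η ((p : ℕ) : ZMod N) *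
                ((p : ℕ) : ℂ) ^ (2 * (m : ℂ) - 1 - 2 * s))⁻¹) (F q χ s)) ∧
        F q χ (m + 3 / 2) ≠ 0 ∧
        (analyticOrderNatAt (F q χ) m : ℝ) ≤ K * (1 + Real.log q)) ∧
      ∀ δ : ℝ, 0 < δ → ∃ q0 : ℝ, ∀ q : ℕ, q0 ≤ q → 1 < q → Nat.Coprime q N →
        ∀ χ : DirichletCharacter ℂ q, χ.IsPrimitive → (q : ℝ) ^ (3 / 4 + δ) ≤ orderOf χ →
          F q χ m ≠ 0 := by
  classical
  have hNn : 0 < N := Nat.pos_of_ne_zero (NeZero.ne N)
  have hN1 : (1 : ℝ) ≤ N := by exact_mod_cast hNn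
  have hN0 : (0 : ℝ) < N := by linarith
  have hsN : 1 ≤ Real.sqrt N := Real.one_le_sqrt.2 hN1
  have hpi := Real.pi_pos
  have hmr : (1 : ℝ) ≤ m := by exact_mod_cast hm
  obtain ⟨μ, hμ⟩ := Pool.Agent.W804.CY.n_coef m hm N η f w hf
  obtain ⟨A, hA, hlow⟩ := inv_lower hμ
  obtain ⟨K, hK, hmel⟩ := mellinB m hm ((m : ℝ) + 1) 1 (by positivity) (by linarith)
  obtain ⟨CV, hVW⟩ := Pool.Agent.TH936.HK.h_vk m hm
  -- the functions
  have hex : ∀ (q : ℕ) (χ : DirichletCharacter ℂ q), ∃ F : ℂ → ℂ,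
      (∀ (_ : NeZero q), 1 ≤ q → Nat.Coprime q N → χ.IsPrimitive → Differentiable ℂ F ∧
        (∀ s : ℂ, (m : ℝ) + 1 / 2 < s.re →
          F s = ∑' n : ℕ, χ (n : ZMod q) * cf f n * (n : ℂ) ^ (-s)) ∧
        (∀ X Y : ℝ, 0 < X → 0 < Y → X * Y = N * (q : ℝ) ^ 2 / (4 * Real.pi ^ 2) →
          F m = ∑' n : ℕ, χ (n : ZMod q) * cf f n / (n : ℂ) ^ m * (Vk m (n / X) : ℂ) +
            ((w * η (q : ZMod N)) * χ (N : ZMod q) *
              gaussSum χ (ZMod.stdAddChar (N := q)) ^ 2 / q) *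
            ∑' n : ℕ, (starRingEnd ℂ) (χ (n : ZMod q) * cf f n) / (n : ℂ) ^ m *
              (Vk m (n / Y) : ℂ)) ∧
        ∀ s : ℂ, ‖s - m‖ ≤ 8 → ‖F s‖ ≤ K * (Real.sqrt N * q) ^ 18) := by
    intro q χ
    by_cases h : 1 ≤ q ∧ Nat.Coprime q N ∧ χ.IsPrimitive
    · obtain ⟨h1, h2, h3⟩ := h
      have : NeZero q := ⟨by omega⟩
      have hq1 : (1 : ℝ) ≤ q := by exact_mod_cast h1
      have hRq : 1 ≤ Real.sqrt N * q := by nlinarith
      set w' : ℂ := (w * η (q : ZMod N)) * χ (N : ZMod q) *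
        gaussSum χ (stdAddChar (N := q)) ^ 2 / q with hw'
      have hχi := inv_primitive χ h3
      have hg0 : gaussSum χ (stdAddChar (N := q)) ≠ 0 := gauss_ne_zero χ h3
      have hwn : ‖w'‖ = 1 := by
        have e1 : ‖gaussSum χ⁻¹ (stdAddChar (N := q))‖ = ‖gaussSum χ (stdAddChar (N := q))‖ :=
          gauss_conj χ
        have e2 : ‖χ (-(N : ZMod q))‖ = 1 := by
          have hu : IsUnit (-(N : ZMod q)) :=
            ((ZMod.isUnit_iff_coprime N q).2 h2.symm).neg
          have := χ.unit_norm_eq_one hu.unit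
          simpa using this
        have e3 : ‖η (q : ZMod N)‖ = 1 := by
          have hu : IsUnit (q : ZMod N) := (ZMod.isUnit_iff_coprime q N).2 h2
          have := η.unit_norm_eq_one hu.unit
          simpa using this
        rw [hw', ← Pool.Agent.W378.CY.root_number q χ h3 (w * η (q : ZMod N)) (N : ZMod q),
          norm_div, norm_mul, norm_mul, norm_mul, hf.norm, e3, e2, e1, one_mul, one_mul, one_mul]
        exact div_self (norm_ne_zero_iff.2 hg0)
      have htheta : ∀ t : ℝ, 0 < t → ∑' n : ℕ, χ (n : ZMod q) * cf f n *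
          (Real.exp (-(2 * Real.pi * n / (Real.sqrt N * q)) / t) : ℂ) =
          w' * (t : ℂ) ^ (2 * m) * ∑' n : ℕ, (starRingEnd ℂ) (χ (n : ZMod q) * cf f n) *
            (Real.exp (-(2 * Real.pi * n / (Real.sqrt N * q)) * t) : ℂ) := fun t ht =>
        Pool.Agent.W597.CYN.n_twist m hm N η f w hf q χ h2 h3 t ht
      obtain ⟨F, hF1, hF2, hF3, hF4⟩ := hmel (fun n => χ (n : ZMod q) * cf f n)
        (Real.sqrt N * q) hRq (by rw [cf_zero, mul_zero]) (fun n hn => by
          rw [norm_mul]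
          have e1 := DirichletCharacter.norm_le_one χ (n : ZMod q)
          calc ‖χ (n : ZMod q)‖ * ‖cf f n‖ ≤ 1 * ‖cf f n‖ := by
                gcongr
            _ = ‖cf f n‖ := one_mul _
            _ ≤ _ := cf_bound hm hf hn) w' hwn htheta
      have hR2 : ∀ X Y : ℝ, X * Y = N * (q : ℝ) ^ 2 / (4 * Real.pi ^ 2) →
          X * Y = (Real.sqrt N * q) ^ 2 / (4 * Real.pi ^ 2) := by
        intro X Y h
        rw [h, mul_pow, Real.sq_sqrt hN0.le]
      have hser : ∀ s : ℂ, (m : ℝ) + 1 / 2 < s.re →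
          F s = ∑' n : ℕ, χ (n : ZMod q) * cf f n * (n : ℂ) ^ (-s) := by
        intro s hs
        exact Pool.Agent.TH936.HK.ext_series F hF1 (fun n => χ (n : ZMod q) * cf f n)
          (by rw [cf_zero, mul_zero]) ((m : ℝ) + 1 / 2)
          (fun s hs => (n_eul m hm N η f w hf q χ s hs).1) ((m : ℝ) + 1 + 2) hF2 s hs
      exact ⟨F, fun _ _ _ _ => ⟨hF1, hser, fun X Y hX hY hXY => hF3 X Y hX hY (hR2 X Y hXY), hF4⟩⟩
    · exact ⟨fun _ => 0, fun _ h1 h2 h3 => absurd ⟨h1, h2, h3⟩ h⟩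
  choose F hF using hex
  -- the value at `m + 3 / 2`
  have hval3 : ∀ (q : ℕ) (χ : DirichletCharacter ℂ q), 1 ≤ q → Nat.Coprime q N → χ.IsPrimitive →
      A⁻¹ ≤ ‖F q χ (m + 3 / 2)‖ := by
    intro q χ hq hqN hχ
    have : NeZero q := ⟨by omega⟩
    have hre : ((m : ℂ) + 3 / 2).re = m + 3 / 2 := by
      rw [Complex.add_re, Complex.natCast_re]; norm_num
    rw [(hF q χ inferInstance hq hqN hχ).2.1 _ (by rw [hre]; linarith)]
    have h1 := hlow q χ
    have e : ∀ n : ℕ, χ (n : ZMod q) * cf f n * (n : ℂ) ^ (-((m : ℂ) + 3 / 2)) =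
        χ (n : ZMod q) * (cf f n / (n : ℂ) ^ (m - 1)) * (n : ℂ) ^ (-(5 / 2 : ℂ)) := by
      intro n
      rw [term_eq hm]
      congr 2
      ring
    simp only [e]
    exact h1
  -- the order bound
  have hlog : 0 < Real.log (16 / 3) := Real.log_pos (by norm_num)
  have hApos : 0 < A := by linarith
  set B : ℝ := |Real.log (A * K)| + 18 * Real.log (Real.sqrt N) + 18 with hB
  have hlsN : 0 ≤ Real.log (Real.sqrt N) := Real.log_nonneg hsN
  have hB0 : 0 < B := by
    have := abs_nonneg (Real.log (A * K))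
    rw [hB]; linarith
  refine ⟨B / Real.log (16 / 3), F, by positivity, ?_, ?_⟩
  · intro q χ hq hqN hχ
    have : NeZero q := ⟨by omega⟩
    have hq1 : (1 : ℝ) ≤ q := by exact_mod_cast hq
    obtain ⟨g1, g2, g3, g4⟩ := hF q χ inferInstance hq hqN hχ
    have h2 := hval3 q χ hq hqN hχ
    refine ⟨g1, ?_, ?_, ?_⟩
    · intro s hs
      have h5 := (n_eul m hm N η f w hf q χ s hs).2
      rw [← g2 s hs] at h5
      exact h5
    · intro h
      rw [h, norm_zero] at h2
      have : 0 < A⁻¹ := by positivity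
      linarith
    · set n := analyticOrderNatAt (F q χ) m with hn
      have h3 := Pool.Agent.TH940.order_bound (F q χ) g1 m (m + 3 / 2) (R := 8)
        (M := K * (Real.sqrt N * q) ^ 18) (by norm_num)
        (by rw [add_sub_cancel_left]; norm_num) g4
      rw [← hn] at h3
      have h4 : ‖(m : ℂ) + 3 / 2 - m‖ / 8 = 3 / 16 := by
        rw [add_sub_cancel_left]; norm_num
      rw [h4] at h3
      have h5 : A⁻¹ ≤ K * (Real.sqrt N * q) ^ 18 * (3 / 16) ^ n := h2.trans h3
      have h6 : (16 / 3 : ℝ) ^ n ≤ A * K * (Real.sqrt N * q) ^ 18 := by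
        have h7 : (16 / 3 : ℝ) ^ n * (3 / 16) ^ n = 1 := by
          rw [← mul_pow]; norm_num
        have h8 : 0 < (16 / 3 : ℝ) ^ n := by positivity
        have h9 : 1 ≤ A * (K * (Real.sqrt N * q) ^ 18 * (3 / 16) ^ n) := by
          have := mul_le_mul_of_nonneg_left h5 hApos.le
          rwa [mul_inv_cancel₀ hApos.ne'] at this
        calc (16 / 3 : ℝ) ^ n = (16 / 3 : ℝ) ^ n * 1 := (mul_one _).symm
          _ ≤ (16 / 3 : ℝ) ^ n * (A * (K * (Real.sqrt N * q) ^ 18 * (3 / 16) ^ n)) := by gcongr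
          _ = A * K * (Real.sqrt N * q) ^ 18 * ((16 / 3 : ℝ) ^ n * (3 / 16) ^ n) := by ring
          _ = _ := by rw [h7, mul_one]
      have h10 := Real.log_le_log (by positivity) h6
      have hsp : 0 < Real.sqrt N := by linarith
      have e10 : Real.log (A * K * (Real.sqrt N * q) ^ 18) =
          Real.log (A * K) + 18 * (Real.log (Real.sqrt N) + Real.log q) := by
        rw [Real.log_mul (by positivity) (by positivity), Real.log_pow,
          Real.log_mul hsp.ne' (by positivity)]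
        norm_num
      rw [Real.log_pow, e10] at h10
      have h11 : 0 ≤ Real.log q := Real.log_nonneg hq1
      rw [div_mul_eq_mul_div, le_div_iff₀ hlog]
      have h12 := le_abs_self (Real.log (A * K))
      have h13 : 0 ≤ |Real.log (A * K)| := abs_nonneg _
      rw [hB]
      nlinarith [mul_nonneg h13 h11, mul_nonneg hlsN h11]
  · -- nonvanishing
    intro δ hδ
    obtain ⟨c1, W, hW⟩ := newf_space hm hf
    have hWfg : (W.map (LinearMap.mulLeft ℚ ((2 * Real.pi * Complex.I : ℂ) ^ m))).FG :=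
      hW.fg.map _
    obtain ⟨M, hM, hgal⟩ := Pool.Agent.TH936.NF.galW _ hWfg
    obtain ⟨q0, hq0⟩ := nfinn (Vk m) CV hVW N hNn
      (fun n => cf f n / (n : ℂ) ^ (m - 1)) μ (by simp [hf.one]) hμ M hM δ hδ
    refine ⟨q0, fun q hq hq1 hqN χ hχ hord => ?_⟩
    have : NeZero q := ⟨by omega⟩
    have hq1' : 1 ≤ q := by omega
    have hterm : ∀ (z : ℂ) (n : ℕ), z * cf f n / (n : ℂ) ^ m =
        z * (cf f n / (n : ℂ) ^ (m - 1)) / n := by
      intro z n
      rcases Nat.eq_zero_or_pos n with rfl | hn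
      · rw [cf_zero]; simp
      · have hn' : (n : ℂ) ≠ 0 := by exact_mod_cast hn.ne'
        have e : (n : ℂ) ^ m = (n : ℂ) ^ (m - 1) * n := by
          rw [← pow_succ]; congr 1; omega
        rw [e]
        field_simp
    have hη1 : ‖w * η (q : ZMod N)‖ = 1 := by
      have hu : IsUnit (q : ZMod N) := (ZMod.isUnit_iff_coprime q N).2 hqN
      have := η.unit_norm_eq_one hu.unit
      rw [norm_mul, hf.norm, one_mul]
      simpa using this
    obtain ⟨a, ha1, ha2, ha3, ha4⟩ := hq0 q hq hqN (w * η (q : ZMod N)) hη1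
      (fun ψ => F q ψ m) (by
      intro ψ hψ X Y hX hY hXY
      have h1 := (hF q ψ inferInstance hq1' hqN hψ).2.2.1 X Y hX hY hXY
      rw [h1]
      congr 1
      · refine tsum_congr fun n => ?_
        rw [hterm]
      · congr 1
        refine tsum_congr fun n => ?_
        congr 1
        rw [map_mul]
        have h2 := congrArg (starRingEnd ℂ) (hterm (ψ (n : ZMod q)) n)
        simp only [map_div₀, map_mul, map_pow, Complex.conj_natCast] at h2
        rw [h2, map_div₀, map_pow, Complex.conj_natCast]) χ hχ hord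
    intro h0
    have hqp : 0 < (q : ℝ) ^ (-δ) := by
      have : (0 : ℝ) < q := by exact_mod_cast hq1'
      positivity
    -- the symbols
    obtain ⟨v, hv1, hv2⟩ := center hm (cf_Bd hm hf) (Bd_conj (cf_Bd hm hf)) hW hqN
    have hval : ∀ ψ : DirichletCharacter ℂ q, ψ.IsPrimitive →
        gaussSum ψ⁻¹ (stdAddChar (N := q)) * F q ψ m =
          ∑ u : (ZMod q)ˣ, ψ⁻¹ (u : ZMod q) * v u := by
      intro ψ hψ
      refine hv2 ψ⁻¹ (inv_primitive ψ hψ) (F q ψ m)
        ((w * η (q : ZMod N)) * ψ (N : ZMod q) * gaussSum ψ (ZMod.stdAddChar (N := q)) ^ 2 / q)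
        (fun n => (starRingEnd ℂ) (ψ (n : ZMod q) * cf f n)) ?_ ?_
      · refine Bd_conj (b := fun n => ψ (n : ZMod q) * cf f n) ?_
        have h1 := (cf_Bd hm hf).mul (c := fun n => ψ (n : ZMod q))
          (fun n _ => DirichletCharacter.norm_le_one ψ _)
        have e : (fun n : ℕ => ψ (n : ZMod q) * cf f n) = fun n : ℕ => cf f n * ψ (n : ZMod q) := by
          funext n; ring
        rw [e]
        exact h1
      · intro X Y hX hY hXY
        have h1 := (hF q ψ inferInstance hq1' hqN hψ).2.2.1 X Y hX hY hXY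
        rw [inv_inv]
        exact h1
    have h1 : ∑ u : (ZMod q)ˣ, χ⁻¹ (u : ZMod q) * v u = 0 := by
      rw [← hval χ hχ, h0, mul_zero]
    have h2 := hgal (orderOf χ) a (orderOf_pos χ) ha1 ha2 (ZMod q)ˣ
      (fun u => χ⁻¹ (u : ZMod q)) v (fun u => by
        have := chi_root χ⁻¹ u
        rwa [orderOf_inv] at this) hv1 h1
    have h3 : ∑ u : (ZMod q)ˣ, (χ ^ a)⁻¹ (u : ZMod q) * v u = 0 := by
      rw [← h2]
      refine Finset.sum_congr rfl fun u _ => ?_
      rw [← inv_pow, MulChar.pow_apply_coe]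
    rw [← hval (χ ^ a) ha3] at h3
    have h4 : F q (χ ^ a) m = 0 :=
      (mul_eq_zero.1 h3).resolve_left (gauss_ne_zero _ (inv_primitive _ ha3))
    rw [h4, norm_zero] at ha4
    linarith

end Pool.Agent.X284.KS
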