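import Pool.Agent.X284.KS.Coc

/-!
The boundary values at the cusps `u / q`, `(q, N) = 1`, lie in a finitely generated space.
-/

set_option autoImplicit false

open Complex Filter Topology Set Polynomial MatrixGroups CongruenceSubgroup

namespace Pool.Agent.X284.KS

/-- the space of periods -/
structure Space (D N M0 : ℕ) (b b' : ℕ → ℂ) (c1 : ℂ) (W : Submodule ℚ ℂ) : Prop where
  fg : W.FG
  root : ∀ ν : ℂ, ν ^ M0 = 1 → ∀ w ∈ W, ν * w ∈ W
  good : ∀ γ ∈ Gamma0 N, Good D b W M0 γ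
  fricke : ∀ P : ℚ[X], P.natDegree ≤ D → ∃ w ∈ W, ∀ z : ℂ, 0 < z.im →
    E D b P (-1 / ((N : ℂ) * z)) = c1 / N * E D b' (actF D N P) z + w

theorem exists_space {D N : ℕ} [NeZero N] (M0 : ℕ) (hM0 : 0 < M0) {b b' : ℕ → ℂ} (hb : Bd b)
    (hb' : Bd b') (hsl : ∀ γ ∈ Gamma0 N, ∃ ν : ℂ, ν ^ M0 = 1 ∧ ∀ z : ℂ, 0 < z.im →
      Q b (mob γ z) = ν * den γ z ^ (D + 2) * Q b z) {c1 : ℂ}
    (hfr : ∀ z : ℂ, 0 < z.im → Q b (-1 / ((N : ℂ) * z)) = c1 * z ^ (D + 2) * Q b' z) :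
    ∃ W : Submodule ℚ ℂ, Space D N M0 b b' c1 W := by
  classical
  have hN : 0 < N := Nat.pos_of_ne_zero (NeZero.ne N)
  -- a finite set of generators
  have hfgG : Group.FG SL(2, ℤ) := by
    rw [Group.fg_iff]
    exact ⟨{ModularGroup.S, ModularGroup.T}, SpecialLinearGroup.SL2Z_generators, by simp⟩
  have hfg : (Gamma0 N).FG := by
    rw [← Group.fg_iff_subgroup_fg]
    exact Subgroup.fg_of_index_ne_zero _
  obtain ⟨S, hS⟩ := hfg
  have hSN : ∀ γ ∈ S, γ ∈ Gamma0 N := by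
    intro γ hγ
    rw [← hS]
    exact Subgroup.subset_closure hγ
  choose! ν hν hνr using hsl
  -- the constants
  let Φ : SL(2, ℤ) → ℚ[X] →ₗ[ℚ] ℂ := fun γ =>
    EL D b (mob γ Complex.I) - (LinearMap.mulLeft ℚ (ν γ)) ∘ₗ (EL D b Complex.I) ∘ₗ (actG D γ)
  let Ψ : ℚ[X] →ₗ[ℚ] ℂ := EL D b (-1 / ((N : ℂ) * Complex.I)) -
    (LinearMap.mulLeft ℚ (c1 / N)) ∘ₗ (EL D b' Complex.I) ∘ₗ (actF D N)
  let G : Finset ℂ := (S ×ˢ Finset.range (D + 1)).image (fun p => Φ p.1 (X ^ p.2)) ∪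
    (Finset.range (D + 1)).image (fun j => Ψ (X ^ j))
  obtain ⟨W, hW1, hW2, hW3⟩ := exists_W M0 hM0 G
  have hI : 0 < Complex.I.im := by simp
  refine ⟨W, hW1, hW3, ?_, ?_⟩
  · intro γ hγ
    rw [← hS] at hγ
    refine good_closure hM0.ne' hW3 ?_ hγ
    intro γ hγ
    refine ⟨ν γ, hν γ (hSN γ hγ), fun P hP => ⟨Φ γ P, ?_, fun z hz => ?_⟩⟩
    · refine lin_mem (D := D) W (Φ γ) (fun j hj => hW2 _ ?_) hP
      refine Finset.mem_union_left _ (Finset.mem_image.2 ⟨(γ, j), ?_, rfl⟩)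
      exact Finset.mem_product.2 ⟨hγ, Finset.mem_range.2 (by show j < D + 1; omega)⟩
    · have h1 := slash_const hb (hνr γ (hSN γ hγ)) hP hz hI
      have h2 : Φ γ P = E D b P (mob γ Complex.I) - ν γ * E D b (actG D γ P) Complex.I := rfl
      rw [h2, ← h1]
      ring
  · intro P hP
    refine ⟨Ψ P, ?_, fun z hz => ?_⟩
    · refine lin_mem (D := D) W Ψ (fun j hj => hW2 _ ?_) hP
      exact Finset.mem_union_right _ (Finset.mem_image.2 ⟨j, Finset.mem_range.2 (by omega), rfl⟩)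
    · have h1 := fricke_const hN hb hb' hfr hP hz hI
      have h2 : Ψ P = E D b P (-1 / ((N : ℂ) * Complex.I)) -
          c1 / N * E D b' (actF D N P) Complex.I := rfl
      rw [h2, ← h1]
      ring

/-- the boundary values at the cusps -/
theorem cusp {D N M0 : ℕ} [NeZero N] {b b' : ℕ → ℂ} (hb' : Bd b') {c1 : ℂ} {W : Submodule ℚ ℂ}
    (hW : Space D N M0 b b' c1 W) {q : ℕ} (hq : 0 < q) {u d v : ℤ}
    (hdet : d * q - u * (N * v) = 1) {P : ℚ[X]} (hP : P.natDegree ≤ D) :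
    ∃ w ∈ W, Tendsto (fun y : ℝ => E D b P ((u : ℂ) / q + (y : ℂ) * Complex.I)) (𝓝[>] 0) (𝓝 w) := by
  have hN : 0 < N := Nat.pos_of_ne_zero (NeZero.ne N)
  have hNc : (N : ℂ) ≠ 0 := by exact_mod_cast hN.ne'
  have hqc : (q : ℂ) ≠ 0 := by exact_mod_cast hq.ne'
  have hNr : (0 : ℝ) < N := by exact_mod_cast hN
  have hqr : (0 : ℝ) < q := by exact_mod_cast hq
  let γ : SL(2, ℤ) := ⟨!![d, u; N * v, q], by rw [Matrix.det_fin_two_of]; exact hdet⟩
  have hγ : γ ∈ Gamma0 N := by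
    rw [Gamma0_mem]
    show (((N * v : ℤ)) : ZMod N) = 0
    push_cast
    simp
  obtain ⟨ν, hν, hg⟩ := hW.good γ hγ
  obtain ⟨w0, hw0, h0⟩ := hg P hP
  obtain ⟨w1, hw1, h1⟩ := hW.fricke (actG D γ P) (actG_deg D γ P)
  refine ⟨ν * w1 + w0, W.add_mem (hW.root ν hν w1 hw1) hw0, ?_⟩
  have hT : Tendsto (fun y : ℝ => 1 / ((N : ℝ) * q ^ 2) * y⁻¹) (𝓝[>] 0) atTop :=
    tendsto_inv_nhdsGT_zero.const_mul_atTop (by positivity)
  have h2 := ((E_line (D := D) hb' (actF D N (actG D γ P)) ((v : ℝ) / q)).comp hT)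
  have h3 : Tendsto (fun y : ℝ => ν * (c1 / N * E D b' (actF D N (actG D γ P))
      ((((v : ℝ) / q : ℝ) : ℂ) + ((1 / ((N : ℝ) * q ^ 2) * y⁻¹ : ℝ) : ℂ) * Complex.I) + w1) + w0)
      (𝓝[>] 0) (𝓝 (ν * (c1 / N * 0 + w1) + w0)) :=
    (((h2.const_mul (c1 / N)).add_const w1).const_mul ν).add_const w0
  rw [mul_zero, zero_add] at h3
  refine h3.congr' ?_
  filter_upwards [self_mem_nhdsWithin] with y (hy : 0 < y)
  set T : ℝ := 1 / ((N : ℝ) * q ^ 2) * y⁻¹ with hTd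
  have hT0 : 0 < T := by positivity
  set z : ℂ := (((v : ℝ) / q : ℝ) : ℂ) + (T : ℂ) * Complex.I with hz
  have hzim : 0 < z.im := by
    rw [hz]
    simp only [Complex.add_im, Complex.ofReal_im, zero_add, Complex.mul_im, Complex.ofReal_re,
      Complex.I_im, mul_one, Complex.I_re, mul_zero, add_zero]
    exact hT0
  rw [← h1 z hzim, ← h0 _ (fr_im hN hzim)]
  congr 1
  have hz0 : z ≠ 0 := by
    rintro h
    rw [h] at hzim
    simp at hzim
  have hyT : (y : ℂ) * (N * q ^ 2 * T) = 1 := by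
    have : y * (N * q ^ 2 * T) = 1 := by
      rw [hTd]
      field_simp
    exact_mod_cast this
  have hTc : (T : ℂ) ≠ 0 := by exact_mod_cast hT0.ne'
  have hdc : (d : ℂ) * q - u * (N * v) = 1 := by exact_mod_cast hdet
  have e1 : mob γ (-1 / ((N : ℂ) * z)) = (u * (N * z) - d) / (N * (q * z - v)) := by
    show (((d : ℤ) : ℂ) * (-1 / ((N : ℂ) * z)) + ((u : ℤ) : ℂ)) /
      (((N * v : ℤ) : ℂ) * (-1 / ((N : ℂ) * z)) + (((q : ℕ) : ℤ) : ℂ)) = _
    have e2 : ((d : ℤ) : ℂ) * (-1 / ((N : ℂ) * z)) + ((u : ℤ) : ℂ) =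
        (u * (N * z) - d) / (N * z) := by
      field_simp
      ring
    have e3 : ((N * v : ℤ) : ℂ) * (-1 / ((N : ℂ) * z)) + (((q : ℕ) : ℤ) : ℂ) =
        (N * (q * z - v)) / (N * z) := by
      push_cast
      field_simp
      ring
    rw [e2, e3, div_div_div_cancel_right₀ (mul_ne_zero hNc hz0)]
  rw [e1]
  have e4 : (q : ℂ) * z - v = q * T * Complex.I := by
    rw [hz]
    push_cast
    field_simp
    ring
  have e5 : (u : ℂ) * (N * z) - d = -1 / q + u * N * T * Complex.I := by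
    rw [hz]
    push_cast
    field_simp
    linear_combination -hdc
  rw [e4, e5, div_eq_iff (by simp [hNc, hqc, hTc, Complex.I_ne_zero])]
  have e6 : ((u : ℂ) / q + y * Complex.I) * (N * (q * T * Complex.I)) =
      u * N * T * Complex.I + (y * (N * q ^ 2 * T)) / q * (Complex.I ^ 2) := by
    field_simp
  rw [e6, hyT, Complex.I_sq]
  ring

end Pool.Agent.X284.KS
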