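import Mathlib
import Pool.Agent.W108.TW.Mellin

/-!
Primitives of a power series in `e(z)` times a polynomial.
-/

set_option autoImplicit false

open Complex Filter Topology Set Polynomial

namespace Pool.Agent.X284.KS

open Pool.Agent.W108.TW

/-- `∑ b(n) e(n z)` -/
noncomputable def Q (b : ℕ → ℂ) (z : ℂ) : ℂ :=
  ∑' n : ℕ, b n * Complex.exp (2 * Real.pi * Complex.I * n * z)

/-- coefficients of polynomial growth -/
def Bd (b : ℕ → ℂ) : Prop :=
  b 0 = 0 ∧ ∃ C m : ℝ, 0 ≤ C ∧ ∀ n : ℕ, 1 ≤ n → ‖b n‖ ≤ C * (n : ℝ) ^ m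

/-- the coefficients of the iterated primitives -/
noncomputable def It (j : ℕ) (b : ℕ → ℂ) (n : ℕ) : ℂ := b n / (2 * Real.pi * Complex.I * n) ^ j

lemma exp_norm (n : ℕ) (z : ℂ) : ‖Complex.exp (2 * Real.pi * Complex.I * n * z)‖ =
    Real.exp (-(2 * Real.pi * n) * z.im) := by
  rw [Complex.norm_exp]
  congr 1
  simp
  try ring

lemma term_bd {b : ℕ → ℂ} {C m : ℝ} (h0 : b 0 = 0) (hC : 0 ≤ C)
    (hb : ∀ n : ℕ, 1 ≤ n → ‖b n‖ ≤ C * (n : ℝ) ^ m) {δ : ℝ} {z : ℂ} (hz : δ ≤ z.im) (n : ℕ) :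
    ‖b n * Complex.exp (2 * Real.pi * Complex.I * n * z)‖ ≤
      C * ((n : ℝ) ^ m * Real.exp (-((2 * Real.pi * δ) * n))) := by
  have hpi := Real.pi_pos
  rcases Nat.eq_zero_or_pos n with rfl | hn
  · rw [h0, zero_mul, norm_zero]; positivity
  · rw [norm_mul, exp_norm]
    have h1 : Real.exp (-(2 * Real.pi * n) * z.im) ≤ Real.exp (-((2 * Real.pi * δ) * n)) := by
      apply Real.exp_le_exp.mpr
      have : 2 * Real.pi * n * δ ≤ 2 * Real.pi * n * z.im :=
        mul_le_mul_of_nonneg_left hz (by positivity)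
      nlinarith
    calc ‖b n‖ * Real.exp (-(2 * Real.pi * n) * z.im) ≤
          (C * (n : ℝ) ^ m) * Real.exp (-((2 * Real.pi * δ) * n)) :=
          mul_le_mul (hb n hn) h1 (Real.exp_pos _).le (by positivity)
      _ = _ := by ring

lemma summ {b : ℕ → ℂ} (hb : Bd b) {z : ℂ} (hz : 0 < z.im) :
    Summable (fun n : ℕ => b n * Complex.exp (2 * Real.pi * Complex.I * n * z)) := by
  obtain ⟨h0, C, m, hC, h⟩ := hb
  have hpi := Real.pi_pos
  exact Summable.of_norm_bounded ((summable_maj (2 * Real.pi * z.im) (by positivity) m).mul_left C)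
    (fun n => term_bd h0 hC h le_rfl n)

lemma Bd.mul {b : ℕ → ℂ} (hb : Bd b) {c : ℕ → ℂ} (hc : ∀ n : ℕ, 1 ≤ n → ‖c n‖ ≤ 1) :
    Bd (fun n => b n * c n) := by
  obtain ⟨h0, C, m, hC, h⟩ := hb
  refine ⟨by simp [h0], C, m, hC, fun n hn => ?_⟩
  rw [norm_mul]
  calc ‖b n‖ * ‖c n‖ ≤ ‖b n‖ * 1 := mul_le_mul_of_nonneg_left (hc n hn) (norm_nonneg _)
    _ = ‖b n‖ := mul_one _
    _ ≤ _ := h n hn

lemma two_pi_norm (n : ℕ) : ‖(2 * Real.pi * Complex.I * n : ℂ)‖ = 2 * Real.pi * n := by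
  rw [norm_mul, norm_mul, norm_mul, Complex.norm_I, mul_one, Complex.norm_real, Real.norm_eq_abs,
    abs_of_pos Real.pi_pos, Complex.norm_natCast]
  norm_num

lemma It_bd {b : ℕ → ℂ} (hb : Bd b) (j : ℕ) : Bd (It j b) := by
  have h1 := hb.mul (c := fun n : ℕ => ((2 * Real.pi * Complex.I * n : ℂ) ^ j)⁻¹) (fun n hn => by
    rw [norm_inv, norm_pow, two_pi_norm]
    have h2 : (1 : ℝ) ≤ n := by exact_mod_cast hn
    have h3 : (1 : ℝ) ≤ 2 * Real.pi * n := by nlinarith [Real.pi_gt_three]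
    exact inv_le_one_of_one_le₀ (one_le_pow₀ h3))
  have e : It j b = fun n => b n * ((2 * Real.pi * Complex.I * n : ℂ) ^ j)⁻¹ := by
    funext n
    unfold It
    rw [div_eq_mul_inv]
  rw [e]
  exact h1

lemma It_zero (b : ℕ → ℂ) : It 0 b = b := by
  funext n
  simp [It]

/-- the derivative of a series -/
lemma Q_deriv {c c' : ℕ → ℂ} (hc : Bd c) (hc' : Bd c')
    (h : ∀ n : ℕ, c' n = 2 * Real.pi * Complex.I * n * c n) {z : ℂ} (hz : 0 < z.im) :
    HasDerivAt (Q c) (Q c' z) z := by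
  obtain ⟨h0, C, m, hC, hb⟩ := id hc'
  set δ : ℝ := z.im / 2 with hδ
  have hδ0 : 0 < δ := by positivity
  have hpi := Real.pi_pos
  set t : Set ℂ := {w : ℂ | δ < w.im} with ht
  have htopen : IsOpen t := isOpen_lt continuous_const Complex.continuous_im
  have htpre : IsPreconnected t := (convex_halfSpace_im_gt δ).isPreconnected
  have hzt : z ∈ t := by
    show δ < z.im
    rw [hδ]; linarith
  have hu : Summable (fun n : ℕ => C * ((n : ℝ) ^ m * Real.exp (-((2 * Real.pi * δ) * n)))) :=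
    (summable_maj (2 * Real.pi * δ) (by positivity) m).mul_left _
  have hg : ∀ (n : ℕ) (w : ℂ), w ∈ t → HasDerivAt
      (fun w : ℂ => c n * Complex.exp (2 * Real.pi * Complex.I * n * w))
      (c' n * Complex.exp (2 * Real.pi * Complex.I * n * w)) w := by
    intro n w _
    have h1 : HasDerivAt (fun w : ℂ => Complex.exp (2 * Real.pi * Complex.I * n * w))
        (Complex.exp (2 * Real.pi * Complex.I * n * w) * (2 * Real.pi * Complex.I * n)) w := by
      have h2 : HasDerivAt (fun w : ℂ => 2 * Real.pi * Complex.I * n * w)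
          (2 * Real.pi * Complex.I * n) w := by
        simpa using (hasDerivAt_id w).const_mul (2 * Real.pi * Complex.I * n : ℂ)
      exact h2.cexp
    refine (h1.const_mul (c n)).congr_deriv ?_
    rw [h n]
    ring
  exact hasDerivAt_tsum_of_isPreconnected hu htopen htpre hg
    (fun n w (hw : δ < w.im) => term_bd h0 hC hb hw.le n) hzt (summ hc hz) hzt

lemma It_deriv {b : ℕ → ℂ} (hb : Bd b) (j : ℕ) {z : ℂ} (hz : 0 < z.im) :
    HasDerivAt (Q (It (j + 1) b)) (Q (It j b) z) z := by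
  refine Q_deriv (It_bd hb (j + 1)) (It_bd hb j) (fun n => ?_) hz
  unfold It
  rcases Nat.eq_zero_or_pos n with rfl | hn
  · rw [hb.1]; simp
  · have hn' : (n : ℂ) ≠ 0 := by exact_mod_cast hn.ne'
    have hpi : (Real.pi : ℂ) ≠ 0 := by exact_mod_cast Real.pi_ne_zero
    have hI : (2 * Real.pi * Complex.I * n : ℂ) ≠ 0 := by
      simp [hn', hpi, Complex.I_ne_zero]
    rw [pow_succ]
    field_simp

lemma Q_line {b : ℕ → ℂ} (x T : ℝ) : Q b ((x : ℂ) + (T : ℂ) * Complex.I) =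
    Th (fun n : ℕ => b n * Complex.exp (2 * Real.pi * Complex.I * n * x)) (2 * Real.pi) T := by
  unfold Q Th
  refine tsum_congr fun n => ?_
  show _ = (b n * Complex.exp (2 * Real.pi * Complex.I * n * x)) * _
  rw [mul_assoc (b n)]
  congr 1
  rw [Complex.ofReal_exp, ← Complex.exp_add]
  congr 1
  push_cast
  linear_combination ((2 * Real.pi * n * T : ℂ)) * Complex.I_sq

/-- decay along vertical lines -/
lemma Q_decay {b : ℕ → ℂ} (hb : Bd b) (x : ℝ) (i : ℕ) :
    Tendsto (fun T : ℝ => ((x : ℂ) + (T : ℂ) * Complex.I) ^ i * Q b ((x : ℂ) + (T : ℂ) * Complex.I))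
      atTop (𝓝 0) := by
  have hpi := Real.pi_pos
  have hb2 := hb.mul (c := fun n : ℕ => Complex.exp (2 * Real.pi * Complex.I * n * x)) (fun n _ => by
    rw [exp_norm]; simp)
  obtain ⟨h0, C, m, hC, h⟩ := hb2
  have h1 := Th_isBigO (m := m) (C := C) h0 h (c := 2 * Real.pi) (by positivity) (-((i : ℝ) + 1))
  simp only [sub_zero] at h1
  have h2 : (fun T : ℝ => ((x : ℂ) + (T : ℂ) * Complex.I) ^ i) =O[atTop]
      (fun T : ℝ => T ^ (i : ℝ)) := by
    refine Asymptotics.IsBigO.of_bound ((|x| + 1) ^ i) ?_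
    filter_upwards [eventually_ge_atTop (1 : ℝ)] with T hT
    have hT0 : 0 < T := by linarith
    rw [norm_pow, Real.rpow_natCast, norm_pow, Real.norm_of_nonneg hT0.le, ← mul_pow]
    refine pow_le_pow_left₀ (norm_nonneg _) ?_ i
    refine (norm_add_le _ _).trans ?_
    rw [norm_mul, Complex.norm_I, mul_one, Complex.norm_real, Complex.norm_real, Real.norm_eq_abs,
      Real.norm_of_nonneg hT0.le]
    nlinarith [abs_nonneg x]
  have h3 := h2.mul h1
  have h4 : (fun T : ℝ => ((x : ℂ) + (T : ℂ) * Complex.I) ^ i *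
      Q b ((x : ℂ) + (T : ℂ) * Complex.I)) =O[atTop] (fun T : ℝ => T ^ (-(1 : ℝ))) := by
    refine (h3.congr' ?_ ?_)
    · refine Filter.Eventually.of_forall fun T => ?_
      show ((x : ℂ) + (T : ℂ) * Complex.I) ^ i * Th _ _ T =
        ((x : ℂ) + (T : ℂ) * Complex.I) ^ i * Q b ((x : ℂ) + (T : ℂ) * Complex.I)
      rw [Q_line]
    · filter_upwards [eventually_gt_atTop (0 : ℝ)] with T hT
      show T ^ (i : ℝ) * T ^ (-((i : ℝ) + 1)) = _
      rw [← Real.rpow_add hT]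
      congr 1
      ring
  exact h4.trans_tendsto (tendsto_rpow_neg_atTop one_pos)

/-! ### the primitive -/

/-- the primitive of `-P(z) ∑ b(n) e(n z)` which vanishes at `i∞` -/
noncomputable def E (D : ℕ) (b : ℕ → ℂ) (P : ℚ[X]) (z : ℂ) : ℂ :=
  -∑ j ∈ Finset.range (D + 1), (-1 : ℂ) ^ j * (aeval z (derivative^[j] P) * Q (It (j + 1) b) z)

lemma tele (A : ℕ → ℂ) (n : ℕ) : ∑ j ∈ Finset.range n, (-1 : ℂ) ^ j * (A (j + 1) + A j) =
    A 0 - (-1 : ℂ) ^ n * A n := by
  induction n with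
  | zero => simp
  | succ n ih =>
    rw [Finset.sum_range_succ, ih, pow_succ]
    ring

lemma E_deriv {D : ℕ} {b : ℕ → ℂ} (hb : Bd b) {P : ℚ[X]} (hP : P.natDegree ≤ D) {z : ℂ}
    (hz : 0 < z.im) : HasDerivAt (E D b P) (-(aeval z P * Q b z)) z := by
  have h1 : ∀ j ∈ Finset.range (D + 1), HasDerivAt
      (fun z : ℂ => (-1 : ℂ) ^ j * (aeval z (derivative^[j] P) * Q (It (j + 1) b) z))
      ((-1 : ℂ) ^ j * (aeval z (derivative^[j + 1] P) * Q (It (j + 1) b) z +
        aeval z (derivative^[j] P) * Q (It j b) z)) z := by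
    intro j _
    have h2 := (Polynomial.hasDerivAt_aeval (derivative^[j] P) z).mul (It_deriv hb j hz)
    refine (h2.const_mul ((-1 : ℂ) ^ j)).congr_deriv ?_
    rw [Function.iterate_succ_apply']
  have h2 := (HasDerivAt.fun_sum h1).neg
  have h3 := tele (fun j => aeval z (derivative^[j] P) * Q (It j b) z) (D + 1)
  rw [h3] at h2
  refine (h2.congr_deriv ?_)
  rw [Polynomial.iterate_derivative_eq_zero (by omega : P.natDegree < D + 1), It_zero]
  simp

lemma E_add (D : ℕ) (b : ℕ → ℂ) (P R : ℚ[X]) (z : ℂ) : E D b (P + R) z = E D b P z + E D b R z := by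
  unfold E
  rw [← neg_add, ← Finset.sum_add_distrib]
  congr 1
  refine Finset.sum_congr rfl fun j _ => ?_
  rw [iterate_map_add derivative j P R, map_add]
  ring

lemma E_zero (D : ℕ) (b : ℕ → ℂ) (z : ℂ) : E D b 0 z = 0 := by
  unfold E
  simp

lemma E_C_mul (D : ℕ) (b : ℕ → ℂ) (r : ℚ) (P : ℚ[X]) (z : ℂ) :
    E D b (C r * P) z = (r : ℂ) * E D b P z := by
  unfold E
  rw [mul_neg, Finset.mul_sum]
  congr 1
  refine Finset.sum_congr rfl fun j _ => ?_
  rw [Polynomial.iterate_derivative_C_mul, map_mul, aeval_C]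
  show (-1 : ℂ) ^ j * (((r : ℚ) : ℂ) * _ * _) = _
  ring

lemma E_sum {ι : Type} (s : Finset ι) (D : ℕ) (b : ℕ → ℂ) (r : ι → ℚ) (P : ι → ℚ[X]) (z : ℂ) :
    E D b (∑ i ∈ s, C (r i) * P i) z = ∑ i ∈ s, (r i : ℂ) * E D b (P i) z := by
  classical
  induction s using Finset.induction_on with
  | empty => simp [E_zero]
  | insert a s ha ih => rw [Finset.sum_insert ha, Finset.sum_insert ha, E_add, E_C_mul, ih]

/-- the primitive vanishes at `i∞` -/
lemma E_line {D : ℕ} {b : ℕ → ℂ} (hb : Bd b) (P : ℚ[X]) (x : ℝ) :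
    Tendsto (fun T : ℝ => E D b P ((x : ℂ) + (T : ℂ) * Complex.I)) atTop (𝓝 0) := by
  have h1 : ∀ (R : ℚ[X]) (j : ℕ), Tendsto (fun T : ℝ => aeval ((x : ℂ) + (T : ℂ) * Complex.I) R *
      Q (It (j + 1) b) ((x : ℂ) + (T : ℂ) * Complex.I)) atTop (𝓝 0) := by
    intro R j
    have h2 : ∀ T : ℝ, aeval ((x : ℂ) + (T : ℂ) * Complex.I) R *
        Q (It (j + 1) b) ((x : ℂ) + (T : ℂ) * Complex.I) =
        ∑ i ∈ Finset.range (R.natDegree + 1), ((R.coeff i : ℚ) : ℂ) *
          (((x : ℂ) + (T : ℂ) * Complex.I) ^ i *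
            Q (It (j + 1) b) ((x : ℂ) + (T : ℂ) * Complex.I)) := by
      intro T
      rw [Polynomial.aeval_eq_sum_range, Finset.sum_mul]
      refine Finset.sum_congr rfl fun i _ => ?_
      rw [Algebra.smul_def]
      show ((R.coeff i : ℚ) : ℂ) * _ * _ = _
      ring
    simp only [h2]
    have h3 := tendsto_finsetSum (Finset.range (R.natDegree + 1)) (fun i _ =>
      (Q_decay (It_bd hb (j + 1)) x i).const_mul ((R.coeff i : ℚ) : ℂ))
    simpa using h3
  have h2 := (tendsto_finsetSum (Finset.range (D + 1)) (fun j _ =>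
    (h1 (derivative^[j] P) j).const_mul ((-1 : ℂ) ^ j))).neg
  unfold E
  simpa using h2

end Pool.Agent.X284.KS
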