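import Pool.Agent.X284.KS.Val
import Pool.Agent.X284.KS.EulN

/-!
The space of periods of a newform with nebentypus.
-/

set_option autoImplicit false

open Complex Filter Topology Set UpperHalfPlane MatrixGroups CongruenceSubgroup

namespace Pool.Agent.X284.KS

open Pool.Agent.W192.CY

variable {N : ℕ}

/-- bound for the coefficients -/
lemma cf_bound {m : ℕ} (hm : 1 ≤ m) [NeZero N] {η : DirichletCharacter ℂ N}
    {f : CuspForm (Gamma1 N : Subgroup (GL (Fin 2) ℝ)) (2 * m : ℤ)} {w : ℂ}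
    (hf : NNewf m N η f w) {n : ℕ} (hn : 1 ≤ n) : ‖cf f n‖ ≤ 1 * (n : ℝ) ^ ((m : ℝ) + 1) := by
  obtain ⟨μ, hμ⟩ := Pool.Agent.W804.CY.n_coef m hm N η f w hf
  have h1 := hμ.cle n hn
  have hn1 : (1 : ℝ) ≤ n := by exact_mod_cast hn
  have hn0 : (0 : ℝ) < n := by linarith
  have h2 : (n.divisors.card : ℝ) ≤ n := by exact_mod_cast Nat.card_divisors_le_self n
  have h3 : Real.sqrt n ≤ n := by
    rw [Real.sqrt_le_left (by linarith)]
    nlinarith
  rw [cf_eq (f := f) hn, norm_mul, norm_pow, Complex.norm_natCast]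
  have h4 : ‖cf f n / (n : ℂ) ^ (m - 1)‖ ≤ n * n := by
    refine h1.trans ?_
    exact mul_le_mul h2 h3 (Real.sqrt_nonneg _) (by positivity)
  calc ‖cf f n / (n : ℂ) ^ (m - 1)‖ * (n : ℝ) ^ (m - 1) ≤ (n * n) * (n : ℝ) ^ (m - 1) := by gcongr
    _ = (n : ℝ) ^ (m + 1) := by
        have : m + 1 = 2 + (m - 1) := by omega
        rw [this, pow_add]
        ring
    _ = 1 * (n : ℝ) ^ ((m : ℝ) + 1) := by
        rw [one_mul, ← Real.rpow_natCast]
        push_cast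
        rfl

lemma cf_Bd {m : ℕ} (hm : 1 ≤ m) [NeZero N] {η : DirichletCharacter ℂ N}
    {f : CuspForm (Gamma1 N : Subgroup (GL (Fin 2) ℝ)) (2 * m : ℤ)} {w : ℂ}
    (hf : NNewf m N η f w) : Bd (cf f) :=
  ⟨cf_zero f, 1, (m : ℝ) + 1, zero_le_one, fun _ hn => cf_bound hm hf hn⟩

lemma Bd_conj {b : ℕ → ℂ} (hb : Bd b) : Bd (fun n => (starRingEnd ℂ) (b n)) := by
  obtain ⟨h0, C, r, hC, h⟩ := hb
  exact ⟨by simp [h0], C, r, hC, fun n hn => by rw [RCLike.norm_conj]; exact h n hn⟩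

/-- the `q`-expansion -/
lemma Q_eq [NeZero N] {k : ℤ} (f : CuspForm (Gamma1 N : Subgroup (GL (Fin 2) ℝ)) k) (τ : ℍ) :
    Q (cf f) τ = f τ := by
  have h1 : (1 : ℝ) ∈ (Gamma1 N : Subgroup (GL (Fin 2) ℝ)).strictPeriods := by
    rw [strictPeriods_Gamma1]
    exact AddSubgroup.mem_zmultiples 1
  have h2 := ModularForm.hasSum_qExpansion (f := f) one_pos h1 τ
  rw [← h2.tsum_eq]
  unfold Q cf
  refine tsum_congr fun n => ?_
  congr 1
  rw [Function.Periodic.qParam, ← Complex.exp_nat_mul]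
  congr 1
  push_cast
  ring

lemma Q_conj (b : ℕ → ℂ) (z : ℂ) :
    (starRingEnd ℂ) (Q b (-(starRingEnd ℂ) z)) = Q (fun n => (starRingEnd ℂ) (b n)) z := by
  unfold Q
  rw [Complex.conj_tsum]
  refine tsum_congr fun n => ?_
  rw [map_mul, ← Complex.exp_conj]
  congr 2
  simp only [map_mul, map_neg, Complex.conj_I, Complex.conj_ofReal, map_ofNat,
    Complex.conj_natCast, Complex.conj_conj]
  ring

lemma coe_smul (γ : SL(2, ℤ)) (τ : ℍ) : ((γ • τ : ℍ) : ℂ) = mob γ τ := by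
  rw [UpperHalfPlane.coe_specialLinearGroup_apply]
  unfold mob den
  simp

/-- the character values are roots of unity -/
lemma neb_pow [NeZero N] (η : DirichletCharacter ℂ N) {γ : SL(2, ℤ)} (hγ : γ ∈ Gamma0 N) :
    η ((γ 1 1 : ℤ) : ZMod N) ^ (Nat.totient N) = 1 := by
  have h1 := det_int γ
  have h2 : ((γ 1 0 : ℤ) : ZMod N) = 0 := Gamma0_mem.1 hγ
  have h3 : ((γ 0 0 : ℤ) : ZMod N) * ((γ 1 1 : ℤ) : ZMod N) = 1 := by
    have h4 : ((γ 0 0 * γ 1 1 - γ 0 1 * γ 1 0 : ℤ) : ZMod N) = ((1 : ℤ) : ZMod N) := by rw [h1]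
    push_cast at h4
    rw [h2, mul_zero, sub_zero] at h4
    exact h4
  have hu : IsUnit ((γ 1 1 : ℤ) : ZMod N) := IsUnit.of_mul_eq_one _ (by rw [mul_comm]; exact h3)
  obtain ⟨u, hu⟩ := hu
  rw [← hu, ← map_pow, ← Units.val_pow_eq_pow_val, ZMod.pow_totient, Units.val_one, map_one]

/-- the periods of a newform span a finitely generated space -/
theorem newf_space {m : ℕ} (hm : 1 ≤ m) [NeZero N] {η : DirichletCharacter ℂ N}
    {f : CuspForm (Gamma1 N : Subgroup (GL (Fin 2) ℝ)) (2 * m : ℤ)} {w : ℂ}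
    (hf : NNewf m N η f w) : ∃ (c1 : ℂ) (W : Submodule ℚ ℂ),
      Space (2 * m - 2) N (Nat.totient N) (cf f) (fun n => (starRingEnd ℂ) (cf f n)) c1 W := by
  have hD : 2 * m - 2 + 2 = 2 * m := by omega
  refine ⟨(-1 : ℂ) ^ m * w * (N : ℂ) ^ m, ?_⟩
  refine exists_space (Nat.totient N) (Nat.totient_pos.2 (Nat.pos_of_ne_zero (NeZero.ne N)))
    (cf_Bd hm hf) (Bd_conj (cf_Bd hm hf)) ?_ ?_
  · intro γ hγ
    refine ⟨η ((γ 1 1 : ℤ) : ZMod N), neb_pow η hγ, fun z hz => ?_⟩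
    have h1 := hf.neb γ hγ ⟨z, hz⟩
    rw [← Q_eq, ← Q_eq, coe_smul] at h1
    rw [hD]
    exact h1
  · intro z hz
    have hN : 0 < N := Nat.pos_of_ne_zero (NeZero.ne N)
    have hNc : (N : ℂ) ≠ 0 := by exact_mod_cast hN.ne'
    have hz0 : z ≠ 0 := by
      rintro rfl
      simp at hz
    have h1 := hf.fricke ⟨z, hz⟩ ⟨-1 / ((N : ℂ) * z), fr_im hN hz⟩
      ⟨-(starRingEnd ℂ) z, by simpa using hz⟩ (by
        show -1 / ((N : ℂ) * z) * ((N : ℂ) * z) = -1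
        field_simp) rfl
    rw [← Q_eq, ← Q_eq] at h1
    have h2 := Q_conj (cf f) z
    rw [hD, ← h2]
    exact h1

end Pool.Agent.X284.KS
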