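import Pool.Agent.Y683.AA.Tot

/-!
The total order of vanishing over the cyclotomic field of level `q` is bounded by
`C rad(q) ^ (4 + ε)`.
-/

set_option autoImplicit false

namespace Pool.Agent.X284.KS.Tow

open Finset
open Pool.Agent.TH940 (tot GH order_prim order_dvd)

/-- a primitive character does not vanish on the kernel of the reduction modulo `n / p` -/
lemma key {n : ℕ} [NeZero n] {χ : DirichletCharacter ℂ n} (hχ : χ.IsPrimitive) {p d : ℕ}
    (hp : p.Prime) (hn : n = p * d) (hpd : p ∣ d) (x : (ZMod n)ˣ) (hx1 : x ≠ 1)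
    (hxd : ZMod.unitsMap (Dvd.intro_left p hn.symm) x = 1) : χ (x : ZMod n) ≠ 1 := by
  intro h1
  have hF : Fact p.Prime := ⟨hp⟩
  have hd0 : d ≠ 0 := by
    rintro rfl
    exact NeZero.ne n (by rw [hn, mul_zero])
  have : NeZero d := ⟨hd0⟩
  have hdn : d ∣ n := Dvd.intro_left p hn.symm
  have hker : Nat.card (ZMod.unitsMap hdn).ker = p := by
    have h2 : Nat.card (ZMod n)ˣ = Nat.card (ZMod.unitsMap hdn).ker * Nat.card (ZMod d)ˣ := by
      rw [← Subgroup.card_mul_index (ZMod.unitsMap hdn).ker, Subgroup.index_ker,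
        MonoidHom.range_eq_top.2 (ZMod.unitsMap_surjective hdn)]
      congr 1
      exact Nat.card_congr Subgroup.topEquiv.toEquiv
    rw [Nat.card_eq_fintype_card, ZMod.card_units_eq_totient, Nat.card_eq_fintype_card (α := (ZMod d)ˣ),
      ZMod.card_units_eq_totient] at h2
    have h3 : Nat.totient n = p * Nat.totient d := by
      rw [hn]
      exact Nat.totient_mul_of_prime_of_dvd hp hpd
    rw [h3] at h2
    exact (Nat.eq_of_mul_eq_mul_right (Nat.totient_pos.2 (Nat.pos_of_ne_zero hd0)) h2).symm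
  have hfac : χ.FactorsThrough d := by
    rw [DirichletCharacter.factorsThrough_iff_ker_unitsMap hdn]
    intro y hy
    have h2 : (⟨y, hy⟩ : (ZMod.unitsMap hdn).ker) ∈ Subgroup.zpowers
        (⟨x, MonoidHom.mem_ker.2 hxd⟩ : (ZMod.unitsMap hdn).ker) :=
      mem_zpowers_of_prime_card hker (fun h => hx1 (congrArg Subtype.val h))
    obtain ⟨k, hk⟩ := Subgroup.mem_zpowers_iff.1 h2
    have h3 : x ^ k = y := congrArg Subtype.val hk
    rw [MonoidHom.mem_ker, ← h3, map_zpow]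
    have h4 : χ.toUnitHom x = 1 := by
      ext
      rw [MulChar.coe_toUnitHom, h1]
      rfl
    rw [h4, one_zpow]
  have h5 : χ.conductor ∣ d := by
    obtain ⟨hd, ψ, hψ⟩ := hfac
    exact DirichletCharacter.conductor_dvd_of_mem_conductorSet χ ⟨hd, ψ, hψ⟩
  have h6 : χ.conductor = n := hχ
  rw [h6, hn] at h5
  have h7 := Nat.le_of_dvd (Nat.pos_of_ne_zero hd0) h5
  have h8 := hp.two_le
  nlinarith [Nat.pos_of_ne_zero hd0]

/-- the order at a unit -/
lemma order_of_unit {n : ℕ} [NeZero n] (χ : DirichletCharacter ℂ n) {p j : ℕ} (hp : p.Prime)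
    (u : (ZMod n)ˣ) (h1 : χ ((u ^ p ^ j : (ZMod n)ˣ) : ZMod n) ≠ 1) (h2 : u ^ p ^ (j + 1) = 1) :
    p ^ (j + 1) ∣ orderOf χ := by
  have hF : Fact p.Prime := ⟨hp⟩
  have h3 : orderOf (χ (u : ZMod n)) = p ^ (j + 1) := by
    apply orderOf_eq_prime_pow
    · intro h
      apply h1
      rw [Units.val_pow_eq_pow_val, map_pow, h]
    · rw [← map_pow, ← Units.val_pow_eq_pow_val, h2, Units.val_one, map_one]
  rw [← h3]
  apply orderOf_dvd_of_pow_eq_one
  rw [← MulChar.pow_apply_coe, pow_orderOf_eq_one, MulChar.one_apply_coe]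

/-- odd primes -/
lemma odd_part {n : ℕ} [NeZero n] {χ : DirichletCharacter ℂ n} (hχ : χ.IsPrimitive) {p k n' : ℕ}
    (hp : p.Prime) (hp2 : p ≠ 2) (hn : n = p ^ (k + 2) * n') (hn' : ¬ p ∣ n') :
    p ^ (k + 1) ∣ orderOf χ := by
  have hF : Fact p.Prime := ⟨hp⟩
  have hodd : Odd p := hp.odd_of_ne_two hp2
  have hn'0 : n' ≠ 0 := by
    rintro rfl
    exact hn' (dvd_zero p)
  set g : ℕ := 1 + p * n' with hg
  have hpg : ¬ p ∣ g := by
    rw [hg, Nat.dvd_add_left (Dvd.intro _ rfl)]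
    exact hp.one_lt.ne' ∘ Nat.dvd_one.1
  have hg1 : 1 < g := by
    rw [hg]
    have : 0 < p * n' := Nat.mul_pos hp.pos (Nat.pos_of_ne_zero hn'0)
    omega
  have hgn : Nat.Coprime g n := by
    rw [hn]
    apply Nat.Coprime.mul_right
    · exact Nat.Coprime.pow_right _ ((Nat.Prime.coprime_iff_not_dvd hp).2 hpg).symm
    · rw [hg, Nat.coprime_add_mul_right_left]
      exact Nat.coprime_one_left n'
  have hval : ∀ j : ℕ, padicValNat p (g ^ p ^ j - 1) = j + 1 := by
    intro j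
    have h1 := padicValNat.pow_sub_pow (p := p) hodd (x := g) (y := 1) hg1
      (by rw [hg]; simp) hpg (n := p ^ j) (pow_ne_zero _ hp.ne_zero)
    rw [one_pow] at h1
    rw [h1, padicValNat.prime_pow, hg, Nat.add_sub_cancel_left,
      padicValNat.mul hp.ne_zero hn'0, padicValNat.self hp.one_lt,
      padicValNat.eq_zero_of_not_dvd hn']
    ring
  have hn'g : ∀ j : ℕ, n' ∣ g ^ j - 1 := by
    intro j
    have h1 : g - 1 ∣ g ^ j - 1 := by
      have := Nat.sub_dvd_pow_sub_pow g 1 j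
      rwa [one_pow] at this
    refine dvd_trans ?_ h1
    rw [hg, Nat.add_sub_cancel_left]
    exact Dvd.intro_left p rfl
  have hcop : ∀ j : ℕ, Nat.Coprime (p ^ j) n' := fun j =>
    Nat.Coprime.pow_left j ((Nat.Prime.coprime_iff_not_dvd hp).2 hn')
  have hpow1 : ∀ j : ℕ, 1 ≤ g ^ p ^ j := fun j => Nat.one_le_pow _ _ (by omega)
  have hsub0 : ∀ j : ℕ, g ^ p ^ j - 1 ≠ 0 := by
    intro j
    have : 1 < g ^ p ^ j := Nat.one_lt_pow (pow_ne_zero _ hp.ne_zero) hg1
    omega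
  set u : (ZMod n)ˣ := ZMod.unitOfCoprime g hgn with hu
  have huj : ∀ j : ℕ, ((u ^ j : (ZMod n)ˣ) : ZMod n) = ((g ^ j : ℕ) : ZMod n) := by
    intro j
    rw [Units.val_pow_eq_pow_val, hu, ZMod.coe_unitOfCoprime]
    push_cast
    rfl
  have hone : ∀ (a : ℕ) (j : ℕ), a ∣ g ^ p ^ j - 1 → ((g ^ p ^ j : ℕ) : ZMod a) = 1 := by
    intro a j h
    have h2 : ((g ^ p ^ j - 1 : ℕ) : ZMod a) = 0 := (ZMod.natCast_eq_zero_iff _ _).2 h
    rw [Nat.cast_sub (hpow1 j)] at h2
    simpa using sub_eq_zero.1 h2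
  apply order_of_unit χ hp u
  · have hd : n = p * (p ^ (k + 1) * n') := by rw [hn]; ring
    refine key hχ hp hd ⟨p ^ k * n', by ring⟩ (u ^ p ^ k) ?_ ?_
    · intro h
      have h1 := congrArg (fun v : (ZMod n)ˣ => (v : ZMod n)) h
      simp only [huj, Units.val_one] at h1
      have h2 : n ∣ g ^ p ^ k - 1 := by
        rw [← ZMod.natCast_eq_zero_iff, Nat.cast_sub (hpow1 k), h1]
        simp
      have h3 : p ^ (k + 2) ∣ g ^ p ^ k - 1 := (Dvd.intro n' hn.symm).trans h2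
      have h4 := (padicValNat_dvd_iff_le (hsub0 k)).1 h3
      rw [hval k] at h4
      omega
    · ext
      rw [ZMod.unitsMap_val, huj, Units.val_one]
      have h1 : p ^ (k + 1) * n' ∣ g ^ p ^ k - 1 := by
        refine Nat.Coprime.mul_dvd_of_dvd_of_dvd (hcop _) ?_ (hn'g _)
        rw [padicValNat_dvd_iff_le (hsub0 k), hval k]
      rw [ZMod.cast_natCast (Dvd.intro_left p hd.symm)]
      exact hone _ _ h1
  · ext
    rw [huj, Units.val_one]
    apply hone
    rw [hn]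
    refine Nat.Coprime.mul_dvd_of_dvd_of_dvd (hcop _) ?_ (hn'g _)
    rw [padicValNat_dvd_iff_le (hsub0 (k + 1)), hval (k + 1)]

/-- the prime 2 -/
lemma two_part {n : ℕ} [NeZero n] {χ : DirichletCharacter ℂ n} (hχ : χ.IsPrimitive) {k n' : ℕ}
    (hn : n = 2 ^ (k + 3) * n') (hn' : ¬ 2 ∣ n') :
    2 ^ (k + 1) ∣ orderOf χ := by
  have hp := Nat.prime_two
  have hn'0 : n' ≠ 0 := by
    rintro rfl
    exact hn' (dvd_zero 2)
  set g : ℕ := 1 + 4 * n' with hg
  have hpg : ¬ 2 ∣ g := by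
    rw [hg]
    omega
  have hg1 : 1 < g := by
    rw [hg]
    omega
  have hgn : Nat.Coprime g n := by
    rw [hn]
    apply Nat.Coprime.mul_right
    · exact Nat.Coprime.pow_right _ ((Nat.Prime.coprime_iff_not_dvd hp).2 hpg).symm
    · rw [hg, Nat.coprime_add_mul_right_left]
      exact Nat.coprime_one_left n'
  have hval : ∀ j : ℕ, padicValNat 2 (g ^ 2 ^ j - 1) = j + 2 := by
    intro j
    have e4 : padicValNat 2 (g - 1) = 2 := by
      rw [hg, Nat.add_sub_cancel_left, padicValNat.mul (by norm_num) hn'0,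
        padicValNat.eq_zero_of_not_dvd hn', show (4 : ℕ) = 2 ^ 2 by norm_num,
        padicValNat.prime_pow]
    rcases Nat.eq_zero_or_pos j with rfl | hj
    · rw [pow_zero, pow_one, e4]
    · have h1 := padicValNat.pow_two_sub_pow (x := g) (y := 1) hg1
        (by rw [hg]; omega) hpg (n := 2 ^ j) (pow_ne_zero _ (by norm_num))
        ((Nat.even_pow.2 ⟨even_two, hj.ne'⟩))
      rw [one_pow, padicValNat.prime_pow, e4] at h1
      have h2 : padicValNat 2 (g + 1) = 1 := by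
        have e : g + 1 = 2 * (1 + 2 * n') := by rw [hg]; ring
        rw [e, padicValNat.mul (by norm_num) (by omega), padicValNat.self (by norm_num),
          padicValNat.eq_zero_of_not_dvd (by omega)]
      rw [h2] at h1
      omega
  have hn'g : ∀ j : ℕ, n' ∣ g ^ j - 1 := by
    intro j
    have h1 : g - 1 ∣ g ^ j - 1 := by
      have := Nat.sub_dvd_pow_sub_pow g 1 j
      rwa [one_pow] at this
    refine dvd_trans ?_ h1
    rw [hg, Nat.add_sub_cancel_left]
    exact Dvd.intro_left 4 rfl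
  have hcop : ∀ j : ℕ, Nat.Coprime (2 ^ j) n' := fun j =>
    Nat.Coprime.pow_left j ((Nat.Prime.coprime_iff_not_dvd hp).2 hn')
  have hpow1 : ∀ j : ℕ, 1 ≤ g ^ 2 ^ j := fun j => Nat.one_le_pow _ _ (by omega)
  have hsub0 : ∀ j : ℕ, g ^ 2 ^ j - 1 ≠ 0 := by
    intro j
    have : 1 < g ^ 2 ^ j := Nat.one_lt_pow (pow_ne_zero _ (by norm_num)) hg1
    omega
  set u : (ZMod n)ˣ := ZMod.unitOfCoprime g hgn with hu
  have huj : ∀ j : ℕ, ((u ^ j : (ZMod n)ˣ) : ZMod n) = ((g ^ j : ℕ) : ZMod n) := by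
    intro j
    rw [Units.val_pow_eq_pow_val, hu, ZMod.coe_unitOfCoprime]
    push_cast
    rfl
  have hone : ∀ (a : ℕ) (j : ℕ), a ∣ g ^ 2 ^ j - 1 → ((g ^ 2 ^ j : ℕ) : ZMod a) = 1 := by
    intro a j h
    have h2 : ((g ^ 2 ^ j - 1 : ℕ) : ZMod a) = 0 := (ZMod.natCast_eq_zero_iff _ _).2 h
    rw [Nat.cast_sub (hpow1 j)] at h2
    simpa using sub_eq_zero.1 h2
  apply order_of_unit χ hp u
  · have hd : n = 2 * (2 ^ (k + 2) * n') := by rw [hn]; ring
    refine key hχ hp hd ⟨2 ^ (k + 1) * n', by ring⟩ (u ^ 2 ^ k) ?_ ?_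
    · intro h
      have h1 := congrArg (fun v : (ZMod n)ˣ => (v : ZMod n)) h
      simp only [huj, Units.val_one] at h1
      have h2 : n ∣ g ^ 2 ^ k - 1 := by
        rw [← ZMod.natCast_eq_zero_iff, Nat.cast_sub (hpow1 k), h1]
        simp
      have h3 : 2 ^ (k + 3) ∣ g ^ 2 ^ k - 1 := (Dvd.intro n' hn.symm).trans h2
      have h4 := (padicValNat_dvd_iff_le (hsub0 k)).1 h3
      rw [hval k] at h4
      omega
    · ext
      rw [ZMod.unitsMap_val, huj, Units.val_one]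
      have h1 : 2 ^ (k + 2) * n' ∣ g ^ 2 ^ k - 1 := by
        refine Nat.Coprime.mul_dvd_of_dvd_of_dvd (hcop _) ?_ (hn'g _)
        rw [padicValNat_dvd_iff_le (hsub0 k), hval k]
      rw [ZMod.cast_natCast (Dvd.intro_left 2 hd.symm)]
      exact hone _ _ h1
  · ext
    rw [huj, Units.val_one]
    apply hone
    rw [hn]
    refine Nat.Coprime.mul_dvd_of_dvd_of_dvd (hcop _) ?_ (hn'g _)
    rw [padicValNat_dvd_iff_le (hsub0 (k + 1)), hval (k + 1)]

/-- the order of a primitive character -/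
theorem dvd_order {n : ℕ} [NeZero n] {χ : DirichletCharacter ℂ n} (hχ : χ.IsPrimitive) {r : ℕ}
    (hr : ∀ p : ℕ, p.Prime → p ∣ n → p ∣ r) : n ∣ 2 * r * orderOf χ := by
  rw [Nat.dvd_iff_prime_pow_dvd_dvd]
  intro p j hp hj
  rcases Nat.eq_zero_or_pos j with rfl | hj0
  · rw [pow_zero]; exact one_dvd _
  obtain ⟨v, n', hn', hn⟩ := Nat.exists_eq_pow_mul_and_not_dvd (NeZero.ne n) p hp.ne_one
  have hF : Fact p.Prime := ⟨hp⟩
  have hjv : j ≤ v := by
    by_contra h
    push Not at h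
    have h1 : p ^ (v + 1) ∣ p ^ v * n' := by
      rw [← hn]
      exact (pow_dvd_pow p h).trans hj
    rw [pow_succ] at h1
    exact hn' (Nat.dvd_of_mul_dvd_mul_left (pow_pos hp.pos v) h1)
  have hpr : p ∣ r := hr p hp ((dvd_pow_self p hj0.ne').trans hj)
  refine (pow_dvd_pow p hjv).trans ?_
  by_cases hp2 : p = 2
  · subst hp2
    rcases Nat.lt_or_ge v 3 with h | h
    · have h1 : 2 ^ v ∣ 2 * 2 := by
        rw [show (2 * 2 : ℕ) = 2 ^ 2 by norm_num]
        exact pow_dvd_pow 2 (by omega)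
      exact (h1.trans (Nat.mul_dvd_mul_left 2 hpr)).mul_right _
    · obtain ⟨k, rfl⟩ : ∃ k, v = k + 3 := ⟨v - 3, by omega⟩
      have h1 := two_part hχ hn hn'
      have h2 : 2 ^ (k + 3) = 2 * 2 * 2 ^ (k + 1) := by ring
      rw [h2]
      exact Nat.mul_dvd_mul (Nat.mul_dvd_mul_left 2 hpr) h1
  · rcases Nat.lt_or_ge v 2 with h | h
    · have h1 : p ^ v ∣ p := by
        have := pow_dvd_pow p (show v ≤ 1 by omega)
        rwa [pow_one] at this
      exact ((h1.trans hpr).mul_left 2).mul_right _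
    · obtain ⟨k, rfl⟩ : ∃ k, v = k + 2 := ⟨v - 2, by omega⟩
      have h1 := odd_part hχ hp hp2 hn hn'
      have h2 : p ^ (k + 2) = p * p ^ (k + 1) := by ring
      rw [h2]
      exact Nat.mul_dvd_mul (hpr.mul_left 2) h1

end Pool.Agent.X284.KS.Tow
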