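import Pool.Agent.X284.KS.Per
import Pool.Agent.TH936.HK.Wt
import Pool.Agent.TH940.Gal

/-!
The values of the primitives on vertical lines over rational numbers, and the central values.
-/

set_option autoImplicit false

open Complex Filter Topology Set Polynomial MatrixGroups CongruenceSubgroup ZMod

namespace Pool.Agent.X284.KS

open Pool.Agent.W192.CY (VW Vk K_VK)
open Pool.Agent.W108.TW Pool.Agent.TH936.HK

lemma iter_lin (a c : ℚ) (m j : ℕ) : derivative^[j] ((C a * X + C c : ℚ[X]) ^ m) =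
    C ((m.descFactorial j : ℚ) * a ^ j) * (C a * X + C c) ^ (m - j) := by
  induction j with
  | zero => simp
  | succ j ih =>
    rw [Function.iterate_succ_apply', ih, derivative_C_mul, derivative_pow]
    have h1 : derivative (C a * X + C c : ℚ[X]) = C a := by simp
    rw [h1, Nat.descFactorial_succ, Nat.sub_sub]
    push_cast
    simp only [C_mul, C_pow, pow_succ, map_natCast]
    ring

/-- the coefficient identity -/
lemma coef_id (m j i n : ℕ) (hn : 0 < n) (hm : i + j = m) (q y : ℂ) (B : ℂ) :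
    (-1 : ℂ) ^ j * (((m.descFactorial j : ℕ) : ℂ) * q ^ j * (q * (y * Complex.I)) ^ i *
      (B / (2 * Real.pi * Complex.I * n) ^ (j + 1))) =
    -((-1 : ℂ) ^ (m + 1) * ((m.factorial : ℕ) : ℂ) * q ^ m / (2 * Real.pi * Complex.I) ^ (m + 1) *
      (B / (n : ℂ) ^ (m + 1) * ((2 * Real.pi * n * y) ^ i / ((i.factorial : ℕ) : ℂ)))) := by
  have hn' : (n : ℂ) ≠ 0 := by exact_mod_cast hn.ne'
  have hpi : (Real.pi : ℂ) ≠ 0 := by exact_mod_cast Real.pi_ne_zero
  have hI := Complex.I_ne_zero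
  have h1 : ((m.factorial : ℕ) : ℂ) = ((i.factorial : ℕ) : ℂ) * ((m.descFactorial j : ℕ) : ℂ) := by
    have h2 := Nat.factorial_mul_descFactorial (n := m) (k := j) (by omega)
    have h3 : m - j = i := by omega
    rw [h3] at h2
    exact_mod_cast h2.symm
  have hif : ((i.factorial : ℕ) : ℂ) ≠ 0 := by exact_mod_cast (Nat.factorial_pos i).ne'
  have h2 : (2 * Real.pi * n * y : ℂ) ^ i = (-1) ^ i * ((y * Complex.I) ^ i *
      (2 * Real.pi * Complex.I * n) ^ i) := by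
    rw [← mul_pow, ← mul_pow]
    congr 1
    linear_combination (2 * Real.pi * n * y : ℂ) * Complex.I_sq
  have h4 : (-1 : ℂ) ^ i * (-1) ^ i = 1 := by
    rw [← mul_pow]; norm_num
  rw [h2, h1]
  subst hm
  have h5 : (2 * Real.pi * Complex.I : ℂ) ^ (i + j + 1) * (n : ℂ) ^ (i + j + 1) =
      (2 * Real.pi * Complex.I * n) ^ (j + 1) * (2 * Real.pi * Complex.I * n) ^ i := by
    rw [← mul_pow, ← pow_add]
    congr 1
    omega
  have hA : (2 * Real.pi * Complex.I * n : ℂ) ≠ 0 := by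
    simp [hn', hpi, hI]
  have hB : (2 * Real.pi * Complex.I : ℂ) ≠ 0 := by
    simp [hpi, hI]
  have e1 : ∀ (U V : ℂ), U / (2 * Real.pi * Complex.I) ^ (i + j + 1) * (B / (n : ℂ) ^ (i + j + 1) * V) =
      U * B * V / ((2 * Real.pi * Complex.I * n) ^ (j + 1) * (2 * Real.pi * Complex.I * n) ^ i) := by
    intro U V
    rw [← h5]
    field_simp
  rw [e1]
  have hA1 : (2 * Real.pi * Complex.I * n : ℂ) ^ (j + 1) ≠ 0 := pow_ne_zero _ hA
  have hA2 : (2 * Real.pi * Complex.I * n : ℂ) ^ i ≠ 0 := pow_ne_zero _ hA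
  generalize (2 * Real.pi * Complex.I * n : ℂ) ^ (j + 1) = A1 at hA1 ⊢
  generalize (2 * Real.pi * Complex.I * n : ℂ) ^ i = A2 at hA2 ⊢
  rw [mul_pow q, pow_succ, pow_add (-1 : ℂ), pow_add q]
  generalize (y * Complex.I) ^ i = Y
  generalize (-1 : ℂ) ^ i = s at h4 ⊢
  generalize (-1 : ℂ) ^ j = r
  generalize q ^ i = q1
  generalize q ^ j = q2
  field_simp
  linear_combination (-(r * q1 * q2 * Y * B)) * h4

/-- the smoothed series `∑ b(n) n^(-κ) Vk κ (2 π n y)` -/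
noncomputable def SV (κ : ℕ) (b : ℕ → ℂ) (y : ℝ) : ℂ :=
  ∑' n : ℕ, b n / (n : ℂ) ^ κ * (Vk κ (2 * Real.pi * n * y) : ℂ)

/-- the polynomial whose period is the central value -/
noncomputable def Pq (κ : ℕ) (q : ℕ) (u : ℤ) : ℚ[X] := (C (q : ℚ) * X + C (-(u : ℚ))) ^ (κ - 1)

lemma Pq_deg {κ : ℕ} (hκ : 1 ≤ κ) (q : ℕ) (u : ℤ) : (Pq κ q u).natDegree ≤ 2 * κ - 2 := by
  refine natDegree_pow_le.trans ?_
  have := natDegree_linear_le (a := (q : ℚ)) (b := -(u : ℚ))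
  have h : (κ - 1) * (C (q : ℚ) * X + C (-(u : ℚ))).natDegree ≤ (κ - 1) * 1 :=
    Nat.mul_le_mul_left _ this
  omega

lemma It_exp (b : ℕ → ℂ) (j : ℕ) (z : ℂ) : Q (It j b) z =
    ∑' n : ℕ, (b n * Complex.exp (2 * Real.pi * Complex.I * n * z)) /
      (2 * Real.pi * Complex.I * n) ^ j := by
  unfold Q It
  refine tsum_congr fun n => ?_
  ring

theorem E_val {κ : ℕ} (hκ : 1 ≤ κ) {b : ℕ → ℂ} (hb : Bd b) {q : ℕ} (hq : 0 < q) (u : ℤ) {y : ℝ}
    (hy : 0 < y) : E (2 * κ - 2) b (Pq κ q u) ((u : ℂ) / q + (y : ℂ) * Complex.I) =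
      (-1 : ℂ) ^ κ * (((κ - 1).factorial : ℕ) : ℂ) * (q : ℂ) ^ (κ - 1) /
        (2 * Real.pi * Complex.I) ^ κ *
      SV κ (fun n => b n * Complex.exp (2 * Real.pi * Complex.I * n * (u / q))) y := by
  obtain ⟨m, rfl⟩ : ∃ m, κ = m + 1 := ⟨κ - 1, by omega⟩
  simp only [Nat.add_sub_cancel]
  set z : ℂ := (u : ℂ) / q + (y : ℂ) * Complex.I with hz
  have hqc : (q : ℂ) ≠ 0 := by exact_mod_cast hq.ne'
  have hzim : 0 < z.im := by
    have : z.im = y := by
      rw [hz]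
      simp [Complex.div_im]
    rw [this]; exact hy
  have hqz : ((q : ℚ) : ℂ) * z + ((-(u : ℚ) : ℚ) : ℂ) = q * (y * Complex.I) := by
    rw [hz]
    push_cast
    field_simp
    ring
  -- the values of the derivatives
  have h1 : ∀ j : ℕ, aeval z (derivative^[j] (Pq (m + 1) q u)) =
      ((m.descFactorial j : ℕ) : ℂ) * (q : ℂ) ^ j * (q * (y * Complex.I)) ^ (m - j) := by
    intro j
    unfold Pq
    rw [iter_lin, map_mul, map_pow, aeval_lin, hqz, aeval_C, Nat.add_sub_cancel]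
    show (((m.descFactorial j : ℚ) * (q : ℚ) ^ j : ℚ) : ℂ) * _ = _
    push_cast
    ring
  unfold E
  have h2 : ∑ j ∈ Finset.range (2 * (m + 1) - 2 + 1), (-1 : ℂ) ^ j *
      (aeval z (derivative^[j] (Pq (m + 1) q u)) * Q (It (j + 1) b) z) =
      ∑ j ∈ Finset.range (m + 1), (-1 : ℂ) ^ j *
      (aeval z (derivative^[j] (Pq (m + 1) q u)) * Q (It (j + 1) b) z) := by
    symm
    apply Finset.sum_subset
    · intro j hj
      rw [Finset.mem_range] at hj ⊢
      omega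
    · intro j _ hj
      rw [Finset.mem_range, not_lt] at hj
      rw [h1, Nat.descFactorial_eq_zero_iff_lt.2 (by omega)]
      simp
  rw [h2]
  have h3 : ∀ j ∈ Finset.range (m + 1), (-1 : ℂ) ^ j *
      (aeval z (derivative^[j] (Pq (m + 1) q u)) * Q (It (j + 1) b) z) =
      ∑' n : ℕ, (-1 : ℂ) ^ j * (((m.descFactorial j : ℕ) : ℂ) * (q : ℂ) ^ j *
        (q * (y * Complex.I)) ^ (m - j) * ((b n * Complex.exp (2 * Real.pi * Complex.I * n * z)) /
        (2 * Real.pi * Complex.I * n) ^ (j + 1))) := by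
    intro j _
    rw [h1, It_exp, ← tsum_mul_left, ← tsum_mul_left]
  rw [Finset.sum_congr rfl h3]
  have hsum : ∀ j : ℕ, Summable (fun n : ℕ => (-1 : ℂ) ^ j * (((m.descFactorial j : ℕ) : ℂ) *
      (q : ℂ) ^ j * (q * (y * Complex.I)) ^ (m - j) *
      ((b n * Complex.exp (2 * Real.pi * Complex.I * n * z)) /
        (2 * Real.pi * Complex.I * n) ^ (j + 1)))) := by
    intro j
    refine Summable.mul_left _ (Summable.mul_left _ ?_)
    refine (summ (It_bd hb (j + 1)) hzim).congr fun n => ?_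
    unfold It
    ring
  rw [← Summable.tsum_finsetSum (fun j _ => hsum j), SV, ← tsum_mul_left, ← tsum_neg]
  refine tsum_congr fun n => ?_
  rcases Nat.eq_zero_or_pos n with rfl | hn
  · rw [hb.1]; simp
  · have h4 : ∀ j ∈ Finset.range (m + 1), (-1 : ℂ) ^ j * (((m.descFactorial j : ℕ) : ℂ) *
        (q : ℂ) ^ j * (q * (y * Complex.I)) ^ (m - j) *
        ((b n * Complex.exp (2 * Real.pi * Complex.I * n * z)) /
          (2 * Real.pi * Complex.I * n) ^ (j + 1))) =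
        -((-1 : ℂ) ^ (m + 1) * ((m.factorial : ℕ) : ℂ) * (q : ℂ) ^ m /
          (2 * Real.pi * Complex.I) ^ (m + 1) *
          ((b n * Complex.exp (2 * Real.pi * Complex.I * n * z)) / (n : ℂ) ^ (m + 1) *
            ((2 * Real.pi * n * y) ^ (m - j) / (((m - j).factorial : ℕ) : ℂ)))) := by
      intro j hj
      rw [Finset.mem_range] at hj
      exact coef_id m j (m - j) n hn (by omega) q y _
    rw [Finset.sum_congr rfl h4, Finset.sum_neg_distrib, neg_neg, ← Finset.mul_sum]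
    congr 1
    rw [← Finset.mul_sum]
    have h5 : ∑ j ∈ Finset.range (m + 1), ((2 * Real.pi * n * y : ℂ) ^ (m - j) /
        (((m - j).factorial : ℕ) : ℂ)) = ∑ j ∈ Finset.range (m + 1), ((2 * Real.pi * n * y : ℂ) ^ j /
        ((j.factorial : ℕ) : ℂ)) := by
      have := Finset.sum_range_reflect (fun j : ℕ => ((2 * Real.pi * n * y : ℂ) ^ j /
        ((j.factorial : ℕ) : ℂ))) (m + 1)
      rw [← this]
      refine Finset.sum_congr rfl fun j _ => ?_
      congr 2 <;> omega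
    rw [h5]
    have h6 : Complex.exp (2 * Real.pi * Complex.I * n * z) =
        Complex.exp (2 * Real.pi * Complex.I * n * (u / q)) *
          (Real.exp (-(2 * Real.pi * n * y)) : ℂ) := by
      rw [Complex.ofReal_exp, ← Complex.exp_add]
      congr 1
      rw [hz]
      push_cast
      linear_combination (2 * Real.pi * n * y : ℂ) * Complex.I_sq
    rw [h6]
    unfold Vk
    push_cast
    ring

lemma SV_bound {κ : ℕ} {C : ℝ} (hV : VW (Vk κ) C) {a : ℕ → ℂ} (ha : Bd a) {y : ℝ} (hy : 0 < y) :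
    Summable (fun n : ℕ => a n / (n : ℂ) ^ κ * (Vk κ (2 * Real.pi * n * y) : ℂ)) ∧
    ‖SV κ a y‖ ≤ C * ‖Th (fun n => ((‖a n‖ : ℝ) : ℂ)) Real.pi y‖ := by
  obtain ⟨h0, A, m, hA, h⟩ := ha
  have hpi := Real.pi_pos
  have hC := hV.pos
  have hb : ∀ n : ℕ, ‖a n / (n : ℂ) ^ κ * (Vk κ (2 * Real.pi * n * y) : ℂ)‖ ≤
      C * (‖a n‖ * Real.exp (-(Real.pi * n) * y)) := by
    intro n
    rcases Nat.eq_zero_or_pos n with rfl | hn
    · rw [h0]; simp
    · have hn1 : (1 : ℝ) ≤ n := by exact_mod_cast hn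
      rw [norm_mul, norm_div, norm_pow, Complex.norm_natCast, Complex.norm_real, Real.norm_eq_abs]
      have h1 := hV.dec (2 * Real.pi * n * y) (by positivity)
      have h2 : -(2 * Real.pi * n * y / 2) = -(Real.pi * n) * y := by ring
      rw [h2] at h1
      have h3 : ‖a n‖ / (n : ℝ) ^ κ ≤ ‖a n‖ := div_le_self (norm_nonneg _) (one_le_pow₀ hn1)
      calc _ ≤ ‖a n‖ * (C * Real.exp (-(Real.pi * n) * y)) :=
            mul_le_mul h3 h1 (abs_nonneg _) (norm_nonneg _)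
        _ = _ := by ring
  have hs : Summable (fun n : ℕ => C * (‖a n‖ * Real.exp (-(Real.pi * n) * y))) := by
    have h1 := summable_term (b := fun n => ((‖a n‖ : ℝ) : ℂ)) (m := m) (C := A)
      (by rw [h0]; simp) (fun n hn => by
        rw [Complex.norm_real, norm_norm]; exact h n hn) Real.pi_pos hy
    refine Summable.mul_left C ?_
    refine (Complex.summable_ofReal.1 (h1.congr fun n => ?_))
    push_cast
    rfl
  refine ⟨Summable.of_norm_bounded hs hb, ?_⟩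
  unfold SV
  refine (tsum_of_norm_bounded hs.hasSum hb).trans (le_of_eq ?_)
  have e : Th (fun n => ((‖a n‖ : ℝ) : ℂ)) Real.pi y =
      ((∑' n : ℕ, ‖a n‖ * Real.exp (-(Real.pi * n) * y) : ℝ) : ℂ) := by
    unfold Th
    rw [Complex.ofReal_tsum]
    refine tsum_congr fun n => ?_
    push_cast
    rfl
  rw [tsum_mul_left, e, Complex.norm_real, Real.norm_eq_abs,
    abs_of_nonneg (tsum_nonneg fun n => by positivity)]

lemma SV_tendsto {κ : ℕ} (hκ : 1 ≤ κ) {a : ℕ → ℂ} (ha : Bd a) :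
    Tendsto (fun y : ℝ => SV κ a y) atTop (𝓝 0) := by
  obtain ⟨C, hV⟩ := h_vk κ hκ
  obtain ⟨h0, A, m, hA, h⟩ := id ha
  have h1 := Th_isBigO (b := fun n => ((‖a n‖ : ℝ) : ℂ)) (m := m) (C := A)
    (by rw [h0]; simp) (fun n hn => by
      rw [Complex.norm_real, norm_norm]; exact h n hn) Real.pi_pos (-1)
  simp only [sub_zero] at h1
  have h2 := h1.trans_tendsto (tendsto_rpow_neg_atTop one_pos)
  have h3 := (h2.norm).const_mul C
  rw [norm_zero, mul_zero] at h3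
  refine squeeze_zero_norm' ?_ h3
  filter_upwards [eventually_gt_atTop (0 : ℝ)] with y hy
  exact (SV_bound hV ha hy).2

/-! ### Gauss sums -/

lemma bd_char {b : ℕ → ℂ} (hb : Bd b) {q : ℕ} [NeZero q] (a : ZMod q) :
    Bd (fun n => b n * stdAddChar (a * (n : ZMod q))) :=
  hb.mul (fun n _ => by rw [AddChar.norm_apply])

lemma SV_gauss {κ : ℕ} (hκ : 1 ≤ κ) {b : ℕ → ℂ} (hb : Bd b) {q : ℕ} [NeZero q]
    (χ : DirichletCharacter ℂ q) (hχ : χ.IsPrimitive) {y : ℝ} (hy : 0 < y) :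
    ∑ u : (ZMod q)ˣ, χ (u : ZMod q) *
        SV κ (fun n => b n * stdAddChar ((u : ZMod q) * (n : ZMod q))) y =
      gaussSum χ (stdAddChar (N := q)) * SV κ (fun n => χ⁻¹ (n : ZMod q) * b n) y := by
  obtain ⟨C, hV⟩ := h_vk κ hκ
  unfold SV
  rw [← tsum_mul_left]
  have h6 : ∀ u : (ZMod q)ˣ, χ (u : ZMod q) * ∑' n : ℕ, b n * stdAddChar ((u : ZMod q) *
      (n : ZMod q)) / (n : ℂ) ^ κ * (Vk κ (2 * Real.pi * n * y) : ℂ) =
      ∑' n : ℕ, χ (u : ZMod q) * (b n * stdAddChar ((u : ZMod q) *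
      (n : ZMod q)) / (n : ℂ) ^ κ * (Vk κ (2 * Real.pi * n * y) : ℂ)) :=
    fun u => tsum_mul_left.symm
  simp only [h6]
  rw [← Summable.tsum_finsetSum (s := Finset.univ)
      (fun (u : (ZMod q)ˣ) _ => ((SV_bound hV (bd_char hb (u : ZMod q)) hy).1).mul_left _)]
  refine tsum_congr fun n => ?_
  have h2 := gaussSum_mulShift_of_isPrimitive (stdAddChar (N := q)) hχ (n : ZMod q)
  have h3 : gaussSum χ (stdAddChar.mulShift (n : ZMod q)) =
      ∑ u : (ZMod q)ˣ, χ (u : ZMod q) * stdAddChar ((n : ZMod q) * (u : ZMod q)) := by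
    unfold gaussSum
    simp only [AddChar.mulShift_apply]
    symm
    apply Finset.sum_of_injOn (fun u : (ZMod q)ˣ => (u : ZMod q))
    · intro a _ b _ hab
      exact Units.ext hab
    · intro a _
      simp
    · intro a _ ha
      rw [MulChar.map_nonunit _ (fun hu => ha ⟨hu.unit, by simp, by simp⟩), zero_mul]
    · intro a _
      rfl
  rw [h3] at h2
  have h4 : gaussSum χ (stdAddChar (N := q)) * (χ⁻¹ (n : ZMod q) * b n / (n : ℂ) ^ κ *
      (Vk κ (2 * Real.pi * n * y) : ℂ)) =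
      (χ⁻¹ (n : ZMod q) * gaussSum χ (stdAddChar (N := q))) *
      (b n / (n : ℂ) ^ κ * (Vk κ (2 * Real.pi * n * y) : ℂ)) := by ring
  rw [h4, ← h2, Finset.sum_mul]
  apply Finset.sum_congr rfl
  intro u _
  rw [mul_comm (n : ZMod q)]
  ring

/-- the limits of the additive twists at the central point -/
theorem lim_val {κ N M0 : ℕ} [NeZero N] (hκ : 1 ≤ κ) {b b' : ℕ → ℂ} (hb : Bd b) (hb' : Bd b')
    {c1 : ℂ} {W : Submodule ℚ ℂ} (hW : Space (2 * κ - 2) N M0 b b' c1 W) {q : ℕ} [NeZero q]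
    (hco : Nat.Coprime q N) (a : (ZMod q)ˣ) :
    ∃ w ∈ W.map (LinearMap.mulLeft ℚ ((2 * Real.pi * Complex.I : ℂ) ^ κ)),
      Tendsto (fun y : ℝ => SV κ (fun n => b n * stdAddChar ((a : ZMod q) * (n : ZMod q))) y)
        (𝓝[>] 0) (𝓝 w) := by
  have hq : 0 < q := Nat.pos_of_ne_zero (NeZero.ne q)
  have hqc : (q : ℂ) ≠ 0 := by exact_mod_cast hq.ne'
  have hpi : (Real.pi : ℂ) ≠ 0 := by exact_mod_cast Real.pi_ne_zero
  have hI := Complex.I_ne_zero
  set u : ℤ := ((a : ZMod q).val : ℤ) with hu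
  have h1 : Nat.Coprime (a : ZMod q).val q := ZMod.val_coe_unit_coprime a
  have h2 : Nat.Coprime q (N * (a : ZMod q).val) := Nat.Coprime.mul_right hco h1.symm
  have h3 : IsCoprime (q : ℤ) ((N * (a : ZMod q).val : ℕ) : ℤ) := by
    exact_mod_cast Nat.isCoprime_iff_coprime.2 h2
  obtain ⟨d, v, hdv⟩ := h3
  have hdet : d * q - u * (N * (-v)) = 1 := by
    push_cast at hdv
    rw [hu]
    linarith
  obtain ⟨w, hw, hlim⟩ := cusp hb' hW hq hdet (Pq_deg hκ q u)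
  set K : ℂ := (-1 : ℂ) ^ κ * (((κ - 1).factorial : ℕ) : ℂ) * (q : ℂ) ^ (κ - 1) /
        (2 * Real.pi * Complex.I) ^ κ with hK
  have hfa : (((κ - 1).factorial : ℕ) : ℂ) ≠ 0 := by exact_mod_cast (Nat.factorial_pos (κ - 1)).ne'
  have hK0 : K ≠ 0 := by
    rw [hK]
    refine div_ne_zero (mul_ne_zero (mul_ne_zero (pow_ne_zero _ (by norm_num)) hfa)
      (pow_ne_zero _ hqc)) (pow_ne_zero _ ?_)
    simp [hpi, hI]
  refine ⟨K⁻¹ * w, ?_, ?_⟩
  · refine ⟨(((-1 : ℚ) ^ κ * (((κ - 1).factorial : ℕ) : ℚ) * (q : ℚ) ^ (κ - 1))⁻¹ : ℚ) • w,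
      W.smul_mem _ hw, ?_⟩
    rw [LinearMap.mulLeft_apply, Algebra.smul_def]
    show _ * ((((( -1 : ℚ) ^ κ * (((κ - 1).factorial : ℕ) : ℚ) * (q : ℚ) ^ (κ - 1))⁻¹ : ℚ) : ℂ) * w) = _
    rw [hK]
    push_cast
    field_simp
  · refine (hlim.const_mul K⁻¹).congr' ?_
    filter_upwards [self_mem_nhdsWithin] with y (hy : 0 < y)
    rw [E_val hκ hb hq u hy, ← hK, ← mul_assoc, inv_mul_cancel₀ hK0, one_mul]
    congr 1
    funext n
    congr 1
    have e3 : ((a : ZMod q) * (n : ZMod q)) = ((u * n : ℤ) : ZMod q) := by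
      rw [hu]
      push_cast
      rw [ZMod.natCast_zmod_val]
    rw [e3, stdAddChar_coe]
    congr 1
    push_cast
    ring

/-- **The central value of the twist.** -/
theorem center {κ N M0 : ℕ} [NeZero N] (hκ : 1 ≤ κ) {b b' : ℕ → ℂ} (hb : Bd b) (hb' : Bd b')
    {c1 : ℂ} {W : Submodule ℚ ℂ} (hW : Space (2 * κ - 2) N M0 b b' c1 W) {q : ℕ} [NeZero q]
    (hco : Nat.Coprime q N) :
    ∃ w : (ZMod q)ˣ → ℂ,
      (∀ u, w u ∈ W.map (LinearMap.mulLeft ℚ ((2 * Real.pi * Complex.I : ℂ) ^ κ))) ∧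
      ∀ (χ : DirichletCharacter ℂ q), χ.IsPrimitive → ∀ (F0 W0 : ℂ) (a : ℕ → ℂ), Bd a →
        (∀ X Y : ℝ, 0 < X → 0 < Y → X * Y = N * (q : ℝ) ^ 2 / (4 * Real.pi ^ 2) →
          F0 = ∑' n : ℕ, χ⁻¹ (n : ZMod q) * b n / (n : ℂ) ^ κ * (Vk κ (n / X) : ℂ) +
            W0 * ∑' n : ℕ, a n / (n : ℂ) ^ κ * (Vk κ (n / Y) : ℂ)) →
        gaussSum χ (stdAddChar (N := q)) * F0 = ∑ u : (ZMod q)ˣ, χ (u : ZMod q) * w u := by
  choose w hw hlim using fun a : (ZMod q)ˣ => lim_val hκ hb hb' hW hco a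
  refine ⟨w, hw, fun χ hχ F0 W0 a ha hF => ?_⟩
  have hq0 : (0 : ℝ) < q := Nat.cast_pos.2 (Nat.pos_of_ne_zero (NeZero.ne q))
  have hN0 : (0 : ℝ) < N := Nat.cast_pos.2 (Nat.pos_of_ne_zero (NeZero.ne N))
  have hpi := Real.pi_pos
  have h1 : Tendsto (fun y : ℝ => ∑ u : (ZMod q)ˣ, χ (u : ZMod q) *
      SV κ (fun n => b n * stdAddChar ((u : ZMod q) * (n : ZMod q))) y) (𝓝[>] 0)
      (𝓝 (∑ u : (ZMod q)ˣ, χ (u : ZMod q) * w u)) :=
    tendsto_finsetSum _ fun u _ => (hlim u).const_mul _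
  have hT : Tendsto (fun y : ℝ => 1 / ((N : ℝ) * q ^ 2) * y⁻¹) (𝓝[>] 0) atTop :=
    tendsto_inv_nhdsGT_zero.const_mul_atTop (by positivity)
  have h2 : Tendsto (fun y : ℝ => gaussSum χ (stdAddChar (N := q)) *
      (F0 - W0 * SV κ a (1 / ((N : ℝ) * q ^ 2) * y⁻¹))) (𝓝[>] 0)
      (𝓝 (gaussSum χ (stdAddChar (N := q)) * (F0 - W0 * 0))) :=
    ((((SV_tendsto hκ ha).comp hT).const_mul W0).const_sub F0).const_mul _
  rw [mul_zero, sub_zero] at h2
  refine tendsto_nhds_unique h2 (h1.congr' ?_)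
  filter_upwards [self_mem_nhdsWithin] with y (hy : 0 < y)
  rw [SV_gauss hκ hb χ hχ hy]
  congr 1
  have h5 := hF (1 / (2 * Real.pi * y)) (N * (q : ℝ) ^ 2 * y / (2 * Real.pi)) (by positivity)
    (by positivity) (by field_simp; ring)
  have e1 : ∑' n : ℕ, χ⁻¹ (n : ZMod q) * b n / (n : ℂ) ^ κ *
      (Vk κ (n / (1 / (2 * Real.pi * y))) : ℂ) = SV κ (fun n => χ⁻¹ (n : ZMod q) * b n) y := by
    unfold SV
    refine tsum_congr fun n => ?_
    congr 3
    field_simp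
  have e2 : ∑' n : ℕ, a n / (n : ℂ) ^ κ *
      (Vk κ (n / (N * (q : ℝ) ^ 2 * y / (2 * Real.pi))) : ℂ) =
      SV κ a (1 / ((N : ℝ) * q ^ 2) * y⁻¹) := by
    unfold SV
    refine tsum_congr fun n => ?_
    congr 3
    field_simp
  rw [e1, e2] at h5
  rw [h5]
  ring

end Pool.Agent.X284.KS
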